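import Mathlib

/-!
# MP_103a5c_SZ, block C, row Vs (about 120 lines): vertical lines

`ln x t = x + i t`.  `SD n x1 x2 K H`: `H` is differentiable at every point of the closed strip `x1 ≤ Re w ≤ x2` and
`|H(w)| ≤ K / (1 + (Im w)²)^n` there.

## Proofs
* `SD.mono`: `(1 + t²)^n ≥ (1 + t²)^m` for `m ≤ n`, `1 + t² ≥ 1`; `K ≥ 0` follows from the bound at any point of the strip (if the strip is
  empty, i.e. `x2 < x1`, everything is vacuous: use `by_cases`).
* `SD.integrable`: continuity of `t ↦ H(ln x t)` (composition of the continuous `ln x` with `H`, `ContinuousAt.comp`), the bound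
  `K / (1 + t²)^n ≤ K * (1 + t²)⁻¹` for `n ≥ 1` and `integrable_inv_one_add_sq` (`Integrable.mono'`).
* `SD.shift`: for `Y > 0` apply `Complex.integral_boundary_rect_eq_zero_of_differentiableOn H (ln x1 (-Y)) (ln x2 Y)`:
  `(∫ x in x1..x2, H (x - Y i)) - (∫ x in x1..x2, H (x + Y i)) + I • (∫ y in -Y..Y, H (x2 + y i)) - I • (∫ y in -Y..Y, H (x1 + y i)) = 0`.
  The horizontal integrals are bounded by `(x2 - x1) K / (1 + Y²)^n ≤ (x2 - x1) K / (1 + Y²) → 0` (`intervalIntegral.norm_integral_le_of_norm_le_const`), the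
  vertical ones tend to the integrals over `ℝ` (`MeasureTheory.intervalIntegral_tendsto_integral` with `SD.integrable`,
  `tendsto_neg_atTop_atBot`, `tendsto_id`).  Pass to the limit (`tendsto_nhds_unique`) and cancel `I`.
-/

set_option autoImplicit false

open Complex MeasureTheory Filter Topology Set

namespace Pool.Agent.H53.SZC

/-- the point `x + i t` -/
noncomputable def ln (x t : ℝ) : ℂ := (x : ℂ) + (t : ℂ) * I

@[simp] theorem ln_re (x t : ℝ) : (ln x t).re = x := by simp [ln]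

@[simp] theorem ln_im (x t : ℝ) : (ln x t).im = t := by simp [ln]

/-- differentiable on the closed strip, with decay `(1 + t²)^(-n)` -/
structure SD (n : ℕ) (x1 x2 K : ℝ) (H : ℂ → ℂ) : Prop where
  diff : ∀ w : ℂ, x1 ≤ w.re → w.re ≤ x2 → DifferentiableAt ℂ H w
  bd : ∀ w : ℂ, x1 ≤ w.re → w.re ≤ x2 → ‖H w‖ ≤ K / (1 + w.im ^ 2) ^ n

theorem continuous_ln (x : ℝ) : Continuous (ln x) := by
  unfold ln; fun_prop

variable {n m : ℕ} {x1 x2 K : ℝ} {H : ℂ → ℂ}

theorem SD.nonneg (h : SD n x1 x2 K H) (h12 : x1 ≤ x2) : 0 ≤ K := by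
  have h1 := h.bd (ln x1 0) (by rw [ln_re]) (by rw [ln_re]; exact h12)
  rw [ln_im] at h1
  have h2 : K / (1 + (0 : ℝ) ^ 2) ^ n = K := by
    rw [zero_pow two_ne_zero, add_zero, one_pow, div_one]
  rw [h2] at h1
  exact (norm_nonneg _).trans h1

theorem SD.mono (h : SD n x1 x2 K H) (hm : m ≤ n) : SD m x1 x2 K H := by
  refine ⟨h.diff, fun w h1 h2 => (h.bd w h1 h2).trans ?_⟩
  have hK := h.nonneg (h1.trans h2)
  have h3 : (1 : ℝ) ≤ 1 + w.im ^ 2 := by nlinarith [sq_nonneg w.im]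
  exact div_le_div_of_nonneg_left hK (by positivity) (pow_le_pow_right₀ h3 hm)

theorem SD.sub (h : SD n x1 x2 K H) {y1 y2 : ℝ} (h1 : x1 ≤ y1) (h2 : y2 ≤ x2) : SD n y1 y2 K H :=
  ⟨fun w h3 h4 => h.diff w (h1.trans h3) (h4.trans h2), fun w h3 h4 => h.bd w (h1.trans h3) (h4.trans h2)⟩

theorem SD.continuous (h : SD n x1 x2 K H) {x : ℝ} (h1 : x1 ≤ x) (h2 : x ≤ x2) :
    Continuous fun t : ℝ => H (ln x t) := by
  rw [continuous_iff_continuousAt]
  intro t
  have h3 : ContinuousAt H (ln x t) :=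
    (h.diff (ln x t) (by rw [ln_re]; exact h1) (by rw [ln_re]; exact h2)).continuousAt
  exact ContinuousAt.comp (f := ln x) (g := H) h3 (continuous_ln x).continuousAt

theorem SD.integrable (h : SD n x1 x2 K H) (hn : 1 ≤ n) {x : ℝ} (h1 : x1 ≤ x) (h2 : x ≤ x2) :
    Integrable fun t : ℝ => H (ln x t) := by
  refine (integrable_inv_one_add_sq.const_mul K).mono' (h.continuous h1 h2).aestronglyMeasurable
    (Filter.Eventually.of_forall fun t => ?_)
  have h3 := (h.mono hn).bd (ln x t) (by rw [ln_re]; exact h1) (by rw [ln_re]; exact h2)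
  rw [ln_im, pow_one, div_eq_mul_inv] at h3
  exact h3

/-- the integral does not depend on the line -/
theorem SD.shift (h : SD n x1 x2 K H) (hn : 1 ≤ n) (h12 : x1 ≤ x2) :
    ∫ t : ℝ, H (ln x1 t) = ∫ t : ℝ, H (ln x2 t) := by
  have hrect : ∀ Y : ℝ, (∫ x : ℝ in x1..x2, H (x + ((-Y : ℝ) : ℂ) * I)) -
      (∫ x : ℝ in x1..x2, H (x + (Y : ℂ) * I)) + I • (∫ y : ℝ in (-Y)..Y, H (ln x2 y)) -
      I • (∫ y : ℝ in (-Y)..Y, H (ln x1 y)) = 0 := by
    intro Y
    have h1 := Complex.integral_boundary_rect_eq_zero_of_differentiableOn H (ln x1 (-Y)) (ln x2 Y)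
      (by
        intro w hw
        rw [ln_re, ln_re, Set.uIcc_of_le h12] at hw
        exact (h.diff w hw.1.1 hw.1.2).differentiableWithinAt)
    rw [ln_re, ln_re, ln_im, ln_im] at h1
    exact h1
  have hbound : ∀ Y : ℝ, ‖∫ x : ℝ in x1..x2, H (x + (Y : ℂ) * I)‖ ≤
      K / (1 + Y ^ 2) * |x2 - x1| := by
    intro Y
    refine intervalIntegral.norm_integral_le_of_norm_le_const fun x hx => ?_
    rw [Set.uIoc_of_le h12] at hx
    have h3 := (h.mono hn).bd (ln x Y) (by rw [ln_re]; exact hx.1.le) (by rw [ln_re]; exact hx.2)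
    rw [ln_im, pow_one] at h3
    exact h3
  have hlim : Tendsto (fun Y : ℝ => K / (1 + Y ^ 2) * |x2 - x1|) atTop (𝓝 0) := by
    have h1 : Tendsto (fun Y : ℝ => 1 + Y ^ 2) atTop atTop :=
      tendsto_atTop_add_const_left _ _ (tendsto_pow_atTop two_ne_zero)
    have h2 : Tendsto (fun Y : ℝ => K / (1 + Y ^ 2)) atTop (𝓝 0) := h1.const_div_atTop K
    have h3 := h2.mul_const |x2 - x1|
    rwa [zero_mul] at h3
  have hh2 : Tendsto (fun Y : ℝ => ∫ x : ℝ in x1..x2, H (x + (Y : ℂ) * I)) atTop (𝓝 0) :=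
    squeeze_zero_norm hbound hlim
  have hh1 : Tendsto (fun Y : ℝ => ∫ x : ℝ in x1..x2, H (x + ((-Y : ℝ) : ℂ) * I)) atTop
      (𝓝 0) := by
    refine squeeze_zero_norm (fun Y => ?_) hlim
    have h1 := hbound (-Y)
    rwa [neg_sq] at h1
  have hv2 : Tendsto (fun Y : ℝ => ∫ y : ℝ in (-Y)..Y, H (ln x2 y)) atTop
      (𝓝 (∫ t : ℝ, H (ln x2 t))) :=
    intervalIntegral_tendsto_integral (h.integrable hn h12 le_rfl) tendsto_neg_atTop_atBot
      tendsto_id
  have hv1 : Tendsto (fun Y : ℝ => ∫ y : ℝ in (-Y)..Y, H (ln x1 y)) atTop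
      (𝓝 (∫ t : ℝ, H (ln x1 t))) :=
    intervalIntegral_tendsto_integral (h.integrable hn le_rfl h12) tendsto_neg_atTop_atBot
      tendsto_id
  have htot := ((hh1.sub hh2).add (hv2.const_smul I)).sub (hv1.const_smul I)
  have hzero : Tendsto (fun Y : ℝ => (∫ x : ℝ in x1..x2, H (x + ((-Y : ℝ) : ℂ) * I)) -
      (∫ x : ℝ in x1..x2, H (x + (Y : ℂ) * I)) + I • (∫ y : ℝ in (-Y)..Y, H (ln x2 y)) -
      I • (∫ y : ℝ in (-Y)..Y, H (ln x1 y))) atTop (𝓝 0) := by
    refine tendsto_const_nhds.congr fun Y => ?_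
    exact (hrect Y).symm
  have heq := tendsto_nhds_unique hzero htot
  rw [sub_zero, zero_add, smul_eq_mul, smul_eq_mul, ← mul_sub] at heq
  have h5 : (∫ t : ℝ, H (ln x2 t)) - ∫ t : ℝ, H (ln x1 t) = 0 := by
    rcases mul_eq_zero.1 heq.symm with h6 | h6
    · exact absurd h6 I_ne_zero
    · exact h6
  exact (sub_eq_zero.1 h5).symm

end Pool.Agent.H53.SZC
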