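import Mathlib
import Pool.Agent.H53.SZC.Vs
import Pool.Agent.H82.SZ.Defs
import Pool.Agent.H17.ZetaA

/-!
# MP_103a5c_SZ, block C: definitions (no sorry)

`s = 1/2 + w`.  `zz w = w² - 1/4 = s (s - 1)`.  `Z s = (s - 1) ζ(s)` (entire, `Pool.Agent.H17.ZB.Z`).
-/

set_option autoImplicit false

open Complex

namespace Pool.Agent.H53.SZC

open H82SZ Pool.Agent.H17.ZB

/-- `w² - 1/4 = s (s - 1)` -/
noncomputable def zz (w : ℂ) : ℂ := w ^ 2 - 1 / 4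

/-- `(1 - exp (-u)) / u`, entire -/
noncomputable def psi : ℂ → ℂ := dslope (fun u : ℂ => 1 - Complex.exp (-u)) 0

/-- the pole killer `1 - exp (-(w² - 1/4)⁴)` -/
noncomputable def Ee (w : ℂ) : ℂ := 1 - Complex.exp (-(zz w ^ 4))

/-- `(s - 1)² ζ'(s)`, entire -/
noncomputable def DZ (s : ℂ) : ℂ := (s - 1) * deriv Z s - Z s

/-- `(s - 1)² F(s)`, entire -/
noncomputable def Aa (c0 : ℝ) (α P : ℝ → ℝ) (T : ℝ) (s : ℂ) : ℂ :=
  (s - 1) ^ 2 * dpol T (y0 c0 α T) s - DZ s * dpol T (xk P T) s / (Real.log T : ℂ)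

/-- `G(s) E(w) F(s) F(1 - s)`, entire -/
noncomputable def hh (c0 : ℝ) (α P : ℝ → ℝ) (T : ℝ) (w : ℂ) : ℂ :=
  Gs T (1 / 2 + w) * (Aa c0 α P T (1 / 2 + w) * Aa c0 α P T (1 / 2 - w)) * (zz w ^ 2 * psi (zz w ^ 4))

/-- the archimedean part of `logDeriv xi0` -/
noncomputable def Ar (w : ℂ) : ℂ := 1 / (1 / 2 + w) + 1 / ((1 / 2 + w) - 1) + logDeriv Gammaℝ (1 / 2 + w)

theorem Gs_norm (T : ℝ) (w : ℂ) :
    ‖Gs T (1 / 2 + w)‖ = Real.exp ((w.re ^ 2 - (w.im - T) ^ 2) * Real.log T / T ^ 2) := by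
  unfold Gs
  rw [Complex.norm_exp]
  congr 1
  have h : ((1 / 2 + w - 1 / 2 - (T : ℂ) * I) ^ 2 * (Real.log T : ℂ) / (T : ℂ) ^ 2) =
      (((Real.log T / T ^ 2 : ℝ)) : ℂ) * (w - T * I) ^ 2 := by
    push_cast; ring
  rw [h, Complex.re_ofReal_mul, pow_two (w - T * I)]
  simp
  ring

/-- the abscissa of the line `Re s = aT T` in the variable `w = s - 1/2` -/
noncomputable def bT (T : ℝ) : ℝ := aT T - 1 / 2

theorem half_add_ln (T t : ℝ) : 1 / 2 + ln (bT T) t = aT T + t * I := by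
  unfold ln bT; push_cast; ring

theorem half_sub_ln (T t : ℝ) : 1 / 2 - ln (bT T) t = 1 - (aT T + t * I) := by
  unfold ln bT; push_cast; ring

theorem bT_bounds {T : ℝ} (hT : 2 ≤ Real.log T) : 1 / 2 < bT T ∧ bT T ≤ 1 := by
  unfold bT aT
  have h1 : 0 < 1 / Real.log T := by positivity
  have h2 : 1 / Real.log T ≤ 1 / 2 := one_div_le_one_div_of_le (by norm_num) hT
  constructor <;> linarith

end Pool.Agent.H53.SZC
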