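import Mathlib
import Pool.Agent.H53.SZC.Df

/-!
# MP_103a5c_SZ, block C, row Gz (about 170 lines): growth of `Z(s) = (s - 1) ζ(s)` and of `DZ(s) = (s - 1) Z'(s) - Z(s)`

`Z` is entire: `Z_differentiable`.  `Z_of_ne`, `Z_eq`, `RN_norm_le` are in `Pool/Agent/H17/ZetaA.lean`.

## Proofs
* `Z_poly`: `Z_eq` with `N = 1`: `Z s = (s - 1) + 1 - s (s - 1) RN 1 s`, `‖RN 1 s‖ ≤ 1 / Re s ≤ 4`, `‖s‖ ≤ 4 + |t|`.
* `Z_poly'`: Cauchy (`Complex.norm_deriv_le_of_forall_mem_sphere_norm_le`) with radius `1/4` and `Z_poly`; `1 + (|t| + 1/4) ≤ 2 (1 + |t|)`.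
* `Z_exp` (first on `-2 ≤ Re s ≤ 3`, as a private lemma): if `Re s ≥ 1/2`: `Z_poly` and `(1 + |t|)² ≤ 2 exp |t|`... (`1 + |t| ≤ exp |t|`, so `(1 + |t|)² ≤ exp (2|t|)`).
  If `Re s ≤ 1/2` and `|t| ≤ 1`: `Z` is continuous and the set `-2 ≤ Re s ≤ 3, |t| ≤ 1` is compact (e.g. contained in `closedBall 0 5`).
  If `Re s ≤ 1/2` and `|t| ≥ 1`: put `r = 1 - s`, `1/2 ≤ Re r ≤ 3`, `|Im r| = |t| ≥ 1`: `riemannZeta_one_sub : ζ(1 - r) = 2 (2π)^(-r) Γ(r) cos(π r/2) ζ(r)` (Mathlib; needs `r ≠ -n`, `r ≠ 1`, clear as `Im r ≠ 0`);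
  `‖(2π)^(-r)‖ = (2π)^(-Re r) ≤ 1`; `‖Γ(r)‖ ≤ Γ(Re r) ≤ C` on `[1/2, 3]` (search the repository for `norm_Gamma_le` / `‖Complex.Gamma s‖ ≤ Real.Gamma s.re`; the proof is `Gamma_eq_integral` and `norm_integral_le_integral_norm`,
  `‖x^(r-1)‖ = x^(Re r - 1)`; `Real.Gamma` is continuous on the compact `[1/2, 3]`); `‖cos z‖ ≤ exp |Im z|`, here `|Im (π r/2)| = π |t|/2 ≤ 1.6 |t|`;
  `‖ζ(r)‖ = ‖Z r‖ / ‖r - 1‖ ≤ ‖Z r‖ ≤ C (1 + |t|)²`, `‖Z s‖ = ‖s - 1‖ ‖ζ(s)‖ ≤ (3 + |t|) ..`.  In total `≤ C (1 + |t|)³ exp (1.6 |t|) ≤ C' exp (2 |t|)` (`(1 + |t|)³ ≤ C exp (0.4 |t|)`, e.g. by `Real.pow_div_factorial_le_exp` or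
  `1 + |t| ≤ 8 (1 + |t|/8) ≤ 8 exp (|t|/8)`, `3/8 ≤ 0.4`).
* `Z_exp'`: Cauchy with radius `1` on `-1 ≤ Re s ≤ 2`.
* `DZ_poly`, `DZ_exp`: triangle inequality; `(1 + |t|)² (4 + |t|) ≤ 4 (1 + |t|)³`, `(3 + |t|) exp (2|t|) ≤ 3 exp (3|t|)`.
-/

set_option autoImplicit false

open Complex MeasureTheory Filter Topology Set

namespace Pool.Agent.H53.SZC

open H82SZ Pool.Agent.H17.ZB

private theorem SZCGz_norm_Gamma {s : ℂ} (hs : 0 < s.re) : ‖Complex.Gamma s‖ ≤ Real.Gamma s.re := by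
  rw [Complex.Gamma_eq_integral hs, Real.Gamma_eq_integral hs]
  unfold Complex.GammaIntegral
  refine (norm_integral_le_integral_norm _).trans (le_of_eq ?_)
  refine setIntegral_congr_fun measurableSet_Ioi fun x hx => ?_
  have hx0 : (0 : ℝ) < x := hx
  simp only [norm_mul, Complex.norm_real]
  rw [Complex.norm_cpow_eq_rpow_re_of_pos hx0, Real.norm_of_nonneg (Real.exp_pos _).le]
  simp

private theorem SZCGz_norm_cos (z : ℂ) : ‖Complex.cos z‖ ≤ Real.exp |z.im| := by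
  unfold Complex.cos
  rw [norm_div, Complex.norm_ofNat, div_le_iff₀ (by norm_num)]
  refine (norm_add_le _ _).trans ?_
  rw [Complex.norm_exp, Complex.norm_exp]
  have h1 : (z * I).re = -z.im := by simp
  have h2 : (-z * I).re = z.im := by simp
  rw [h1, h2]
  have h3 : Real.exp (-z.im) ≤ Real.exp |z.im| := Real.exp_le_exp.mpr (neg_le_abs _)
  have h4 : Real.exp z.im ≤ Real.exp |z.im| := Real.exp_le_exp.mpr (le_abs_self _)
  linarith

private theorem SZCGz_norm_le (s : ℂ) {a : ℝ} (h : |s.re| ≤ a) : ‖s‖ ≤ a + |s.im| :=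
  (Complex.norm_le_abs_re_add_abs_im s).trans (by linarith)

private theorem SZCGz_norm_sub_one_le (s : ℂ) {a : ℝ} (h : |s.re - 1| ≤ a) : ‖s - 1‖ ≤ a + |s.im| := by
  have h1 := SZCGz_norm_le (s - 1) (a := a) (by simpa using h)
  simpa using h1

theorem Z_poly : ∃ C : ℝ, 0 ≤ C ∧ ∀ s : ℂ, 1 / 4 ≤ s.re → s.re ≤ 4 → ‖Z s‖ ≤ C * (1 + |s.im|) ^ 2 := by
  refine ⟨68, by norm_num, fun s h1 h4 => ?_⟩
  have hs0 : 0 < s.re := by linarith
  have e := Z_eq (le_refl 1) hs0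
  have hR := RN_norm_le (le_refl 1) hs0
  have hsum : ∑ n ∈ Finset.Icc 1 1, ((n : ℕ) : ℂ) ^ (-s) = 1 := by simp
  rw [hsum] at e
  have h1c : ((1 : ℕ) : ℂ) ^ (1 - s) = 1 := by simp
  rw [h1c] at e
  have hR4 : ‖RN 1 s‖ ≤ 4 := by
    refine hR.trans ?_
    rw [Nat.cast_one, Real.one_rpow, div_le_iff₀ hs0]
    linarith
  have e2 : Z s = s - s * (s - 1) * RN 1 s := by rw [e]; ring
  have ha : ‖s‖ ≤ 4 + |s.im| := SZCGz_norm_le s (by rw [abs_of_pos hs0]; exact h4)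
  have hb : ‖s - 1‖ ≤ 3 + |s.im| := SZCGz_norm_sub_one_le s (by rw [abs_le]; constructor <;> linarith)
  have ht := abs_nonneg s.im
  have ha' : ‖s‖ ≤ 4 * (1 + |s.im|) := by linarith
  have hb' : ‖s - 1‖ ≤ 4 * (1 + |s.im|) := by linarith
  rw [e2]
  calc ‖s - s * (s - 1) * RN 1 s‖ ≤ ‖s‖ + ‖s * (s - 1) * RN 1 s‖ := norm_sub_le _ _
    _ = ‖s‖ + ‖s‖ * ‖s - 1‖ * ‖RN 1 s‖ := by rw [norm_mul, norm_mul]
    _ ≤ 4 * (1 + |s.im|) + (4 * (1 + |s.im|)) * (4 * (1 + |s.im|)) * 4 := by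
        gcongr
    _ ≤ 68 * (1 + |s.im|) ^ 2 := by nlinarith

private theorem SZCGz_sphere {s z : ℂ} {r : ℝ} (hz : z ∈ Metric.sphere s r) :
    |z.re - s.re| ≤ r ∧ |z.im| ≤ |s.im| + r := by
  have h : ‖z - s‖ = r := by simpa [dist_eq_norm] using hz
  have h1 := Complex.abs_re_le_norm (z - s)
  have h2 := Complex.abs_im_le_norm (z - s)
  rw [h] at h1 h2
  rw [Complex.sub_re] at h1
  rw [Complex.sub_im] at h2
  refine ⟨h1, ?_⟩
  have h3 : |z.im| ≤ |z.im - s.im| + |s.im| := by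
    have := abs_add_le (z.im - s.im) s.im
    simpa using this
  linarith

theorem Z_poly' : ∃ C : ℝ, 0 ≤ C ∧ ∀ s : ℂ, 1 / 2 ≤ s.re → s.re ≤ 3 → ‖deriv Z s‖ ≤ C * (1 + |s.im|) ^ 2 := by
  obtain ⟨C, hC, h⟩ := Z_poly
  refine ⟨16 * C, by positivity, fun s h1 h3 => ?_⟩
  have ht := abs_nonneg s.im
  have hd := Complex.norm_deriv_le_of_forall_mem_sphere_norm_le (c := s) (R := 1 / 4) (F := ℂ) (f := Z)
    (C := 4 * C * (1 + |s.im|) ^ 2) (by norm_num) Z_differentiable.diffContOnCl (fun z hz => by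
      obtain ⟨ha, hb⟩ := SZCGz_sphere hz
      rw [abs_le] at ha
      refine (h z (by linarith) (by linarith)).trans ?_
      have h5 : (1 + |z.im|) ^ 2 ≤ (2 * (1 + |s.im|)) ^ 2 := by
        have := abs_nonneg z.im
        gcongr
        linarith
      nlinarith [mul_le_mul_of_nonneg_left h5 hC])
  refine hd.trans (le_of_eq ?_)
  ring

private theorem SZCGz_exp : ∃ C : ℝ, 0 ≤ C ∧ ∀ s : ℂ, -2 ≤ s.re → s.re ≤ 3 → ‖Z s‖ ≤ C * Real.exp (2 * |s.im|) := by
  obtain ⟨C, hC, h⟩ := Z_poly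
  obtain ⟨M, hM⟩ := (isCompact_closedBall (0 : ℂ) 5).exists_bound_of_continuousOn Z_differentiable.continuous.continuousOn
  obtain ⟨G, hG⟩ := (isCompact_Icc (a := (1 / 2 : ℝ)) (b := 3)).exists_bound_of_continuousOn (f := Real.Gamma)
    (fun x hx => (Real.differentiableAt_Gamma (fun m => by
      have h1 : (0 : ℝ) ≤ m := Nat.cast_nonneg m
      have h2 := hx.1
      intro h3
      linarith)).continuousAt.continuousWithinAt)
  have hM0 : 0 ≤ M := (norm_nonneg _).trans (hM 0 (by simp))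
  have hG0 : 0 ≤ G := (norm_nonneg _).trans (hG 1 (by constructor <;> norm_num))
  refine ⟨C + M + 3072 * G * C, by positivity, fun s h1 h3 => ?_⟩
  have ht := abs_nonneg s.im
  set t : ℝ := |s.im| with htdef
  have he1 : 1 ≤ Real.exp (2 * t) := Real.one_le_exp (by positivity)
  have hGC : 0 ≤ 3072 * G * C := by positivity
  rcases le_or_gt (1 / 2) s.re with hr | hr
  · have h5 := h s (by linarith) (by linarith)
    have h6 : (1 + |s.im|) ^ 2 ≤ Real.exp (2 * t) := by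
      have h7 : 1 + t ≤ Real.exp t := by
        have := Real.add_one_le_exp t
        linarith
      have h8 : Real.exp (2 * t) = Real.exp t ^ 2 := by rw [← Real.exp_nat_mul]; norm_num
      rw [h8]
      gcongr
    calc ‖Z s‖ ≤ C * (1 + |s.im|) ^ 2 := h5
      _ ≤ C * Real.exp (2 * t) := by gcongr
      _ ≤ (C + M + 3072 * G * C) * Real.exp (2 * t) := by
          apply mul_le_mul_of_nonneg_right _ (by positivity)
          linarith
  · rcases le_or_gt t 1 with ht1 | ht1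
    · have h5 := hM s (by
        rw [mem_closedBall_zero_iff]
        have := SZCGz_norm_le s (a := 2) (by rw [abs_le]; constructor <;> linarith)
        linarith)
      calc ‖Z s‖ ≤ M := h5
        _ ≤ M * Real.exp (2 * t) := by nlinarith
        _ ≤ (C + M + 3072 * G * C) * Real.exp (2 * t) := by
            apply mul_le_mul_of_nonneg_right _ (by positivity)
            linarith
    · set r : ℂ := 1 - s with hrdef
      have hrre : r.re = 1 - s.re := by simp [hrdef]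
      have hrim : |r.im| = t := by simp [hrdef, htdef]
      have hr1 : r ≠ 1 := by
        intro h6
        rw [h6] at hrim
        simp at hrim
        linarith
      have hrn : ∀ n : ℕ, r ≠ -n := by
        intro n h6
        rw [h6] at hrim
        simp at hrim
        linarith
      have hs1 : s ≠ 1 := by
        intro h6
        rw [htdef, h6] at ht1
        simp at ht1
        linarith
      have hfe := riemannZeta_one_sub hrn hr1
      have hsr : 1 - r = s := by simp [hrdef]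
      rw [hsr] at hfe
      have hZr : ‖riemannZeta r‖ ≤ C * (1 + t) ^ 2 := by
        have h6 := h r (by rw [hrre]; linarith) (by rw [hrre]; linarith)
        rw [Z_of_ne hr1, norm_mul, hrim] at h6
        have h7 : 1 ≤ ‖r - 1‖ := by
          have := Complex.abs_im_le_norm (r - 1)
          have h8 : (r - 1).im = r.im := by simp
          rw [h8, hrim] at this
          linarith
        refine le_trans ?_ h6
        have := norm_nonneg (riemannZeta r)
        nlinarith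
      have h2π : ‖(2 * (Real.pi : ℂ)) ^ (-r)‖ ≤ 1 := by
        have h6 : (2 * (Real.pi : ℂ)) = ((2 * Real.pi : ℝ) : ℂ) := by push_cast; rfl
        rw [h6, Complex.norm_cpow_eq_rpow_re_of_pos (by positivity)]
        apply Real.rpow_le_one_of_one_le_of_nonpos
        · have := Real.pi_gt_three
          linarith
        · rw [Complex.neg_re, hrre]
          linarith
      have hΓ : ‖Complex.Gamma r‖ ≤ G := by
        have h6 := SZCGz_norm_Gamma (s := r) (by rw [hrre]; linarith)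
        refine h6.trans ((le_abs_self _).trans ?_)
        exact hG r.re ⟨by rw [hrre]; linarith, by rw [hrre]; linarith⟩
      have hcos : ‖Complex.cos (Real.pi * r / 2)‖ ≤ Real.exp (1.6 * t) := by
        refine (SZCGz_norm_cos _).trans (Real.exp_le_exp.mpr ?_)
        have h6 : ((Real.pi : ℂ) * r / 2).im = Real.pi / 2 * r.im := by
          have h7 : (Real.pi : ℂ) * r / 2 = ((Real.pi / 2 : ℝ) : ℂ) * r := by push_cast; ring
          rw [h7, Complex.im_ofReal_mul]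
        rw [h6, abs_mul, hrim, abs_of_pos (by positivity)]
        have := Real.pi_lt_d2
        nlinarith
      have hsn : ‖s - 1‖ ≤ 3 * (1 + t) := by
        have := SZCGz_norm_sub_one_le s (a := 3) (by rw [abs_le]; constructor <;> linarith)
        linarith
      have hz : ‖Z s‖ ≤ 3 * (1 + t) * (2 * 1 * G * Real.exp (1.6 * t) * (C * (1 + t) ^ 2)) := by
        rw [Z_of_ne hs1, norm_mul, hfe, norm_mul, norm_mul, norm_mul, norm_mul, Complex.norm_ofNat]
        gcongr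
      have h8 : 1 + t ≤ 8 * Real.exp (t / 8) := by
        have := Real.add_one_le_exp (t / 8)
        linarith
      have h9 : (1 + t) ^ 3 ≤ 512 * Real.exp (0.375 * t) := by
        have h10 : (1 + t) ^ 3 ≤ (8 * Real.exp (t / 8)) ^ 3 := by gcongr
        refine h10.trans (le_of_eq ?_)
        rw [mul_pow, ← Real.exp_nat_mul]
        norm_num
        ring_nf
      have h11 : Real.exp (0.375 * t) * Real.exp (1.6 * t) ≤ Real.exp (2 * t) := by
        rw [← Real.exp_add]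
        apply Real.exp_le_exp.mpr
        linarith
      calc ‖Z s‖ ≤ 3 * (1 + t) * (2 * 1 * G * Real.exp (1.6 * t) * (C * (1 + t) ^ 2)) := hz
        _ = 6 * G * C * ((1 + t) ^ 3 * Real.exp (1.6 * t)) := by ring
        _ ≤ 6 * G * C * ((512 * Real.exp (0.375 * t)) * Real.exp (1.6 * t)) := by gcongr
        _ = 3072 * G * C * (Real.exp (0.375 * t) * Real.exp (1.6 * t)) := by ring
        _ ≤ 3072 * G * C * Real.exp (2 * t) := by gcongr
        _ ≤ (C + M + 3072 * G * C) * Real.exp (2 * t) := by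
            apply mul_le_mul_of_nonneg_right _ (by positivity)
            linarith

theorem Z_exp : ∃ C : ℝ, 0 ≤ C ∧ ∀ s : ℂ, -1 ≤ s.re → s.re ≤ 2 → ‖Z s‖ ≤ C * Real.exp (2 * |s.im|) := by
  obtain ⟨C, hC, h⟩ := SZCGz_exp
  exact ⟨C, hC, fun s h1 h2 => h s (by linarith) (by linarith)⟩

theorem Z_exp' : ∃ C : ℝ, 0 ≤ C ∧ ∀ s : ℂ, -1 ≤ s.re → s.re ≤ 2 → ‖deriv Z s‖ ≤ C * Real.exp (2 * |s.im|) := by
  obtain ⟨C, hC, h⟩ := SZCGz_exp
  refine ⟨C * Real.exp 2, by positivity, fun s h1 h2 => ?_⟩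
  have hd := Complex.norm_deriv_le_of_forall_mem_sphere_norm_le (c := s) (R := 1) (F := ℂ) (f := Z)
    (C := C * Real.exp 2 * Real.exp (2 * |s.im|)) (by norm_num) Z_differentiable.diffContOnCl (fun z hz => by
      obtain ⟨ha, hb⟩ := SZCGz_sphere hz
      rw [abs_le] at ha
      refine (h z (by linarith) (by linarith)).trans ?_
      rw [mul_assoc, ← Real.exp_add]
      apply mul_le_mul_of_nonneg_left _ hC
      apply Real.exp_le_exp.mpr
      linarith)
  rwa [div_one] at hd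

theorem DZ_poly : ∃ C : ℝ, 0 ≤ C ∧ ∀ s : ℂ, 1 / 2 ≤ s.re → s.re ≤ 2 → ‖DZ s‖ ≤ C * (1 + |s.im|) ^ 3 := by
  obtain ⟨C, hC, h⟩ := Z_poly
  obtain ⟨D, hD, h'⟩ := Z_poly'
  refine ⟨D + C, by positivity, fun s h1 h2 => ?_⟩
  have ht := abs_nonneg s.im
  have ha := h s (by linarith) (by linarith)
  have hb := h' s (by linarith) (by linarith)
  have hc : ‖s - 1‖ ≤ 1 + |s.im| := SZCGz_norm_sub_one_le s (by rw [abs_le]; constructor <;> linarith)
  unfold DZ
  calc ‖(s - 1) * deriv Z s - Z s‖ ≤ ‖(s - 1) * deriv Z s‖ + ‖Z s‖ := norm_sub_le _ _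
    _ = ‖s - 1‖ * ‖deriv Z s‖ + ‖Z s‖ := by rw [norm_mul]
    _ ≤ (1 + |s.im|) * (D * (1 + |s.im|) ^ 2) + C * (1 + |s.im|) ^ 2 := by gcongr
    _ ≤ (D + C) * (1 + |s.im|) ^ 3 := by
        have h3 : (1 + |s.im|) ^ 2 ≤ (1 + |s.im|) ^ 3 := pow_le_pow_right₀ (by linarith) (by norm_num)
        have h4 := mul_le_mul_of_nonneg_left h3 hC
        linarith

theorem DZ_exp : ∃ C : ℝ, 0 ≤ C ∧ ∀ s : ℂ, -1 ≤ s.re → s.re ≤ 2 → ‖DZ s‖ ≤ C * Real.exp (3 * |s.im|) := by
  obtain ⟨C, hC, h⟩ := Z_exp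
  obtain ⟨D, hD, h'⟩ := Z_exp'
  refine ⟨2 * D + C, by positivity, fun s h1 h2 => ?_⟩
  have ht := abs_nonneg s.im
  have ha := h s h1 h2
  have hb := h' s h1 h2
  have hc : ‖s - 1‖ ≤ 2 + |s.im| := SZCGz_norm_sub_one_le s (by rw [abs_le]; constructor <;> linarith)
  have hc' : ‖s - 1‖ ≤ 2 * Real.exp |s.im| := by
    have := Real.add_one_le_exp |s.im|
    linarith
  have h3 : Real.exp |s.im| * Real.exp (2 * |s.im|) = Real.exp (3 * |s.im|) := by
    rw [← Real.exp_add]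
    ring_nf
  have h4 : Real.exp (2 * |s.im|) ≤ Real.exp (3 * |s.im|) := Real.exp_le_exp.mpr (by linarith)
  unfold DZ
  calc ‖(s - 1) * deriv Z s - Z s‖ ≤ ‖(s - 1) * deriv Z s‖ + ‖Z s‖ := norm_sub_le _ _
    _ = ‖s - 1‖ * ‖deriv Z s‖ + ‖Z s‖ := by rw [norm_mul]
    _ ≤ (2 * Real.exp |s.im|) * (D * Real.exp (2 * |s.im|)) + C * Real.exp (3 * |s.im|) := by
        apply add_le_add
        · gcongr
        · exact ha.trans (mul_le_mul_of_nonneg_left h4 hC)
    _ = 2 * D * (Real.exp |s.im| * Real.exp (2 * |s.im|)) + C * Real.exp (3 * |s.im|) := by ring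
    _ = (2 * D + C) * Real.exp (3 * |s.im|) := by rw [h3]; ring

end Pool.Agent.H53.SZC
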