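import Mathlib
import Pool.Agent.H53.SZC.Df

/-!
# MP_103a5c_SZ, block C, row Hf (about 230 lines): identities for `Aa` and `hh`

## Proofs
* `DZ_eq`: near `s ≠ 1`, `ζ(z) = Z(z) / (z - 1)` (`Z_of_ne`), so `ζ'(s) = Z'(s)/(s - 1) - Z(s)/(s - 1)²` (`HasDerivAt.div`, `Z_differentiable`, `EventuallyEq.deriv_eq`).
* `dpol_differentiable`: finite sum of `(a n : ℂ) * (n : ℂ) ^ (-s)` with `n ≥ 1` (`Differentiable.const_cpow`); `dpol_conj`: `(n : ℂ)^(-conj s) = conj ((n : ℂ)^(-s))`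
  (`Complex.cpow_conj`, `n.arg ≠ π` as `n > 0`), real coefficients.
* `Z_conj`: `Z (conj s) = conj (Z s)`: for `s ≠ 1` from `riemannZeta_conj` if Mathlib has it; otherwise the identity theorem: `g s = conj (Z (conj s))` is entire (`DifferentiableAt.conj_conj` / `differentiableAt_conj_conj_iff`)
  and equals `Z` for real `s > 1` (there `ζ(s) = ∑ 1/n^s` is real), in particular frequently near `2`; `AnalyticOnNhd.eq_of_frequently_eq` (or `eqOn_of_preconnected_of_frequently_eq`).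
  Or directly: for `Re s > 1` `zeta_eq_tsum_one_div_nat_cpow` and `Complex.conj_tsum`, which gives equality on an open set.
  `deriv_conj_conj` / `HasDerivAt.conj_conj` gives `deriv Z (conj s) = conj (deriv Z s)`, hence `DZ_conj`, `Aa_conj`.
* `psi`: `psi_mul`: for `u ≠ 0` `dslope_of_ne` + `slope_def_field` (`f 0 = 0`); for `u = 0` both sides are `0`.  `psi_diff`: `Complex.differentiableOn_dslope` on `univ`.
  `psi_conj`: for `u ≠ 0` from `psi_mul` (`Complex.exp_conj`); `u = 0`: `dslope_same`, the derivative of `1 - exp (-u)` at `0` is `1`.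
* `hh_eq`: with `s = 1/2 + w`: `(s - 1)² ((1 - s) - 1)² = zz w ^ 2` and `zz² * (zz² psi(zz⁴)) = zz⁴ psi(zz⁴) = Ee w` (`psi_mul`).
* `hh_half`: `zz (1/2) = 0`.
* `hh_symm`: `1/2 + (-conj w) = conj (1/2 - w)`, `1/2 - (-conj w) = conj (1/2 + w)`; `Gs T (1/2 - conj w) = conj (Gs T (1/2 + w))` because `(-conj w - i T)² = conj ((w - i T)²)` and `exp_conj`;
  `zz (-conj w) = conj (zz w)`.
* `hh_line`: `w = i t`: `Gs T (1/2 + it) = exp (-(t - T)² L/T²) = Gw T t`; `1/2 - it = conj (1/2 + it)` so `F(s) F(1 - s) = F(s) conj F(s) = ‖F(s)‖²` (`FF_conj`, `Complex.mul_conj`, `normSq_eq_norm_sq`);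
  `Ee (it) = 1 - exp (-(t² + 1/4)⁴)`.
* `Ee_bd`: with `p = Re zz = x² - t² - 1/4`, `q = Im zz = 2xt`, `Re zz⁴ = p⁴ - 6 p² q² + q⁴ ≥ p² (p² - 24 t²)` for `|x| ≤ 1`; for `t² ≥ 30` one has `|p| ≥ t² - 3/4`, so `p² ≥ 9 t⁴/10`, `p² - 24 t² ≥ t⁴/10`, and
  `Re zz⁴ ≥ 9 t⁸/100 ≥ t⁴`; for `t² ≤ 30`: `|exp (-zz⁴)| ≤ exp (|zz|⁴) ≤ exp (33⁴)`, say.  Any constant `C` will do, e.g. `C = exp (2 * 33 ^ 4)`.
-/

set_option autoImplicit false

open Complex MeasureTheory Filter Topology Set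

namespace Pool.Agent.H53.SZC

open H82SZ Pool.Agent.H17.ZB

variable {c0 : ℝ} {α P : ℝ → ℝ} {T : ℝ}

theorem DZ_eq {s : ℂ} (hs : s ≠ 1) : DZ s = (s - 1) ^ 2 * deriv riemannZeta s := by
  have h1 : HasDerivAt (fun z : ℂ => (z - 1) * riemannZeta z) (1 * riemannZeta s + (s - 1) * deriv riemannZeta s) s :=
    ((hasDerivAt_id s).sub_const 1).mul (differentiableAt_riemannZeta hs).hasDerivAt
  have h2 : Z =ᶠ[𝓝 s] fun z => (z - 1) * riemannZeta z := by
    filter_upwards [isOpen_ne.mem_nhds hs] with z hz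
    exact Z_of_ne hz
  have h3 := (h1.congr_of_eventuallyEq h2).deriv
  unfold DZ
  rw [h3, Z_of_ne hs]
  ring

theorem DZ_differentiable : Differentiable ℂ DZ := by
  have h1 : Differentiable ℂ (deriv Z) := fun z => (Z_differentiable.analyticAt z).deriv.differentiableAt
  unfold DZ
  exact ((differentiable_id.sub_const 1).mul h1).sub Z_differentiable

theorem dpol_differentiable (a : ArithmeticFunction ℝ) : Differentiable ℂ (dpol T a) := by
  unfold dpol
  apply Differentiable.fun_sum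
  intro n hn
  have hn1 : n ≠ 0 := by
    have := (Finset.mem_Icc.mp hn).1
    omega
  apply Differentiable.const_mul
  exact (differentiable_neg).const_cpow (Or.inl (by exact_mod_cast hn1))

theorem dpol_conj (a : ArithmeticFunction ℝ) (s : ℂ) :
    dpol T a ((starRingEnd ℂ) s) = (starRingEnd ℂ) (dpol T a s) := by
  unfold dpol
  rw [map_sum]
  refine Finset.sum_congr rfl fun n hn => ?_
  have h1 : (n : ℂ).arg ≠ Real.pi := by
    rw [Complex.natCast_arg]
    exact Real.pi_pos.ne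
  rw [map_mul, Complex.conj_ofReal]
  congr 1
  have h2 := Complex.cpow_conj (n : ℂ) (-s) h1
  rw [map_neg, Complex.conj_natCast] at h2
  exact h2

theorem Z_conj (s : ℂ) : Z ((starRingEnd ℂ) s) = (starRingEnd ℂ) (Z s) := by
  by_cases hs : s = 1
  · subst hs
    have h1 : Z 1 = 1 := by unfold Z; ring
    rw [map_one, h1, map_one]
  · have hs' : (starRingEnd ℂ) s ≠ 1 := by
      intro h
      apply hs
      have := congrArg (starRingEnd ℂ) h
      simpa using this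
    rw [Z_of_ne hs, Z_of_ne hs', riemannZeta_conj, map_mul, map_sub, map_one]

theorem DZ_conj (s : ℂ) : DZ ((starRingEnd ℂ) s) = (starRingEnd ℂ) (DZ s) := by
  have h1 : deriv Z ((starRingEnd ℂ) s) = (starRingEnd ℂ) (deriv Z s) := by
    have h2 := (Z_differentiable s).hasDerivAt.conj_conj
    have h3 : ((starRingEnd ℂ) ∘ Z ∘ (starRingEnd ℂ)) = Z := by
      funext z
      simp only [Function.comp]
      rw [Z_conj, Complex.conj_conj]
    rw [h3] at h2
    exact h2.deriv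
  unfold DZ
  rw [h1, Z_conj, map_sub, map_mul, map_sub, map_one]

theorem Aa_eq {s : ℂ} (hs : s ≠ 1) : Aa c0 α P T s = (s - 1) ^ 2 * FF c0 α P T s := by
  unfold Aa FF
  rw [DZ_eq hs]
  ring

theorem Aa_differentiable : Differentiable ℂ (Aa c0 α P T) := by
  unfold Aa
  exact (((differentiable_id.sub_const 1).pow 2).mul (dpol_differentiable _)).sub
    ((DZ_differentiable.mul (dpol_differentiable _)).div_const _)

theorem Aa_conj (s : ℂ) : Aa c0 α P T ((starRingEnd ℂ) s) = (starRingEnd ℂ) (Aa c0 α P T s) := by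
  unfold Aa
  rw [dpol_conj, dpol_conj, DZ_conj, map_sub, map_mul, map_div₀, map_mul, Complex.conj_ofReal, map_pow, map_sub, map_one]

theorem FF_conj {s : ℂ} (hs : s ≠ 1) : FF c0 α P T ((starRingEnd ℂ) s) = (starRingEnd ℂ) (FF c0 α P T s) := by
  have hs' : (starRingEnd ℂ) s ≠ 1 := by
    intro h
    apply hs
    have := congrArg (starRingEnd ℂ) h
    simpa using this
  have h1 := Aa_conj (c0 := c0) (α := α) (P := P) (T := T) s
  rw [Aa_eq hs, Aa_eq hs', map_mul, map_pow, map_sub, map_one] at h1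
  exact mul_left_cancel₀ (pow_ne_zero 2 (sub_ne_zero.mpr hs')) h1

theorem psi_mul (u : ℂ) : u * psi u = 1 - Complex.exp (-u) := by
  by_cases hu : u = 0
  · subst hu
    simp
  · unfold psi
    rw [dslope_of_ne _ hu, slope_def_field]
    field_simp
    simp
    ring

theorem psi_differentiable : Differentiable ℂ psi := by
  unfold psi
  rw [← differentiableOn_univ, Complex.differentiableOn_dslope Filter.univ_mem, differentiableOn_univ]
  fun_prop

theorem psi_conj (u : ℂ) : psi ((starRingEnd ℂ) u) = (starRingEnd ℂ) (psi u) := by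
  by_cases hu : u = 0
  · subst hu
    have h1 : psi 0 = 1 := by
      unfold psi
      rw [dslope_same]
      have h2 : HasDerivAt (fun u : ℂ => 1 - Complex.exp (-u)) (-(Complex.exp (-0) * (-1))) 0 :=
        ((hasDerivAt_neg (0 : ℂ)).cexp).const_sub 1
      rw [h2.deriv]
      simp
    rw [map_zero, h1, map_one]
  · have hu' : (starRingEnd ℂ) u ≠ 0 := by
      intro h
      apply hu
      have := congrArg (starRingEnd ℂ) h
      simpa using this
    have h1 := psi_mul ((starRingEnd ℂ) u)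
    have h2 := congrArg (starRingEnd ℂ) (psi_mul u)
    rw [map_mul, map_sub, map_one, ← Complex.exp_conj, map_neg] at h2
    exact mul_left_cancel₀ hu' (h1.trans h2.symm)

theorem hh_differentiable : Differentiable ℂ (hh c0 α P T) := by
  unfold hh
  have h1 : Differentiable ℂ (fun w : ℂ => Gs T (1 / 2 + w)) := by unfold Gs; fun_prop
  have h2 : Differentiable ℂ (fun w : ℂ => Aa c0 α P T (1 / 2 + w)) :=
    Aa_differentiable.comp (by fun_prop : Differentiable ℂ (fun w : ℂ => 1 / 2 + w))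
  have h3 : Differentiable ℂ (fun w : ℂ => Aa c0 α P T (1 / 2 - w)) :=
    Aa_differentiable.comp (by fun_prop : Differentiable ℂ (fun w : ℂ => 1 / 2 - w))
  have h4 : Differentiable ℂ zz := by unfold zz; fun_prop
  have h5 : Differentiable ℂ (fun w : ℂ => psi (zz w ^ 4)) := psi_differentiable.comp (h4.pow 4)
  exact (h1.mul (h2.mul h3)).mul ((h4.pow 2).mul h5)

theorem hh_eq {w : ℂ} (h1 : w ≠ 1 / 2) (h2 : w ≠ -(1 / 2)) :
    hh c0 α P T w = Gs T (1 / 2 + w) * Ee w * (FF c0 α P T (1 / 2 + w) * FF c0 α P T (1 / 2 - w)) := by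
  have h3 : (1 / 2 + w : ℂ) ≠ 1 := by
    intro h
    apply h1
    linear_combination h
  have h4 : (1 / 2 - w : ℂ) ≠ 1 := by
    intro h
    apply h2
    linear_combination -h
  have h5 := psi_mul (zz w ^ 4)
  unfold hh Ee
  rw [Aa_eq h3, Aa_eq h4, ← h5]
  unfold zz
  ring

theorem hh_half : hh c0 α P T (1 / 2) = 0 := by
  unfold hh
  have h1 : zz (1 / 2) = 0 := by unfold zz; ring
  rw [h1]
  ring

theorem hh_symm (w : ℂ) : hh c0 α P T (-(starRingEnd ℂ) w) = (starRingEnd ℂ) (hh c0 α P T w) := by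
  have h1 : Gs T (1 / 2 + -(starRingEnd ℂ) w) = (starRingEnd ℂ) (Gs T (1 / 2 + w)) := by
    unfold Gs
    rw [← Complex.exp_conj]
    congr 1
    simp only [map_div₀, map_mul, map_pow, map_sub, map_add, Complex.conj_ofReal, Complex.conj_I, map_one, map_ofNat]
    ring
  have h2 : (1 / 2 + -(starRingEnd ℂ) w) = (starRingEnd ℂ) (1 / 2 - w) := by
    simp only [map_div₀, map_sub, map_one, map_ofNat]
    ring
  have h3 : (1 / 2 - -(starRingEnd ℂ) w) = (starRingEnd ℂ) (1 / 2 + w) := by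
    simp only [map_div₀, map_add, map_one, map_ofNat]
    ring
  have h4 : zz (-(starRingEnd ℂ) w) = (starRingEnd ℂ) (zz w) := by
    unfold zz
    simp only [map_div₀, map_sub, map_one, map_ofNat, map_pow]
    ring
  have h5 : Aa c0 α P T (1 / 2 + -(starRingEnd ℂ) w) = (starRingEnd ℂ) (Aa c0 α P T (1 / 2 - w)) := by
    rw [h2, Aa_conj]
  have h6 : Aa c0 α P T (1 / 2 - -(starRingEnd ℂ) w) = (starRingEnd ℂ) (Aa c0 α P T (1 / 2 + w)) := by
    rw [h3, Aa_conj]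
  unfold hh
  rw [h1, h5, h6, h4, ← map_pow, ← map_pow, psi_conj]
  simp only [map_mul]
  ring

theorem hh_line (t : ℝ) : hh c0 α P T (t * I) =
    ((Pool.Agent.H26.SZ.Gw T t * (1 - Real.exp (-((t ^ 2 + 1 / 4) ^ 4))) * ‖FF c0 α P T (1 / 2 + t * I)‖ ^ 2 : ℝ) : ℂ) := by
  have h1 : ((t : ℂ) * I) ≠ 1 / 2 := by
    intro h
    have := congrArg Complex.re h
    norm_num at this
  have h2 : ((t : ℂ) * I) ≠ -(1 / 2) := by
    intro h
    have := congrArg Complex.re h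
    norm_num at this
  have h3 : (1 / 2 + (t : ℂ) * I) ≠ 1 := by
    intro h
    have := congrArg Complex.re h
    norm_num at this
  have h4 : Gs T (1 / 2 + t * I) = ((Pool.Agent.H26.SZ.Gw T t : ℝ) : ℂ) := by
    unfold Gs Pool.Agent.H26.SZ.Gw
    rw [Complex.ofReal_exp]
    congr 1
    push_cast
    linear_combination (((t : ℂ) - T) ^ 2 * (Real.log T : ℂ) / (T : ℂ) ^ 2) * Complex.I_sq
  have h5 : Ee (t * I) = ((1 - Real.exp (-((t ^ 2 + 1 / 4) ^ 4)) : ℝ) : ℂ) := by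
    unfold Ee zz
    push_cast
    congr 2
    have h6 : ((t : ℂ) * I) ^ 2 = -(t : ℂ) ^ 2 := by rw [mul_pow, Complex.I_sq]; ring
    rw [h6]
    ring
  have h6 : (1 / 2 - (t : ℂ) * I) = (starRingEnd ℂ) (1 / 2 + t * I) := by
    simp only [map_div₀, map_add, map_mul, map_one, map_ofNat, Complex.conj_ofReal, Complex.conj_I]
    ring
  rw [hh_eq h1 h2, h4, h5, h6, FF_conj h3, Complex.mul_conj, Complex.normSq_eq_norm_sq]
  push_cast
  ring

theorem Ee_bd : ∃ C : ℝ, 0 ≤ C ∧ ∀ w : ℂ, |w.re| ≤ 1 → ‖Complex.exp (-(zz w ^ 4))‖ ≤ C * Real.exp (-(w.im ^ 4)) := by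
  refine ⟨Real.exp 140000, (Real.exp_pos _).le, fun w hw => ?_⟩
  rw [Complex.norm_exp, ← Real.exp_add]
  apply Real.exp_le_exp.mpr
  set x := w.re with hx
  set t := w.im with ht
  have h1 : (-(zz w ^ 4)).re = -((x ^ 2 - t ^ 2 - 1 / 4) ^ 4 - 6 * (x ^ 2 - t ^ 2 - 1 / 4) ^ 2 * (2 * x * t) ^ 2 + (2 * x * t) ^ 4) := by
    have h2 : zz w = ((x ^ 2 - t ^ 2 - 1 / 4 : ℝ) : ℂ) + ((2 * x * t : ℝ) : ℂ) * I := by
      have h3 : w = (x : ℂ) + (t : ℂ) * I := (Complex.re_add_im w).symm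
      unfold zz
      rw [h3]
      push_cast
      linear_combination ((t : ℂ) ^ 2) * Complex.I_sq
    have h4 : zz w ^ 4 = (((x ^ 2 - t ^ 2 - 1 / 4) ^ 4 - 6 * (x ^ 2 - t ^ 2 - 1 / 4) ^ 2 * (2 * x * t) ^ 2 + (2 * x * t) ^ 4 : ℝ) : ℂ) +
        ((4 * (x ^ 2 - t ^ 2 - 1 / 4) ^ 3 * (2 * x * t) - 4 * (x ^ 2 - t ^ 2 - 1 / 4) * (2 * x * t) ^ 3 : ℝ) : ℂ) * I := by
      rw [h2]
      generalize x ^ 2 - t ^ 2 - 1 / 4 = p
      generalize 2 * x * t = q
      push_cast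
      linear_combination (6 * (p : ℂ) ^ 2 * (q : ℂ) ^ 2 + 4 * (p : ℂ) * (q : ℂ) ^ 3 * I + (q : ℂ) ^ 4 * (I ^ 2 - 1)) * Complex.I_sq
    rw [h4, Complex.neg_re, Complex.add_re, Complex.ofReal_re, Complex.re_ofReal_mul, Complex.I_re, mul_zero, add_zero]
  rw [h1]
  have hx2 : x ^ 2 ≤ 1 := by
    have := (sq_le_one_iff_abs_le_one x).mpr hw
    exact this
  have hx0 : 0 ≤ x ^ 2 := sq_nonneg x
  have hu0 : 0 ≤ t ^ 2 := sq_nonneg t
  have hq : (2 * x * t) ^ 2 ≤ 4 * t ^ 2 := by nlinarith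
  have hq0 : 0 ≤ (2 * x * t) ^ 4 := by positivity
  have h5 : (x ^ 2 - t ^ 2 - 1 / 4) ^ 4 = ((x ^ 2 - t ^ 2 - 1 / 4) ^ 2) ^ 2 := by ring
  have h6 : t ^ 4 = (t ^ 2) ^ 2 := by ring
  rw [h5, h6]
  have hP0 : 0 ≤ (x ^ 2 - t ^ 2 - 1 / 4) ^ 2 := sq_nonneg _
  have hPQ : 6 * (x ^ 2 - t ^ 2 - 1 / 4) ^ 2 * (2 * x * t) ^ 2 ≤ 24 * (x ^ 2 - t ^ 2 - 1 / 4) ^ 2 * t ^ 2 := by nlinarith
  by_cases hu : t ^ 2 ≤ 30
  · nlinarith [sq_nonneg ((x ^ 2 - t ^ 2 - 1 / 4) ^ 2 - 12 * t ^ 2)]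
  · push Not at hu
    have hP : (t ^ 2 - 3 / 4) ^ 2 ≤ (x ^ 2 - t ^ 2 - 1 / 4) ^ 2 := by nlinarith
    have hP1 : (t ^ 2) ^ 2 / 2 ≤ (x ^ 2 - t ^ 2 - 1 / 4) ^ 2 := by nlinarith
    have hP2 : 24 * t ^ 2 + 2 ≤ (x ^ 2 - t ^ 2 - 1 / 4) ^ 2 := by nlinarith
    nlinarith [mul_nonneg (sub_nonneg.mpr hP2) hP0]

end Pool.Agent.H53.SZC
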