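import Mathlib
import Pool.Agent.H53.SZC.Hf
import Pool.Agent.H53.SZC.Gz

/-!
# MP_103a5c_SZ, block C, row Rt (about 230 lines): bounds for `F` and `ζ'/ζ`, uniform in `T`

`L = log T`, `a = aT T = 1 + 1/L`.  `Adm θ P`: `P` is `C^∞` with compact support (so `|P| ≤ C_P`: `HasCompactSupport.exists_bound_of_continuous`) and `P v = 0` for `v ≥ θ`.

## Proofs
* `zeta_real`: `∑' n^(-σ) ≤ C / (σ - 1)` for `1 < σ ≤ 2`: here `∑' n : ℕ, 1/(n : ℝ)^σ = ζ(σ)` (`zeta_eq_tsum_one_div_nat_cpow`, or `zeta_nat_eq...`), `ζ(σ) = Z(σ)/(σ - 1)` (`Z_of_ne`) and `Z` is bounded on the compact segment `[1, 2]` (or `Z_poly`).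
  (Any other proof is fine, e.g. comparison with an integral.)
* `log_le`: `log n ≤ 2 L n^(1/(2L))` for `n ≥ 1`, `L > 0` (`log x ≤ x`, applied to `x = n^(1/(2L))`).
* `lam_sum`: hence `∑ Λ(n) n^(-a) ≤ ∑ log n n^(-a) ≤ 2L ζ(1 + 1/(2L)) ≤ 2L * 2L * C` (`ArithmeticFunction.vonMangoldt_le_log`).
* `ld_right`: `ArithmeticFunction.LSeries_vonMangoldt_eq_deriv_riemannZeta_div : L(Λ, s) = -ζ'(s)/ζ(s)` for `Re s > 1`; `‖(n : ℂ)^s‖ = n^a`.
* `FF_right`: `s = a + it`.  `|y0(n)| ≤ |c0| + C_α` for `1 ≤ n ≤ T` (`Λ(n) ≤ log n ≤ L`), `|x(n)| ≤ C_P` (`|μ| ≤ 1`); `‖dpol T a s‖ ≤ A ∑_n n^(-a) ≤ A C L`; `‖ζ(s)‖ ≤ ∑ n^(-a) ≤ C L`, `‖ζ'(s)‖ = ‖ζ'/ζ(s)‖ ‖ζ(s)‖ ≤ C L³`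
  (`ζ(s) ≠ 0`, `riemannZeta_ne_zero_of_one_le_re`), so `‖F(s)‖ ≤ C L + C L³ C L / L ≤ C L⁴` (`L ≥ 1`).
* `FF_left`: `s' = 1 - (a + it)`, `Re s' = -1/L ≥ -1`, `Im s' = -t`; `‖(n : ℂ)^(-s')‖ = n^(1/L) ≤ T^(1/L) = e` for `1 ≤ n ≤ T`.  `y0(n) = 0` for `n ≥ 2`, `log n ≥ (1 - ε) L`, i.e. `n ≥ T^(1-ε)`; `x(n) = 0` for `log n ≥ (1/2 - ε) L`.
  So both Dirichlet polynomials are `≤ C e (T^(1-ε) + 1)` (number of `n ≥ 1` with `log n < (1-ε) L` is `≤ T^(1-ε)`).  `ζ'(s') = DZ(s')/(s' - 1)²` (`DZ_eq`), `‖s' - 1‖ = ‖a + it‖ ≥ 1`, `DZ_exp` : `‖ζ'(s')‖ ≤ C exp (3|t|)`.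
* `FF_half`: `‖dpol‖ ≤ C T` (at most `T` terms, `‖n^(-s)‖ = n^(-1/2) ≤ 1`), `‖ζ'(1/2 + it)‖ = ‖DZ‖/‖s - 1‖² ≤ 4 ‖DZ‖ ≤ C (1 + |t|)³` (`DZ_poly`, `‖s - 1‖ ≥ 1/2`), and for the second term `/L ≤ 1`.
-/

set_option autoImplicit false

open Complex MeasureTheory Filter Topology Set

namespace Pool.Agent.H53.SZC

open H82SZ Pool.Agent.H17.ZB

variable {ε : ℝ} {α P : ℝ → ℝ}

private theorem rt_bd {θ : ℝ} {Q : ℝ → ℝ} (h : Adm θ Q) : ∃ C : ℝ, 0 ≤ C ∧ ∀ v, |Q v| ≤ C := by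
  obtain ⟨C, hC⟩ := h.cpt.exists_bound_of_continuous h.smooth.continuous
  exact ⟨|C|, abs_nonneg _, fun v => (hC v).trans (le_abs_self C)⟩

private theorem rt_nrm {n : ℕ} (hn : 1 ≤ n) (s : ℂ) : ‖(n : ℂ) ^ (-s)‖ = (n : ℝ) ^ (-s.re) := by
  rw [Complex.norm_natCast_cpow_of_pos hn]; simp

private theorem rt_zeta : ∃ C : ℝ, 0 ≤ C ∧ ∀ σ : ℝ, 1 < σ → σ ≤ 2 →
    (∑' n : ℕ, 1 / (n : ℝ) ^ σ) ≤ C / (σ - 1) := by
  obtain ⟨C, hC0, hC⟩ := Z_poly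
  refine ⟨C, hC0, fun σ h1 h2 => ?_⟩
  have hz := zeta_eq_tsum_one_div_nat_cpow (s := (σ : ℂ)) (by simpa using h1)
  have hc : (∑' n : ℕ, 1 / (n : ℂ) ^ (σ : ℂ)) = ((∑' n : ℕ, 1 / (n : ℝ) ^ σ : ℝ) : ℂ) := by
    rw [Complex.ofReal_tsum]
    refine tsum_congr fun n => ?_
    push_cast
    rw [Complex.ofReal_cpow (Nat.cast_nonneg n)]
    simp
  have hne : (σ : ℂ) ≠ 1 := by
    intro h
    have : σ = 1 := by exact_mod_cast h
    linarith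
  have hZ := hC (σ : ℂ) (by simp; linarith) (by simp; linarith)
  rw [Z_of_ne hne, hz, hc, norm_mul] at hZ
  have h3 : ‖(σ : ℂ) - 1‖ = σ - 1 := by
    rw [show (σ : ℂ) - 1 = ((σ - 1 : ℝ) : ℂ) by push_cast; ring, Complex.norm_real, Real.norm_eq_abs,
      abs_of_pos (by linarith)]
  rw [h3, Complex.norm_real] at hZ
  simp only [Complex.ofReal_im, abs_zero, add_zero, one_pow, mul_one] at hZ
  rw [le_div_iff₀ (by linarith)]
  have h4 := Real.le_norm_self (∑' n : ℕ, 1 / (n : ℝ) ^ σ)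
  calc (∑' n : ℕ, 1 / (n : ℝ) ^ σ) * (σ - 1) ≤ ‖∑' n : ℕ, 1 / (n : ℝ) ^ σ‖ * (σ - 1) :=
        mul_le_mul_of_nonneg_right h4 (by linarith)
    _ = (σ - 1) * ‖∑' n : ℕ, 1 / (n : ℝ) ^ σ‖ := mul_comm _ _
    _ ≤ C := hZ

private theorem rt_re (T t : ℝ) : ((aT T : ℂ) + t * I).re = aT T := by simp

private theorem rt_log {T : ℝ} (hT : Real.exp 1 ≤ T) : 0 < T ∧ 1 ≤ T ∧ 1 ≤ Real.log T := by
  have h0 : 0 < T := lt_of_lt_of_le (Real.exp_pos 1) hT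
  refine ⟨h0, ?_, ?_⟩
  · have : (1 : ℝ) ≤ Real.exp 1 := Real.one_le_exp (by norm_num)
    linarith
  · rw [Real.le_log_iff_exp_le h0]; exact hT

private theorem rt_ar {T : ℝ} (hL : 1 ≤ Real.log T) : 1 < aT T ∧ aT T ≤ 2 := by
  unfold aT
  have h1 : 0 < 1 / Real.log T := by positivity
  have h2 : 1 / Real.log T ≤ 1 := by rw [div_le_one (by linarith)]; exact hL
  constructor <;> linarith

private theorem rt_lam {L : ℝ} (hL : 1 ≤ L) {n : ℕ} (hn : n ≠ 0) :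
    ArithmeticFunction.vonMangoldt n / (n : ℝ) ^ (1 + 1 / L) ≤ 2 * L * (1 / (n : ℝ) ^ (1 + 1 / (2 * L))) := by
  have hn0 : (0 : ℝ) < n := by exact_mod_cast Nat.pos_of_ne_zero hn
  have h1 : ArithmeticFunction.vonMangoldt n ≤ 2 * L * (n : ℝ) ^ (1 / (2 * L)) := by
    have h2 := Real.log_le_rpow_div (x := (n : ℝ)) hn0.le (ε := 1 / (2 * L)) (by positivity)
    calc ArithmeticFunction.vonMangoldt n ≤ Real.log n := ArithmeticFunction.vonMangoldt_le_log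
      _ ≤ _ := h2
      _ = _ := by field_simp
  have h3 : (n : ℝ) ^ (1 + 1 / L) = (n : ℝ) ^ (1 / (2 * L)) * (n : ℝ) ^ (1 + 1 / (2 * L)) := by
    rw [← Real.rpow_add hn0]
    congr 1
    field_simp
    ring
  have hp1 : 0 < (n : ℝ) ^ (1 / (2 * L)) := Real.rpow_pos_of_pos hn0 _
  have hp2 : 0 < (n : ℝ) ^ (1 + 1 / (2 * L)) := Real.rpow_pos_of_pos hn0 _
  rw [h3, div_le_iff₀ (by positivity)]
  calc ArithmeticFunction.vonMangoldt n ≤ 2 * L * (n : ℝ) ^ (1 / (2 * L)) := h1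
    _ = 2 * L * (1 / (n : ℝ) ^ (1 + 1 / (2 * L))) * ((n : ℝ) ^ (1 / (2 * L)) * (n : ℝ) ^ (1 + 1 / (2 * L))) := by
        field_simp

private theorem rt_ld {C : ℝ} (hC : ∀ σ : ℝ, 1 < σ → σ ≤ 2 → (∑' n : ℕ, 1 / (n : ℝ) ^ σ) ≤ C / (σ - 1))
    {T : ℝ} (hL : 1 ≤ Real.log T) (t : ℝ) :
    ‖logDeriv riemannZeta (aT T + t * I)‖ ≤ 4 * C * Real.log T ^ 2 := by
  have har := rt_ar hL
  set L := Real.log T with hLdef
  have hs : 1 < ((aT T : ℂ) + t * I).re := by rw [rt_re]; exact har.1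
  have h1 := ArithmeticFunction.LSeries_vonMangoldt_eq_deriv_riemannZeta_div hs
  have h2 : logDeriv riemannZeta (aT T + t * I) = -(LSeries (fun n => ((ArithmeticFunction.vonMangoldt n : ℝ) : ℂ)) (aT T + t * I)) := by
    rw [h1, logDeriv_apply]; ring
  rw [h2, norm_neg]
  have hsig : 1 < 1 + 1 / (2 * L) := by
    have : 0 < 1 / (2 * L) := by positivity
    linarith
  have hsig2 : 1 + 1 / (2 * L) ≤ 2 := by
    have : 1 / (2 * L) ≤ 1 := by rw [div_le_one (by linarith)]; linarith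
    linarith
  have hsum : Summable (fun n : ℕ => 1 / (n : ℝ) ^ (1 + 1 / (2 * L))) :=
    Real.summable_one_div_nat_rpow.mpr hsig
  have hb : ‖LSeries (fun n => ((ArithmeticFunction.vonMangoldt n : ℝ) : ℂ)) (aT T + t * I)‖ ≤
      2 * L * (∑' n : ℕ, 1 / (n : ℝ) ^ (1 + 1 / (2 * L))) := by
    refine tsum_of_norm_bounded (hsum.hasSum.mul_left (2 * L)) fun n => ?_
    rw [LSeries.norm_term_eq]
    split_ifs with hn
    · positivity
    · rw [rt_re, Complex.norm_real, Real.norm_eq_abs, abs_of_nonneg ArithmeticFunction.vonMangoldt_nonneg]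
      exact rt_lam hL hn
  refine hb.trans ?_
  have h3 := hC _ hsig hsig2
  calc 2 * L * (∑' n : ℕ, 1 / (n : ℝ) ^ (1 + 1 / (2 * L)))
      ≤ 2 * L * (C / (1 + 1 / (2 * L) - 1)) := mul_le_mul_of_nonneg_left h3 (by linarith)
    _ = 4 * C * L ^ 2 := by
        have hL0 : L ≠ 0 := by linarith
        rw [add_sub_cancel_left]
        field_simp
        ring

private theorem rt_zr {C : ℝ} (hC : ∀ σ : ℝ, 1 < σ → σ ≤ 2 → (∑' n : ℕ, 1 / (n : ℝ) ^ σ) ≤ C / (σ - 1))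
    {T : ℝ} (hL : 1 ≤ Real.log T) (t : ℝ) :
    ‖riemannZeta (aT T + t * I)‖ ≤ C * Real.log T := by
  have har := rt_ar hL
  have hs : 1 < ((aT T : ℂ) + t * I).re := by rw [rt_re]; exact har.1
  rw [zeta_eq_tsum_one_div_nat_cpow hs]
  have hsum : Summable (fun n : ℕ => 1 / (n : ℝ) ^ (aT T)) := Real.summable_one_div_nat_rpow.mpr har.1
  have hb : ‖∑' n : ℕ, 1 / (n : ℂ) ^ ((aT T : ℂ) + t * I)‖ ≤ (∑' n : ℕ, 1 / (n : ℝ) ^ (aT T)) := by
    refine tsum_of_norm_bounded hsum.hasSum fun n => ?_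
    rcases Nat.eq_zero_or_pos n with hn | hn
    · subst hn
      have h0 : ((aT T : ℂ) + t * I) ≠ 0 := by
        intro h
        rw [h] at hs
        simp at hs
        linarith
      simp [Complex.zero_cpow h0]
      positivity
    · rw [norm_div, norm_one, Complex.norm_natCast_cpow_of_pos hn, rt_re]
  refine hb.trans ((hC _ har.1 har.2).trans (le_of_eq ?_))
  unfold aT
  rw [add_sub_cancel_left]
  field_simp

private theorem rt_dz {C : ℝ} (hC0 : 0 ≤ C) (hC : ∀ σ : ℝ, 1 < σ → σ ≤ 2 → (∑' n : ℕ, 1 / (n : ℝ) ^ σ) ≤ C / (σ - 1))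
    {T : ℝ} (hL : 1 ≤ Real.log T) (t : ℝ) :
    ‖deriv riemannZeta (aT T + t * I)‖ ≤ 4 * C ^ 2 * Real.log T ^ 3 := by
  have har := rt_ar hL
  have hs : 1 < ((aT T : ℂ) + t * I).re := by rw [rt_re]; exact har.1
  have h0 : riemannZeta (aT T + t * I) ≠ 0 := riemannZeta_ne_zero_of_one_le_re hs.le
  have h1 : deriv riemannZeta (aT T + t * I) = logDeriv riemannZeta (aT T + t * I) * riemannZeta (aT T + t * I) := by
    rw [logDeriv_apply]; field_simp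
  rw [h1, norm_mul]
  have h2 := rt_ld hC hL t
  have h3 := rt_zr hC hL t
  calc _ ≤ (4 * C * Real.log T ^ 2) * (C * Real.log T) := mul_le_mul h2 h3 (norm_nonneg _) (by positivity)
    _ = _ := by ring

/-- bound of the Dirichlet polynomial by the number of terms -/
private theorem rt_dpol {T : ℝ} (a : ArithmeticFunction ℝ) (s : ℂ) {A B M : ℝ} (hA : 0 ≤ A) (hB : 0 ≤ B) (hM : 0 ≤ M)
    (ha : ∀ n ∈ Finset.Icc 1 (NT T), |a n| ≤ A) (hb : ∀ n ∈ Finset.Icc 1 (NT T), ‖(n : ℂ) ^ (-s)‖ ≤ B)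
    (hz : ∀ n ∈ Finset.Icc 1 (NT T), a n = 0 ∨ (n : ℝ) ≤ M) : ‖dpol T a s‖ ≤ A * B * M := by
  unfold dpol
  have h1 : ∀ n ∈ Finset.Icc 1 (NT T), ‖(a n : ℂ) * (n : ℂ) ^ (-s)‖ ≤ if (n : ℝ) ≤ M then A * B else 0 := by
    intro n hn
    rw [norm_mul, Complex.norm_real, Real.norm_eq_abs]
    split_ifs with h
    · exact mul_le_mul (ha n hn) (hb n hn) (norm_nonneg _) hA
    · rcases hz n hn with h0 | h0
      · rw [h0]; simp
      · exact absurd h0 h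
  refine (norm_sum_le _ _).trans ((Finset.sum_le_sum h1).trans ?_)
  rw [← Finset.sum_filter, Finset.sum_const, nsmul_eq_mul]
  have h2 : (Finset.filter (fun n : ℕ => (n : ℝ) ≤ M) (Finset.Icc 1 (NT T))) ⊆ Finset.Icc 1 ⌊M⌋₊ := by
    intro n hn
    rw [Finset.mem_filter, Finset.mem_Icc] at hn
    rw [Finset.mem_Icc]
    exact ⟨hn.1.1, Nat.le_floor hn.2⟩
  have h3 := Finset.card_le_card h2
  rw [Nat.card_Icc, Nat.add_sub_cancel] at h3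
  have h4 : ((Finset.card (Finset.filter (fun n : ℕ => (n : ℝ) ≤ M) (Finset.Icc 1 (NT T))) : ℕ) : ℝ) ≤ M :=
    (Nat.cast_le.mpr h3).trans (Nat.floor_le hM)
  calc _ ≤ M * (A * B) := mul_le_mul_of_nonneg_right h4 (by positivity)
    _ = _ := by ring

/-- bound of the Dirichlet polynomial on `Re s = aT T` -/
private theorem rt_dpolr {C : ℝ} (hC : ∀ σ : ℝ, 1 < σ → σ ≤ 2 → (∑' n : ℕ, 1 / (n : ℝ) ^ σ) ≤ C / (σ - 1))
    {T : ℝ} (hL : 1 ≤ Real.log T) (t : ℝ) (a : ArithmeticFunction ℝ) {A : ℝ} (hA : 0 ≤ A)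
    (ha : ∀ n ∈ Finset.Icc 1 (NT T), |a n| ≤ A) : ‖dpol T a (aT T + t * I)‖ ≤ A * (C * Real.log T) := by
  have har := rt_ar hL
  unfold dpol
  have h1 : ∀ n ∈ Finset.Icc 1 (NT T), ‖(a n : ℂ) * (n : ℂ) ^ (-((aT T : ℂ) + t * I))‖ ≤ A * (1 / (n : ℝ) ^ (aT T)) := by
    intro n hn
    have hn1 := (Finset.mem_Icc.mp hn).1
    rw [norm_mul, Complex.norm_real, Real.norm_eq_abs, rt_nrm hn1, rt_re, Real.rpow_neg (Nat.cast_nonneg n), one_div]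
    exact mul_le_mul_of_nonneg_right (ha n hn) (by positivity)
  refine (norm_sum_le _ _).trans ((Finset.sum_le_sum h1).trans ?_)
  rw [← Finset.mul_sum]
  refine mul_le_mul_of_nonneg_left ?_ hA
  have hsum : Summable (fun n : ℕ => 1 / (n : ℝ) ^ (aT T)) := Real.summable_one_div_nat_rpow.mpr har.1
  have h2 : ∑ n ∈ Finset.Icc 1 (NT T), 1 / (n : ℝ) ^ (aT T) ≤ ∑' n : ℕ, 1 / (n : ℝ) ^ (aT T) :=
    hsum.sum_le_tsum _ (fun n _ => by positivity)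
  refine h2.trans ((hC _ har.1 har.2).trans (le_of_eq ?_))
  unfold aT
  rw [add_sub_cancel_left]
  field_simp

private theorem rt_nT {T : ℝ} (hT : 0 < T) {n : ℕ} (hn : n ∈ Finset.Icc 1 (NT T)) :
    (1 : ℝ) ≤ n ∧ (n : ℝ) ≤ T := by
  rw [Finset.mem_Icc] at hn
  exact ⟨by exact_mod_cast hn.1, (Nat.cast_le.mpr hn.2).trans (Nat.floor_le hT.le)⟩

private theorem rt_y0 (c0 : ℝ) {Ca : ℝ} (hCa0 : 0 ≤ Ca) (hCa : ∀ v, |α v| ≤ Ca) {T : ℝ} (hT : 0 < T)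
    (hL : 1 ≤ Real.log T) : ∀ n ∈ Finset.Icc 1 (NT T), |y0 c0 α T n| ≤ |c0| + Ca := by
  intro n hn
  obtain ⟨hn1, hnT⟩ := rt_nT hT hn
  have hL0 : 0 < Real.log T := by linarith
  have h1 : y0 c0 α T n = c0 * (1 : ArithmeticFunction ℝ) n +
      ArithmeticFunction.vonMangoldt n * α (Real.log n / Real.log T) / Real.log T := rfl
  rw [h1]
  refine (abs_add_le _ _).trans (add_le_add ?_ ?_)
  · rw [abs_mul, ArithmeticFunction.one_apply]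
    split_ifs
    · simp
    · simp
  · rw [abs_div, abs_mul, abs_of_nonneg ArithmeticFunction.vonMangoldt_nonneg, abs_of_pos hL0, div_le_iff₀ hL0, mul_comm]
    refine mul_le_mul (hCa _) ?_ ArithmeticFunction.vonMangoldt_nonneg hCa0
    exact ArithmeticFunction.vonMangoldt_le_log.trans (Real.log_le_log (by linarith) hnT)

private theorem rt_xk {Cp : ℝ} (_hCp0 : 0 ≤ Cp) (hCp : ∀ v, |P v| ≤ Cp) (T : ℝ) :
    ∀ n ∈ Finset.Icc 1 (NT T), |xk P T n| ≤ Cp := by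
  intro n _
  have h1 : xk P T n = (ArithmeticFunction.moebius n : ℝ) * P (Real.log n / Real.log T) := rfl
  rw [h1, abs_mul]
  have h2 : |(ArithmeticFunction.moebius n : ℝ)| ≤ 1 := by
    have := ArithmeticFunction.abs_moebius_le_one (n := n)
    rw [← Int.cast_abs]
    exact_mod_cast this
  calc _ ≤ 1 * Cp := mul_le_mul h2 (hCp _) (abs_nonneg _) zero_le_one
    _ = Cp := one_mul _

private theorem rt_supp {θ T : ℝ} {n : ℕ} (hn : (1 : ℝ) ≤ n) (hT : 0 < T) (hL : 1 ≤ Real.log T) :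
    θ ≤ Real.log n / Real.log T ∨ (n : ℝ) ≤ T ^ θ := by
  have hL0 : 0 < Real.log T := by linarith
  rcases le_or_gt θ (Real.log n / Real.log T) with h | h
  · exact Or.inl h
  · right
    rw [div_lt_iff₀ hL0] at h
    rw [Real.rpow_def_of_pos hT, ← Real.log_le_iff_le_exp (by linarith)]
    linarith

private theorem rt_tri (c0 : ℝ) {s : ℂ} {T : ℝ} (hL : 1 ≤ Real.log T) {A B D : ℝ}
    (h1 : ‖dpol T (y0 c0 α T) s‖ ≤ A) (h2 : ‖deriv riemannZeta s‖ ≤ D) (h3 : ‖dpol T (xk P T) s‖ ≤ B) (hD : 0 ≤ D) :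
    ‖FF c0 α P T s‖ ≤ A + D * B / Real.log T := by
  unfold FF
  refine (norm_sub_le _ _).trans (add_le_add h1 ?_)
  rw [norm_div, norm_mul, Complex.norm_real, Real.norm_eq_abs, abs_of_pos (by linarith : 0 < Real.log T)]
  exact div_le_div_of_nonneg_right (mul_le_mul h2 h3 (norm_nonneg _) hD) (by linarith)

theorem ld_right : ∃ C T0 : ℝ, 0 ≤ C ∧ ∀ T, T0 ≤ T → ∀ t : ℝ,
    ‖logDeriv riemannZeta (aT T + t * I)‖ ≤ C * Real.log T ^ 2 := by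
  obtain ⟨C, hC0, hC⟩ := rt_zeta
  refine ⟨4 * C, Real.exp 1, by positivity, fun T hT t => ?_⟩
  exact rt_ld hC (rt_log hT).2.2 t

theorem FF_right (c0 : ℝ) (hε : 0 < ε) (hε2 : ε < 1 / 2) (hα : Adm (1 - ε) α) (hP : Adm (1 / 2 - ε) P) :
    ∃ C T0 : ℝ, 0 ≤ C ∧ ∀ T, T0 ≤ T → ∀ t : ℝ, ‖FF c0 α P T (aT T + t * I)‖ ≤ C * Real.log T ^ 4 := by
  obtain ⟨C, hC0, hC⟩ := rt_zeta
  obtain ⟨Ca, hCa0, hCa⟩ := rt_bd hα
  obtain ⟨Cp, hCp0, hCp⟩ := rt_bd hP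
  refine ⟨(|c0| + Ca) * C + 4 * C ^ 2 * (Cp * C), Real.exp 1, by positivity, fun T hT t => ?_⟩
  obtain ⟨hT0, hT1, hL⟩ := rt_log hT
  have h1 := rt_dpolr hC hL t (y0 c0 α T) (A := |c0| + Ca) (by positivity) (rt_y0 c0 hCa0 hCa hT0 hL)
  have h3 := rt_dpolr hC hL t (xk P T) (A := Cp) hCp0 (rt_xk hCp0 hCp T)
  have h2 := rt_dz hC0 hC hL t
  refine (rt_tri c0 hL h1 h2 h3 (by positivity)).trans ?_
  have hL0 : Real.log T ≠ 0 := by linarith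
  have h4 : Real.log T ≤ Real.log T ^ 4 := by
    calc Real.log T = Real.log T ^ 1 := (pow_one _).symm
      _ ≤ Real.log T ^ 4 := pow_le_pow_right₀ hL (by norm_num)
  have h5 : 4 * C ^ 2 * Real.log T ^ 3 * (Cp * (C * Real.log T)) / Real.log T ≤ 4 * C ^ 2 * (Cp * C) * Real.log T ^ 4 := by
    have h6 : 4 * C ^ 2 * Real.log T ^ 3 * (Cp * (C * Real.log T)) / Real.log T = 4 * C ^ 2 * (Cp * C) * Real.log T ^ 3 := by
      field_simp
    rw [h6]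
    exact mul_le_mul_of_nonneg_left (pow_le_pow_right₀ hL (by norm_num)) (by positivity)
  have h7 : (|c0| + Ca) * (C * Real.log T) ≤ (|c0| + Ca) * C * Real.log T ^ 4 := by
    rw [← mul_assoc]
    exact mul_le_mul_of_nonneg_left h4 (by positivity)
  exact (add_le_add h7 h5).trans (le_of_eq (by ring))

theorem FF_left (c0 : ℝ) (hε : 0 < ε) (hε2 : ε < 1 / 2) (hα : Adm (1 - ε) α) (hP : Adm (1 / 2 - ε) P) :
    ∃ C T0 : ℝ, 0 ≤ C ∧ ∀ T, T0 ≤ T → ∀ t : ℝ,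
      ‖FF c0 α P T (1 - (aT T + t * I))‖ ≤ C * T ^ (1 - ε) * Real.exp (3 * |t|) := by
  obtain ⟨Cd, hCd0, hCd⟩ := DZ_exp
  obtain ⟨Ca, hCa0, hCa⟩ := rt_bd hα
  obtain ⟨Cp, hCp0, hCp⟩ := rt_bd hP
  refine ⟨(|c0| + Ca) * Real.exp 1 + Cd * (Cp * Real.exp 1), Real.exp 1, by positivity, fun T hT t => ?_⟩
  obtain ⟨hT0, hT1, hL⟩ := rt_log hT
  have hL0 : 0 < Real.log T := by linarith
  have hre : (1 - ((aT T : ℂ) + t * I)).re = -(1 / Real.log T) := by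
    rw [Complex.sub_re, rt_re]; simp [aT]
  have him : (1 - ((aT T : ℂ) + t * I)).im = -t := by simp
  have hM1 : (1 : ℝ) ≤ T ^ (1 - ε) := Real.one_le_rpow hT1 (by linarith)
  have hb : ∀ n ∈ Finset.Icc 1 (NT T), ‖(n : ℂ) ^ (-(1 - ((aT T : ℂ) + t * I)))‖ ≤ Real.exp 1 := by
    intro n hn
    obtain ⟨hn1, hnT⟩ := rt_nT hT0 hn
    rw [rt_nrm (Finset.mem_Icc.mp hn).1, hre, neg_neg]
    calc (n : ℝ) ^ (1 / Real.log T) ≤ T ^ (1 / Real.log T) :=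
          Real.rpow_le_rpow (by linarith) hnT (by positivity)
      _ = Real.exp 1 := by
          rw [Real.rpow_def_of_pos hT0]
          congr 1
          field_simp
  have h1 : ‖dpol T (y0 c0 α T) (1 - ((aT T : ℂ) + t * I))‖ ≤ (|c0| + Ca) * Real.exp 1 * T ^ (1 - ε) := by
    refine rt_dpol _ _ (by positivity) (Real.exp_pos 1).le (by linarith) (rt_y0 c0 hCa0 hCa hT0 hL) hb ?_
    intro n hn
    obtain ⟨hn1, hnT⟩ := rt_nT hT0 hn
    have hy : y0 c0 α T n = c0 * (1 : ArithmeticFunction ℝ) n +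
      ArithmeticFunction.vonMangoldt n * α (Real.log n / Real.log T) / Real.log T := rfl
    by_cases hn2 : n = 1
    · right; subst hn2; simpa using hM1
    · rcases rt_supp (θ := 1 - ε) hn1 hT0 hL with h | h
      · left
        rw [hy, hα.zero _ h, ArithmeticFunction.one_apply, if_neg hn2]
        simp
      · exact Or.inr h
  have h3 : ‖dpol T (xk P T) (1 - ((aT T : ℂ) + t * I))‖ ≤ Cp * Real.exp 1 * T ^ (1 - ε) := by
    refine rt_dpol _ _ hCp0 (Real.exp_pos 1).le (by linarith) (rt_xk hCp0 hCp T) hb ?_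
    intro n hn
    obtain ⟨hn1, hnT⟩ := rt_nT hT0 hn
    have hx : xk P T n = (ArithmeticFunction.moebius n : ℝ) * P (Real.log n / Real.log T) := rfl
    rcases rt_supp (θ := 1 / 2 - ε) hn1 hT0 hL with h | h
    · left
      rw [hx, hP.zero _ h, mul_zero]
    · exact Or.inr (h.trans (Real.rpow_le_rpow_of_exponent_le hT1 (by linarith)))
  have h2 : ‖deriv riemannZeta (1 - ((aT T : ℂ) + t * I))‖ ≤ Cd * Real.exp (3 * |t|) := by
    have har := rt_ar hL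
    have hne : (1 - ((aT T : ℂ) + t * I)) ≠ 1 := by
      intro h
      have := congrArg Complex.re h
      rw [hre] at this
      simp at this
      have h' : 0 < (Real.log T)⁻¹ := by positivity
      linarith
    have hd := hCd (1 - ((aT T : ℂ) + t * I)) (by
      rw [hre]
      have : 1 / Real.log T ≤ 1 := by rw [div_le_one hL0]; exact hL
      linarith) (by
      rw [hre]
      have : 0 < 1 / Real.log T := by positivity
      linarith)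
    rw [him, abs_neg, DZ_eq hne, norm_mul, norm_pow] at hd
    have h4 : 1 ≤ ‖(1 - ((aT T : ℂ) + t * I)) - 1‖ := by
      have h5 := Complex.abs_re_le_norm ((1 - ((aT T : ℂ) + t * I)) - 1)
      rw [Complex.sub_re, hre, Complex.one_re] at h5
      have h6 : 0 < 1 / Real.log T := by positivity
      rw [abs_of_neg (by linarith)] at h5
      linarith
    have h7 : 1 ≤ ‖(1 - ((aT T : ℂ) + t * I)) - 1‖ ^ 2 := one_le_pow₀ h4
    calc _ = 1 * ‖deriv riemannZeta (1 - ((aT T : ℂ) + t * I))‖ := (one_mul _).symm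
      _ ≤ _ := mul_le_mul_of_nonneg_right h7 (norm_nonneg _)
      _ ≤ _ := hd
  refine (rt_tri c0 hL h1 h2 h3 (by positivity)).trans ?_
  have hE : 1 ≤ Real.exp (3 * |t|) := Real.one_le_exp (by positivity)
  have h8 : Cd * Real.exp (3 * |t|) * (Cp * Real.exp 1 * T ^ (1 - ε)) / Real.log T ≤
      Cd * Real.exp (3 * |t|) * (Cp * Real.exp 1 * T ^ (1 - ε)) := div_le_self (by positivity) hL
  have h9 : (|c0| + Ca) * Real.exp 1 * T ^ (1 - ε) ≤ (|c0| + Ca) * Real.exp 1 * T ^ (1 - ε) * Real.exp (3 * |t|) :=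
    le_mul_of_one_le_right (by positivity) hE
  calc _ ≤ (|c0| + Ca) * Real.exp 1 * T ^ (1 - ε) * Real.exp (3 * |t|) +
        Cd * Real.exp (3 * |t|) * (Cp * Real.exp 1 * T ^ (1 - ε)) := add_le_add h9 h8
    _ = _ := by ring

theorem FF_half (c0 : ℝ) (hε : 0 < ε) (hε2 : ε < 1 / 2) (hα : Adm (1 - ε) α) (hP : Adm (1 / 2 - ε) P) :
    ∃ C T0 : ℝ, 0 ≤ C ∧ ∀ T, T0 ≤ T → ∀ t : ℝ,
      ‖FF c0 α P T (1 / 2 + t * I)‖ ≤ C * T * (1 + |t|) ^ 3 := by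
  obtain ⟨Cd, hCd0, hCd⟩ := DZ_poly
  obtain ⟨Ca, hCa0, hCa⟩ := rt_bd hα
  obtain ⟨Cp, hCp0, hCp⟩ := rt_bd hP
  refine ⟨(|c0| + Ca) + 4 * Cd * Cp, Real.exp 1, by positivity, fun T hT t => ?_⟩
  obtain ⟨hT0, hT1, hL⟩ := rt_log hT
  have hre : ((1 : ℂ) / 2 + t * I).re = 1 / 2 := by simp
  have him : ((1 : ℂ) / 2 + t * I).im = t := by simp
  have hb : ∀ n ∈ Finset.Icc 1 (NT T), ‖(n : ℂ) ^ (-((1 : ℂ) / 2 + t * I))‖ ≤ 1 := by
    intro n hn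
    obtain ⟨hn1, hnT⟩ := rt_nT hT0 hn
    rw [rt_nrm (Finset.mem_Icc.mp hn).1, hre]
    exact Real.rpow_le_one_of_one_le_of_nonpos hn1 (by norm_num)
  have h1 : ‖dpol T (y0 c0 α T) ((1 : ℂ) / 2 + t * I)‖ ≤ (|c0| + Ca) * 1 * T :=
    rt_dpol _ _ (by positivity) zero_le_one hT0.le (rt_y0 c0 hCa0 hCa hT0 hL) hb
      (fun n hn => Or.inr (rt_nT hT0 hn).2)
  have h3 : ‖dpol T (xk P T) ((1 : ℂ) / 2 + t * I)‖ ≤ Cp * 1 * T :=
    rt_dpol _ _ hCp0 zero_le_one hT0.le (rt_xk hCp0 hCp T) hb (fun n hn => Or.inr (rt_nT hT0 hn).2)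
  have h2 : ‖deriv riemannZeta ((1 : ℂ) / 2 + t * I)‖ ≤ 4 * Cd * (1 + |t|) ^ 3 := by
    have hne : ((1 : ℂ) / 2 + t * I) ≠ 1 := by
      intro h
      have := congrArg Complex.re h
      rw [hre] at this
      norm_num at this
    have hd := hCd ((1 : ℂ) / 2 + t * I) (by rw [hre]) (by rw [hre]; norm_num)
    rw [him, DZ_eq hne, norm_mul, norm_pow] at hd
    have h4 : 1 / 2 ≤ ‖((1 : ℂ) / 2 + t * I) - 1‖ := by
      have h5 := Complex.abs_re_le_norm (((1 : ℂ) / 2 + t * I) - 1)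
      rw [Complex.sub_re, hre, Complex.one_re] at h5
      norm_num at h5
      linarith
    have h7 : (1 / 4 : ℝ) ≤ ‖((1 : ℂ) / 2 + t * I) - 1‖ ^ 2 := by
      calc (1 / 4 : ℝ) = (1 / 2) ^ 2 := by norm_num
        _ ≤ _ := pow_le_pow_left₀ (by norm_num) h4 2
    have h8 := mul_le_mul_of_nonneg_right h7 (norm_nonneg (deriv riemannZeta ((1 : ℂ) / 2 + t * I)))
    have h9 := h8.trans hd
    linarith
  refine (rt_tri c0 hL h1 h2 h3 (by positivity)).trans ?_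
  have hE : 1 ≤ (1 + |t|) ^ 3 := one_le_pow₀ (by linarith [abs_nonneg t])
  have h8 : 4 * Cd * (1 + |t|) ^ 3 * (Cp * 1 * T) / Real.log T ≤ 4 * Cd * (1 + |t|) ^ 3 * (Cp * 1 * T) :=
    div_le_self (by positivity) hL
  have h9 : (|c0| + Ca) * 1 * T ≤ (|c0| + Ca) * 1 * T * (1 + |t|) ^ 3 :=
    le_mul_of_one_le_right (by positivity) hE
  calc _ ≤ (|c0| + Ca) * 1 * T * (1 + |t|) ^ 3 + 4 * Cd * (1 + |t|) ^ 3 * (Cp * 1 * T) := add_le_add h9 h8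
    _ = _ := by ring

end Pool.Agent.H53.SZC
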