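import Mathlib
import Pool.Agent.H53.SZC.Hf
import Pool.Agent.H53.SZC.Gz

/-!
# MP_103a5c_SZ, block C, row Sd (about 130 lines): decay of `hh` for fixed `T`

## Proofs (`T > 1` fixed, `L = log T > 0`; constants may depend on `T`, `c0`, `α`, `P`; `t = Im w`)
* `dpol_strip`: `‖(n : ℂ)^(-s)‖ = n^(-Re s) ≤ n^2` for `-2 ≤ Re s`, `n ≥ 1` (`Complex.norm_natCast_cpow_of_pos`), finite sum: `C = ∑ |a n| n^2`.
* `Aa_strip`: `‖(s - 1)²‖ ≤ (3 + |t|)² ≤ 9 (1+|t|)² ≤ 9 exp (2|t|)`, `dpol_strip`, `DZ_exp`: `‖Aa s‖ ≤ C exp (3 |t|)` for `-1 ≤ Re s ≤ 2`.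
* `zpsi_bd`: `‖zz w ^ 2 * psi (zz w ^ 4)‖ ≤ C` for `|Re w| ≤ 1`: if `‖zz w‖ ≥ 1`: by `psi_mul`, `zz² psi(zz⁴) = (1 - exp (-zz⁴)) / zz²`, norm `≤ 1 + ‖exp (-zz⁴)‖ ≤ 1 + C` (`Ee_bd`, `exp (-t⁴) ≤ 1`);
  if `‖zz w‖ ≤ 1`: `psi` is continuous (`psi_differentiable`), so bounded on the compact closed unit ball.
* `hh_SD`: `‖hh w‖ ≤ exp ((1 - (t - T)²) L/T²) * (C exp (3|t|))² * C' `; with `κ = L/T² > 0`: `6|t| - κ (t - T)² ≤ -|t| * 0 + ...`: use `(1 + t²)^3 ≤ C exp |t|` and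
  `7|t| - κ (t - T)² ≤ 7|T| + 7|t - T| - κ (t - T)² ≤ 7 |T| + 49/(4κ)`.  (`Gs_norm` is in `Df.lean`; for `|Re w| ≤ 1` both `1/2 + w` and `1/2 - w` have real part in `[-1/2, 3/2]`, and imaginary part `± t`.)
-/

set_option autoImplicit false

open Complex MeasureTheory Filter Topology Set

namespace Pool.Agent.H53.SZC

open H82SZ Pool.Agent.H17.ZB

variable {c0 : ℝ} {α P : ℝ → ℝ} {T : ℝ}

theorem dpol_strip (a : ArithmeticFunction ℝ) : ∃ C : ℝ, 0 ≤ C ∧ ∀ s : ℂ, -2 ≤ s.re → ‖dpol T a s‖ ≤ C := by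
  refine ⟨∑ n ∈ Finset.Icc 1 (NT T), |a n| * (n : ℝ) ^ (2 : ℝ),
    Finset.sum_nonneg fun n _ => mul_nonneg (abs_nonneg _) (Real.rpow_nonneg (Nat.cast_nonneg _) _),
    fun s hs => ?_⟩
  unfold dpol
  refine (norm_sum_le _ _).trans (Finset.sum_le_sum fun n hn => ?_)
  have hn1 : 1 ≤ n := (Finset.mem_Icc.1 hn).1
  rw [norm_mul, Complex.norm_natCast_cpow_of_pos hn1, Complex.norm_real, Real.norm_eq_abs]
  refine mul_le_mul_of_nonneg_left ?_ (abs_nonneg _)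
  refine Real.rpow_le_rpow_of_exponent_le (by exact_mod_cast hn1) ?_
  rw [Complex.neg_re]
  linarith

private theorem SZCSd_lin {t : ℝ} (ht : 0 ≤ t) : (2 + t) ^ 2 ≤ 9 * Real.exp (3 * t) := by
  have h1 : t + 1 ≤ Real.exp t := Real.add_one_le_exp t
  have h2 : 2 + t ≤ 3 * Real.exp t := by linarith
  have h3 : (2 + t) ^ 2 ≤ (3 * Real.exp t) ^ 2 := pow_le_pow_left₀ (by linarith) h2 2
  have h4 : (3 * Real.exp t) ^ 2 = 9 * Real.exp (2 * t) := by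
    rw [mul_pow, ← Real.exp_nat_mul]
    norm_num
  have h5 : Real.exp (2 * t) ≤ Real.exp (3 * t) := Real.exp_le_exp.2 (by linarith)
  rw [h4] at h3
  linarith

theorem Aa_strip : ∃ C : ℝ, 0 ≤ C ∧ ∀ s : ℂ, -1 ≤ s.re → s.re ≤ 2 →
    ‖Aa c0 α P T s‖ ≤ C * Real.exp (3 * |s.im|) := by
  obtain ⟨C1, hC1, h1⟩ := dpol_strip (T := T) (y0 c0 α T)
  obtain ⟨C2, hC2, h2⟩ := dpol_strip (T := T) (xk P T)
  obtain ⟨C3, hC3, h3⟩ := DZ_exp
  refine ⟨9 * C1 + C3 * C2 * ‖(Real.log T : ℂ)‖⁻¹, by positivity, fun s hs1 hs2 => ?_⟩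
  have hE : 0 ≤ Real.exp (3 * |s.im|) := Real.exp_nonneg _
  have hn : ‖s - 1‖ ≤ 2 + |s.im| := by
    have h4 := Complex.norm_le_abs_re_add_abs_im (s - 1)
    have h5 : (s - 1).re = s.re - 1 := by simp
    have h6 : (s - 1).im = s.im := by simp
    rw [h5, h6] at h4
    have h7 : |s.re - 1| ≤ 2 := by
      rw [abs_le]
      constructor <;> linarith
    linarith
  have e1 : ‖(s - 1) ^ 2 * dpol T (y0 c0 α T) s‖ ≤ 9 * Real.exp (3 * |s.im|) * C1 := by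
    rw [norm_mul, norm_pow]
    refine mul_le_mul ?_ (h1 s (by linarith)) (norm_nonneg _) (by positivity)
    exact (pow_le_pow_left₀ (norm_nonneg _) hn 2).trans (SZCSd_lin (abs_nonneg _))
  have e2 : ‖DZ s * dpol T (xk P T) s / (Real.log T : ℂ)‖ ≤
      C3 * Real.exp (3 * |s.im|) * C2 * ‖(Real.log T : ℂ)‖⁻¹ := by
    rw [norm_div, norm_mul, div_eq_mul_inv]
    refine mul_le_mul_of_nonneg_right ?_ (inv_nonneg.2 (norm_nonneg _))
    exact mul_le_mul (h3 s hs1 hs2) (h2 s (by linarith)) (norm_nonneg _) (by positivity)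
  unfold Aa
  refine (norm_sub_le _ _).trans ((add_le_add e1 e2).trans (le_of_eq ?_))
  ring

theorem zpsi_bd : ∃ C : ℝ, 0 ≤ C ∧ ∀ w : ℂ, |w.re| ≤ 1 → ‖zz w ^ 2 * psi (zz w ^ 4)‖ ≤ C := by
  obtain ⟨C0, hC0⟩ := (isCompact_closedBall (0 : ℂ) 1).exists_bound_of_continuousOn
    (f := psi) psi_differentiable.continuous.continuousOn
  obtain ⟨C1, hC1, h1⟩ := Ee_bd
  refine ⟨|C0| + (1 + C1), by positivity, fun w hw => ?_⟩
  rcases le_or_gt ‖zz w‖ 1 with h2 | h2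
  · have h3 : ‖zz w ^ 4‖ ≤ 1 := by
      rw [norm_pow]
      exact pow_le_one₀ (norm_nonneg _) h2
    have h4 : ‖zz w ^ 2‖ ≤ 1 := by
      rw [norm_pow]
      exact pow_le_one₀ (norm_nonneg _) h2
    have h5 := hC0 (zz w ^ 4) (by rw [mem_closedBall_zero_iff]; exact h3)
    rw [norm_mul]
    have h6 : ‖zz w ^ 2‖ * ‖psi (zz w ^ 4)‖ ≤ 1 * C0 :=
      mul_le_mul h4 h5 (norm_nonneg _) zero_le_one
    have h7 := le_abs_self C0
    linarith
  · have hz : zz w ≠ 0 := by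
      intro h0
      rw [h0, norm_zero] at h2
      linarith
    have hz2 : zz w ^ 2 ≠ 0 := pow_ne_zero _ hz
    have h3 : zz w ^ 2 * psi (zz w ^ 4) = (1 - Complex.exp (-(zz w ^ 4))) / zz w ^ 2 := by
      rw [eq_div_iff hz2, ← psi_mul]
      ring
    have h4 : 1 ≤ ‖zz w ^ 2‖ := by
      rw [norm_pow]
      exact one_le_pow₀ h2.le
    have h5 : ‖1 - Complex.exp (-(zz w ^ 4))‖ ≤ 1 + C1 := by
      refine (norm_sub_le _ _).trans ?_
      rw [norm_one]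
      have h6 := h1 w hw
      have h7 : Real.exp (-(w.im ^ 4)) ≤ 1 := by
        rw [Real.exp_le_one_iff]
        have : 0 ≤ w.im ^ 4 := by positivity
        linarith
      have h8 : C1 * Real.exp (-(w.im ^ 4)) ≤ C1 * 1 := mul_le_mul_of_nonneg_left h7 hC1
      linarith
    rw [h3, norm_div]
    have h9 : ‖1 - Complex.exp (-(zz w ^ 4))‖ / ‖zz w ^ 2‖ ≤ ‖1 - Complex.exp (-(zz w ^ 4))‖ :=
      div_le_self (norm_nonneg _) h4
    have h10 := abs_nonneg C0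
    linarith

private theorem SZCSd_poly (t : ℝ) : (1 + t ^ 2) ^ 3 ≤ 5832 * Real.exp |t| := by
  have h1 := Real.quadratic_le_exp_of_nonneg (x := |t| / 3) (by positivity)
  have h2 : |t| ^ 2 = t ^ 2 := sq_abs t
  have h3 : 1 + t ^ 2 ≤ 18 * Real.exp (|t| / 3) := by
    have h4 := abs_nonneg t
    nlinarith
  have h5 : (1 + t ^ 2) ^ 3 ≤ (18 * Real.exp (|t| / 3)) ^ 3 :=
    pow_le_pow_left₀ (by positivity) h3 3
  have h6 : (18 * Real.exp (|t| / 3)) ^ 3 = 5832 * Real.exp |t| := by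
    rw [mul_pow, ← Real.exp_nat_mul]
    have h7 : ((3 : ℕ) : ℝ) * (|t| / 3) = |t| := by
      push_cast
      ring
    rw [h7]
    norm_num
  rw [h6] at h5
  exact h5

private theorem SZCSd_exp {κ t T : ℝ} (hκ : 0 < κ) :
    7 * |t| - κ * (t - T) ^ 2 ≤ 7 * |T| + 49 / (4 * κ) := by
  have h1 : |t| ≤ |t - T| + |T| := by
    have h2 := abs_add_le (t - T) T
    rwa [sub_add_cancel] at h2
  have h3 : |t - T| ^ 2 = (t - T) ^ 2 := sq_abs _
  have h4 : 0 ≤ κ * (|t - T| - 7 / (2 * κ)) ^ 2 := by positivity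
  have h5 : κ * (|t - T| - 7 / (2 * κ)) ^ 2 =
      κ * (t - T) ^ 2 - 7 * |t - T| + 49 / (4 * κ) := by
    rw [← h3]
    field_simp
    ring
  rw [h5] at h4
  linarith

theorem hh_SD (hT : 1 < T) : ∃ K : ℝ, SD 3 (-1) 1 K (hh c0 α P T) := by
  obtain ⟨C, hC, hA⟩ := Aa_strip (c0 := c0) (α := α) (P := P) (T := T)
  obtain ⟨C', hC', hz⟩ := zpsi_bd
  have hL : 0 < Real.log T := Real.log_pos hT
  obtain ⟨κ, hκ⟩ : ∃ κ, κ = Real.log T / T ^ 2 := ⟨_, rfl⟩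
  have hκ0 : 0 < κ := by
    rw [hκ]
    have : 0 < T := by linarith
    positivity
  refine ⟨Real.exp (κ + (7 * |T| + 49 / (4 * κ))) * (C ^ 2 * C' * 5832),
    fun w _ _ => hh_differentiable w, fun w h1 h2 => ?_⟩
  have hx : w.re ^ 2 ≤ 1 := by
    rw [sq_le_one_iff_abs_le_one, abs_le]
    exact ⟨h1, h2⟩
  have g1 : ‖Gs T (1 / 2 + w)‖ ≤ Real.exp (κ - κ * (w.im - T) ^ 2) := by
    rw [Gs_norm]
    apply Real.exp_le_exp.2
    have h3 : (w.re ^ 2 - (w.im - T) ^ 2) * Real.log T / T ^ 2 =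
        κ * w.re ^ 2 - κ * (w.im - T) ^ 2 := by
      rw [hκ]
      ring
    rw [h3]
    have h4 : κ * w.re ^ 2 ≤ κ * 1 := mul_le_mul_of_nonneg_left hx hκ0.le
    linarith
  have r1 : ((1 / 2 : ℂ) + w).re = 1 / 2 + w.re := by simp
  have r2 : ((1 / 2 : ℂ) + w).im = w.im := by simp
  have r3 : ((1 / 2 : ℂ) - w).re = 1 / 2 - w.re := by simp
  have r4 : ((1 / 2 : ℂ) - w).im = -w.im := by simp
  have g2 : ‖Aa c0 α P T (1 / 2 + w)‖ ≤ C * Real.exp (3 * |w.im|) := by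
    have h3 := hA (1 / 2 + w) (by rw [r1]; linarith) (by rw [r1]; linarith)
    rwa [r2] at h3
  have g3 : ‖Aa c0 α P T (1 / 2 - w)‖ ≤ C * Real.exp (3 * |w.im|) := by
    have h3 := hA (1 / 2 - w) (by rw [r3]; linarith) (by rw [r3]; linarith)
    rwa [r4, abs_neg] at h3
  have g4 := hz w (abs_le.2 ⟨h1, h2⟩)
  have hp := SZCSd_poly w.im
  have hpos : 0 < (1 + w.im ^ 2) ^ 3 := by positivity
  rw [le_div_iff₀ hpos]
  have hmain : ‖hh c0 α P T w‖ ≤ Real.exp (κ - κ * (w.im - T) ^ 2) *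
      (C * Real.exp (3 * |w.im|) * (C * Real.exp (3 * |w.im|))) * C' := by
    unfold hh
    rw [norm_mul, norm_mul, norm_mul]
    refine mul_le_mul (mul_le_mul g1 ?_ (by positivity) (Real.exp_nonneg _)) g4
      (norm_nonneg _) (by positivity)
    exact mul_le_mul g2 g3 (norm_nonneg _) (by positivity)
  calc ‖hh c0 α P T w‖ * (1 + w.im ^ 2) ^ 3 ≤
      (Real.exp (κ - κ * (w.im - T) ^ 2) *
        (C * Real.exp (3 * |w.im|) * (C * Real.exp (3 * |w.im|))) * C') *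
        (5832 * Real.exp |w.im|) :=
        mul_le_mul hmain hp hpos.le (by positivity)
    _ = Real.exp (κ + (7 * |w.im| - κ * (w.im - T) ^ 2)) * (C ^ 2 * C' * 5832) := by
        have h5 : κ + (7 * |w.im| - κ * (w.im - T) ^ 2) =
            (κ - κ * (w.im - T) ^ 2) + (3 * |w.im| + (3 * |w.im| + |w.im|)) := by ring
        rw [h5, Real.exp_add (κ - κ * (w.im - T) ^ 2), Real.exp_add (3 * |w.im|) (3 * |w.im| + |w.im|),
          Real.exp_add (3 * |w.im|) |w.im|]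
        ring
    _ ≤ Real.exp (κ + (7 * |T| + 49 / (4 * κ))) * (C ^ 2 * C' * 5832) := by
        refine mul_le_mul_of_nonneg_right (Real.exp_le_exp.2 ?_) (by positivity)
        have h6 := SZCSd_exp (t := w.im) (T := T) hκ0
        linarith

end Pool.Agent.H53.SZC
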