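import Mathlib
import Pool.Agent.H53.SZC.Sd
import Pool.Agent.H53.SZC.Rt

/-!
# MP_103a5c_SZ, block C, row Er (about 230 lines): removing the pole killer on the line `Re s = aT T`

`b = bT T = aT T - 1/2 ∈ (1/2, 1]` (`bT_bounds`), `s = 1/2 + ln b t = aT T + t i` (`half_add_ln`, `half_sub_ln`), `L = log T`, `C` denotes constants independent of `T` and `t`.

## Proofs
* `real_ineq`: for `T ≥ T0` (`T0 ≥ 4`), all `t`: `exp (-(t - T)² L / T²) exp (3|t|) exp (-t⁴) ≤ C T^(-1/4) exp (-t²)`.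
  If `t ≤ T/2`: `(t - T)² ≥ T²/4`, so the first factor is `≤ exp (-L/4) = T^(-1/4)`, and `3|t| - t⁴ ≤ 4 - t²`.
  If `t ≥ T/2 (≥ 2)`: the first factor is `≤ 1` and `t⁴ - t² - 3t ≥ t ≥ T/2 ≥ L/4`.
* `diff_pt`: `‖hh (ln b t) - Gs T s * FF s * FF (1 - s)‖ = ‖Gs‖ ‖exp (-zz⁴)‖ ‖FF s‖ ‖FF (1-s)‖` (`hh_eq`, `Ee w = 1 - exp (-zz⁴)`) `≤ exp (L/T²) exp (-(t-T)² L/T²) * C exp (-t⁴) * C L⁴ * C T^(1-ε) exp (3|t|)`
  (`Gs_norm` with `Re w = b ≤ 1`, `Ee_bd`, `FF_right`, `FF_left`) `≤ C L⁴ T^(3/4 - ε) exp (-t²)`; `exp (L/T²) ≤ e` as `L ≤ T ≤ T²`.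
* integrability: `t ↦ hh (ln b t)` by `hh_SD` and `SD.integrable` (strip `[-1, 1]` contains `b`); the difference is continuous in `t` and bounded by an integrable function.  Continuity of `t ↦ FF (a + it)` and
  `t ↦ FF (1 - (a + it))`: `FF s = Aa s / (s - 1)²` (`Aa_eq`), and `Re s ≠ 1` on both lines.  Continuity of `t ↦ logDeriv ζ (a + it)`: `ζ` is differentiable (so analytic) and nonzero at `Re s > 1`
  (`riemannZeta_ne_zero_of_one_le_re`, `differentiableAt_riemannZeta`; `deriv riemannZeta` is differentiable on the open set `{s | s ≠ 1}` by `DifferentiableOn.deriv`).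
* `er1`: `∫ hh - 2π MM = ∫ (hh - Gs FF FF)` (`integral_sub`), norm `≤ C L⁴ T^(3/4-ε) ∫ exp (-t²)`, and `L⁵ T^(-ε) ≤ C` (`isLittleO_log_rpow_atTop` / `Real.add_one_le_exp`-type bound `log T ≤ (5/ε) T^(ε/5)`).
* `er2`: the same with the additional factor `‖logDeriv ζ‖ ≤ C L²` (`ld_right`).
-/

set_option autoImplicit false

open Complex MeasureTheory Filter Topology Set

namespace Pool.Agent.H53.SZC

open H82SZ Pool.Agent.H17.ZB

variable {ε : ℝ} {α P : ℝ → ℝ}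

private theorem SZCEr_log (k : ℕ) (hk : 0 < k) {ε : ℝ} (hε : 0 < ε) {T : ℝ} (hT : 1 ≤ T) :
    Real.log T ^ k ≤ (k / ε) ^ k * T ^ ε := by
  have hk' : (0 : ℝ) < k := by exact_mod_cast hk
  have h1 : Real.log T ≤ T ^ (ε / k) / (ε / k) :=
    Real.log_le_rpow_div (by linarith) (by positivity)
  have h2 := pow_le_pow_left₀ (Real.log_nonneg hT) h1 k
  have h3 : (T ^ (ε / k) / (ε / k)) ^ k = (k / ε) ^ k * T ^ ε := by
    rw [div_eq_mul_inv (T ^ (ε / k)), inv_div, mul_pow, ← Real.rpow_natCast (T ^ (ε / k)) k,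
      ← Real.rpow_mul (by linarith), div_mul_cancel₀ _ hk'.ne', mul_comm]
  rwa [h3] at h2

theorem real_ineq : ∃ C T0 : ℝ, 0 ≤ C ∧ ∀ T, T0 ≤ T → ∀ t : ℝ,
    Real.exp (-((t - T) ^ 2 * Real.log T / T ^ 2)) * Real.exp (3 * |t|) * Real.exp (-(t ^ 4)) ≤
      C * T ^ (-(1 / 4) : ℝ) * Real.exp (-(t ^ 2)) := by
  refine ⟨Real.exp 4, 4, (Real.exp_pos 4).le, fun T hT t => ?_⟩
  have hT0 : 0 < T := by linarith
  have hL : 0 ≤ Real.log T := Real.log_nonneg (by linarith)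
  have hrp : T ^ (-(1 / 4) : ℝ) = Real.exp (-(Real.log T / 4)) := by
    rw [Real.rpow_def_of_pos hT0]
    congr 1
    ring
  rw [hrp, ← Real.exp_add, ← Real.exp_add, ← Real.exp_add, ← Real.exp_add]
  apply Real.exp_le_exp.2
  have hab := abs_nonneg t
  have hsq : |t| ^ 2 = t ^ 2 := sq_abs t
  have hq : t ^ 4 = (|t| ^ 2) ^ 2 := by rw [hsq]; ring
  rcases le_or_gt t (T / 2) with h | h
  · have h1 : Real.log T / 4 ≤ (t - T) ^ 2 * Real.log T / T ^ 2 := by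
      rw [le_div_iff₀ (by positivity)]
      have h2 : T ^ 2 / 4 ≤ (t - T) ^ 2 := by nlinarith
      calc Real.log T / 4 * T ^ 2 = T ^ 2 / 4 * Real.log T := by ring
        _ ≤ (t - T) ^ 2 * Real.log T := mul_le_mul_of_nonneg_right h2 hL
    have h3 : 3 * |t| - t ^ 4 ≤ 4 - t ^ 2 := by
      rw [hq, ← hsq]
      nlinarith [sq_nonneg (|t| ^ 2 - 1), sq_nonneg (|t| - 3 / 2)]
    linarith
  · have h1 : 0 ≤ (t - T) ^ 2 * Real.log T / T ^ 2 := by positivity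
    have ht2 : 2 ≤ t := by linarith
    have hta : |t| = t := abs_of_pos (by linarith)
    have h3 : Real.log T ≤ T := Real.log_le_self hT0.le
    have h4 : 0 ≤ t ^ 2 * (t ^ 2 - 4) := by
      apply mul_nonneg (sq_nonneg t)
      nlinarith
    have h5 : 0 ≤ t * (3 * t - 4) := mul_nonneg (by linarith) (by linarith)
    rw [hta]
    nlinarith

private theorem SZCEr_diff (c0 : ℝ) (hε : 0 < ε) (hε2 : ε < 1 / 2) (hα : Adm (1 - ε) α)
    (hP : Adm (1 / 2 - ε) P) :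
    ∃ C T0 : ℝ, 0 ≤ C ∧ ∀ T, T0 ≤ T → ∀ t : ℝ,
      ‖hh c0 α P T (ln (bT T) t) - Gs T (aT T + t * I) * FF c0 α P T (aT T + t * I) *
        FF c0 α P T (1 - (aT T + t * I))‖ ≤
        C * Real.log T ^ 4 * T ^ (3 / 4 - ε) * Real.exp (-(t ^ 2)) := by
  obtain ⟨C1, T1, hC1, h1⟩ := real_ineq
  obtain ⟨C2, T2, hC2, h2⟩ := FF_right c0 hε hε2 hα hP
  obtain ⟨C3, T3, hC3, h3⟩ := FF_left c0 hε hε2 hα hP
  obtain ⟨C4, hC4, h4⟩ := Ee_bd
  refine ⟨Real.exp 1 * C4 * C2 * C3 * C1, max (max T1 T2) (max T3 (Real.exp 2)),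
    by positivity, fun T hT t => ?_⟩
  have hT1 : T1 ≤ T := ((le_max_left _ _).trans (le_max_left _ _)).trans hT
  have hT2 : T2 ≤ T := ((le_max_right _ _).trans (le_max_left _ _)).trans hT
  have hT3 : T3 ≤ T := ((le_max_left _ _).trans (le_max_right _ _)).trans hT
  have hTe : Real.exp 2 ≤ T := ((le_max_right _ _).trans (le_max_right _ _)).trans hT
  have hT0 : 0 < T := (Real.exp_pos 2).trans_le hTe
  have hL : 2 ≤ Real.log T := (Real.le_log_iff_exp_le hT0).2 hTe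
  have hTge : 1 ≤ T := by
    have := Real.add_one_le_exp 2
    linarith
  obtain ⟨hb1, hb2⟩ := bT_bounds hL
  have hw1 : ln (bT T) t ≠ 1 / 2 := by
    intro h
    have h5 := congrArg Complex.re h
    rw [ln_re] at h5
    norm_num at h5
    linarith
  have hw2 : ln (bT T) t ≠ -(1 / 2) := by
    intro h
    have h5 := congrArg Complex.re h
    rw [ln_re] at h5
    norm_num at h5
    linarith
  have hEq := hh_eq (c0 := c0) (α := α) (P := P) (T := T) hw1 hw2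
  rw [half_add_ln, half_sub_ln] at hEq
  obtain ⟨F1, hF1⟩ : ∃ F1 : ℂ, F1 = FF c0 α P T (aT T + t * I) := ⟨_, rfl⟩
  obtain ⟨F2, hF2⟩ : ∃ F2 : ℂ, F2 = FF c0 α P T (1 - (aT T + t * I)) := ⟨_, rfl⟩
  obtain ⟨G, hG⟩ : ∃ G : ℂ, G = Gs T (aT T + t * I) := ⟨_, rfl⟩
  obtain ⟨E, hE⟩ : ∃ E : ℂ, E = Complex.exp (-(zz (ln (bT T) t) ^ 4)) := ⟨_, rfl⟩
  have hEe : Ee (ln (bT T) t) = 1 - E := by rw [hE]; rfl
  rw [hEq, hEe, ← hF1, ← hF2, ← hG]
  have hid : G * (1 - E) * (F1 * F2) - G * F1 * F2 = -(G * E * (F1 * F2)) := by ring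
  rw [hid, norm_neg, norm_mul, norm_mul, norm_mul]
  have gE : ‖E‖ ≤ C4 * Real.exp (-(t ^ 4)) := by
    have h5 := h4 (ln (bT T) t) (by
      rw [ln_re, abs_of_pos (by linarith)]
      exact hb2)
    rw [ln_im, ← hE] at h5
    exact h5
  have gF1 : ‖F1‖ ≤ C2 * Real.log T ^ 4 := by rw [hF1]; exact h2 T hT2 t
  have gF2 : ‖F2‖ ≤ C3 * T ^ (1 - ε) * Real.exp (3 * |t|) := by rw [hF2]; exact h3 T hT3 t
  have gG : ‖G‖ ≤ Real.exp 1 * Real.exp (-((t - T) ^ 2 * Real.log T / T ^ 2)) := by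
    rw [hG, ← half_add_ln, Gs_norm, ln_re, ln_im, ← Real.exp_add]
    apply Real.exp_le_exp.2
    have h5 : Real.log T ≤ T ^ 2 := by
      have := Real.log_le_self hT0.le
      nlinarith
    have h6 : Real.log T / T ^ 2 ≤ 1 := (div_le_one (by positivity)).2 h5
    have h7 : 0 ≤ Real.log T / T ^ 2 := by positivity
    have h8 : bT T ^ 2 ≤ 1 := by nlinarith
    have h9 : bT T ^ 2 * (Real.log T / T ^ 2) ≤ 1 * 1 := mul_le_mul h8 h6 h7 (by norm_num)
    have h10 : (bT T ^ 2 - (t - T) ^ 2) * Real.log T / T ^ 2 =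
        bT T ^ 2 * (Real.log T / T ^ 2) - (t - T) ^ 2 * Real.log T / T ^ 2 := by ring
    rw [h10]
    linarith
  have hre := h1 T hT1 t
  obtain ⟨g, hg⟩ : ∃ g : ℝ, g = Real.exp (-((t - T) ^ 2 * Real.log T / T ^ 2)) := ⟨_, rfl⟩
  rw [← hg] at hre gG
  have hg0 : 0 ≤ g := by rw [hg]; exact (Real.exp_pos _).le
  have hL4 : 0 ≤ Real.log T ^ 4 := by positivity
  have hTp : 0 ≤ T ^ (1 - ε) := Real.rpow_nonneg hT0.le _
  have hadd : T ^ (1 - ε) * T ^ (-(1 / 4) : ℝ) = T ^ (3 / 4 - ε) := by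
    rw [← Real.rpow_add hT0]
    congr 1
    ring
  have m1 : ‖G‖ * ‖E‖ ≤ (Real.exp 1 * g) * (C4 * Real.exp (-(t ^ 4))) :=
    mul_le_mul gG gE (norm_nonneg _) (by positivity)
  have m2 : ‖F1‖ * ‖F2‖ ≤ (C2 * Real.log T ^ 4) * (C3 * T ^ (1 - ε) * Real.exp (3 * |t|)) :=
    mul_le_mul gF1 gF2 (norm_nonneg _) (by positivity)
  have m3 := mul_le_mul m1 m2 (by positivity) (by positivity)
  refine m3.trans ?_
  calc (Real.exp 1 * g) * (C4 * Real.exp (-(t ^ 4))) *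
        ((C2 * Real.log T ^ 4) * (C3 * T ^ (1 - ε) * Real.exp (3 * |t|)))
      = (Real.exp 1 * C4 * C2 * C3 * Real.log T ^ 4 * T ^ (1 - ε)) *
        (g * Real.exp (3 * |t|) * Real.exp (-(t ^ 4))) := by ring
    _ ≤ (Real.exp 1 * C4 * C2 * C3 * Real.log T ^ 4 * T ^ (1 - ε)) *
        (C1 * T ^ (-(1 / 4) : ℝ) * Real.exp (-(t ^ 2))) := by
        apply mul_le_mul_of_nonneg_left hre
        positivity
    _ = Real.exp 1 * C4 * C2 * C3 * C1 * Real.log T ^ 4 * (T ^ (1 - ε) * T ^ (-(1 / 4) : ℝ)) *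
        Real.exp (-(t ^ 2)) := by ring
    _ = Real.exp 1 * C4 * C2 * C3 * C1 * Real.log T ^ 4 * T ^ (3 / 4 - ε) *
        Real.exp (-(t ^ 2)) := by rw [hadd]

private theorem SZCEr_contF (c0 : ℝ) (α P : ℝ → ℝ) {T : ℝ} {u : ℝ → ℂ} (hu : Continuous u)
    (h1 : ∀ t, u t ≠ 1) : Continuous fun t : ℝ => FF c0 α P T (u t) := by
  have h2 : (fun t : ℝ => FF c0 α P T (u t)) = fun t => Aa c0 α P T (u t) / (u t - 1) ^ 2 := by
    funext t
    have h3 : (u t - 1) ^ 2 ≠ 0 := pow_ne_zero 2 (sub_ne_zero.2 (h1 t))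
    rw [Aa_eq (h1 t), mul_div_cancel_left₀ _ h3]
  rw [h2]
  have h4 : Continuous fun t : ℝ => Aa c0 α P T (u t) := Aa_differentiable.continuous.comp hu
  have h5 : Continuous fun t : ℝ => (u t - 1) ^ 2 := (hu.sub continuous_const).pow 2
  exact h4.div h5 fun t => pow_ne_zero 2 (sub_ne_zero.2 (h1 t))

private theorem SZCEr_contu (T : ℝ) : Continuous fun t : ℝ => ((aT T : ℂ) + t * I) := by
  fun_prop

private theorem SZCEr_cont (c0 : ℝ) (α P : ℝ → ℝ) {T : ℝ} (hT : 2 ≤ Real.log T) :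
    Continuous fun t : ℝ => Gs T (aT T + t * I) * FF c0 α P T (aT T + t * I) *
      FF c0 α P T (1 - (aT T + t * I)) := by
  have hL : 0 < 1 / Real.log T := by positivity
  have hG : Continuous fun t : ℝ => Gs T (aT T + t * I) := by
    unfold Gs
    fun_prop
  have hu := SZCEr_contu T
  refine (hG.mul (SZCEr_contF c0 α P hu fun t h => ?_)).mul
    (SZCEr_contF c0 α P (continuous_const.sub hu) fun t h => ?_)
  · have h5 := congrArg Complex.re h
    have h6 : ((aT T : ℂ) + t * I).re = 1 + 1 / Real.log T := by simp [aT]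
    rw [h6, Complex.one_re] at h5
    linarith
  · have h5 := congrArg Complex.re h
    simp [aT] at h5
    have h6 : 0 < (Real.log T)⁻¹ := by positivity
    linarith

private theorem SZCEr_core {f G m : ℝ → ℂ} {K M : ℝ} (hf : Integrable f) (hfc : Continuous f)
    (hGc : Continuous G) (hmc : Continuous m) (hK : 0 ≤ K) (hM : ∀ t, ‖m t‖ ≤ M)
    (hb : ∀ t, ‖f t - G t‖ ≤ K * Real.exp (-(t ^ 2))) :
    Integrable (fun t => f t * m t) ∧
      ‖(∫ t, f t * m t) - ∫ t, m t * G t‖ ≤ M * K * ∫ t : ℝ, Real.exp (-(t ^ 2)) := by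
  have hM0 : 0 ≤ M := (norm_nonneg _).trans (hM 0)
  have hgi : Integrable fun t : ℝ => Real.exp (-(t ^ 2)) := by
    have h1 := integrable_exp_neg_mul_sq (b := 1) one_pos
    refine h1.congr (Filter.Eventually.of_forall fun t => ?_)
    show Real.exp (-1 * t ^ 2) = Real.exp (-(t ^ 2))
    rw [neg_one_mul]
  have hfm : Integrable (fun t => f t * m t) := by
    refine (hf.norm.const_mul M).mono' (hfc.mul hmc).aestronglyMeasurable
      (Filter.Eventually.of_forall fun t => ?_)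
    rw [norm_mul, mul_comm]
    exact mul_le_mul_of_nonneg_right (hM t) (norm_nonneg _)
  have hd : ∀ t, ‖f t * m t - m t * G t‖ ≤ (M * K) * Real.exp (-(t ^ 2)) := by
    intro t
    have h1 : f t * m t - m t * G t = m t * (f t - G t) := by ring
    rw [h1, norm_mul, mul_assoc]
    exact mul_le_mul (hM t) (hb t) (norm_nonneg _) hM0
  have hdi : Integrable (fun t => f t * m t - m t * G t) :=
    (hgi.const_mul (M * K)).mono' ((hfc.mul hmc).sub (hmc.mul hGc)).aestronglyMeasurable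
      (Filter.Eventually.of_forall hd)
  have hmG : Integrable (fun t => m t * G t) := by
    refine (hfm.sub hdi).congr (Filter.Eventually.of_forall fun t => ?_)
    show f t * m t - (f t * m t - m t * G t) = m t * G t
    ring
  refine ⟨hfm, ?_⟩
  rw [← integral_sub hfm hmG, ← integral_const_mul]
  exact norm_integral_le_of_norm_le (hgi.const_mul (M * K)) (Filter.Eventually.of_forall hd)

private theorem SZCEr_fin (k : ℕ) (hk : 0 < k) {ε : ℝ} (hε : 0 < ε) {T : ℝ} (hT : 1 ≤ T) :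
    Real.log T ^ k * T ^ (3 / 4 - ε) ≤ (k / ε) ^ k * T ^ (3 / 4 : ℝ) := by
  have h1 := SZCEr_log k hk hε hT
  have hT0 : 0 < T := by linarith
  calc Real.log T ^ k * T ^ (3 / 4 - ε) ≤ ((k / ε) ^ k * T ^ ε) * T ^ (3 / 4 - ε) :=
        mul_le_mul_of_nonneg_right h1 (Real.rpow_nonneg hT0.le _)
    _ = (k / ε) ^ k * (T ^ ε * T ^ (3 / 4 - ε)) := by ring
    _ = (k / ε) ^ k * T ^ (3 / 4 : ℝ) := by
      rw [← Real.rpow_add hT0]
      congr 2
      ring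

private theorem SZCEr_ld {T : ℝ} (hT : 2 ≤ Real.log T) :
    Continuous fun t : ℝ => logDeriv riemannZeta (aT T + t * I) := by
  have hre : ∀ t : ℝ, ((aT T : ℂ) + t * I).re = 1 + 1 / Real.log T := by
    intro t
    simp [aT]
  have hL : 0 < 1 / Real.log T := by positivity
  have hne : ∀ t : ℝ, ((aT T : ℂ) + t * I) ≠ 1 := by
    intro t h
    have h5 := congrArg Complex.re h
    rw [hre, Complex.one_re] at h5
    linarith
  have hopen : IsOpen ({1}ᶜ : Set ℂ) := isOpen_compl_singleton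
  have hdz : DifferentiableOn ℂ riemannZeta ({1}ᶜ : Set ℂ) := fun s hs =>
    (differentiableAt_riemannZeta hs).differentiableWithinAt
  have hd2 : DifferentiableOn ℂ (deriv riemannZeta) ({1}ᶜ : Set ℂ) := hdz.deriv hopen
  have hu := SZCEr_contu T
  rw [continuous_iff_continuousAt]
  intro t
  have hz0 : riemannZeta ((aT T : ℂ) + t * I) ≠ 0 := by
    apply riemannZeta_ne_zero_of_one_le_re
    rw [hre]
    linarith
  have c1 : ContinuousAt riemannZeta ((aT T : ℂ) + t * I) :=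
    (differentiableAt_riemannZeta (hne t)).continuousAt
  have c2 : ContinuousAt (deriv riemannZeta) ((aT T : ℂ) + t * I) :=
    (hd2.differentiableAt (hopen.mem_nhds (hne t))).continuousAt
  have c3 : ContinuousAt (logDeriv riemannZeta) ((aT T : ℂ) + t * I) := by
    unfold logDeriv
    exact c2.div c1 hz0
  exact ContinuousAt.comp (f := fun t : ℝ => ((aT T : ℂ) + t * I))
    (g := logDeriv riemannZeta) c3 hu.continuousAt

private theorem SZCEr_hh (c0 : ℝ) (α P : ℝ → ℝ) {T : ℝ} (hT : 2 ≤ Real.log T) (hT1 : 1 < T) :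
    Integrable (fun t : ℝ => hh c0 α P T (ln (bT T) t)) ∧
      Continuous (fun t : ℝ => hh c0 α P T (ln (bT T) t)) := by
  obtain ⟨hb1, hb2⟩ := bT_bounds hT
  obtain ⟨K, hK⟩ := hh_SD (c0 := c0) (α := α) (P := P) hT1
  exact ⟨hK.integrable (by norm_num) (by linarith) hb2, hK.continuous (by linarith) hb2⟩

theorem er1 (c0 : ℝ) (hε : 0 < ε) (hε2 : ε < 1 / 2) (hα : Adm (1 - ε) α) (hP : Adm (1 / 2 - ε) P) :
    ∃ C T0 : ℝ, 0 ≤ C ∧ ∀ T, T0 ≤ T →
      Real.log T * ‖(2 * Real.pi : ℂ)⁻¹ * (∫ t : ℝ, hh c0 α P T (ln (bT T) t)) - MM c0 α P T‖ ≤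
        C * T ^ (3 / 4 : ℝ) := by
  obtain ⟨C, T0, hC, hd⟩ := SZCEr_diff c0 hε hε2 hα hP
  obtain ⟨J, hJ⟩ : ∃ J : ℝ, J = ∫ t : ℝ, Real.exp (-(t ^ 2)) := ⟨_, rfl⟩
  have hJ0 : 0 ≤ J := by
    rw [hJ]
    exact integral_nonneg fun t => (Real.exp_pos _).le
  obtain ⟨κ, hκ⟩ : ∃ κ : ℝ, κ = ‖(2 * Real.pi : ℂ)⁻¹‖ := ⟨_, rfl⟩
  have hκ0 : 0 ≤ κ := by rw [hκ]; exact norm_nonneg _
  refine ⟨κ * C * J * ((5 : ℕ) / ε) ^ 5, max T0 (Real.exp 2), by positivity, fun T hT => ?_⟩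
  have hTe : Real.exp 2 ≤ T := (le_max_right _ _).trans hT
  have hTp : 0 < T := (Real.exp_pos 2).trans_le hTe
  have hL : 2 ≤ Real.log T := (Real.le_log_iff_exp_le hTp).2 hTe
  have hT1 : 1 < T := by
    have := Real.add_one_le_exp 2
    linarith
  obtain ⟨hi, hc⟩ := SZCEr_hh c0 α P hL hT1
  have hr : 0 ≤ T ^ (3 / 4 - ε) := Real.rpow_nonneg hTp.le _
  obtain ⟨-, h1⟩ := SZCEr_core (m := fun _ => 1) (M := 1)
    (K := C * Real.log T ^ 4 * T ^ (3 / 4 - ε)) hi hc (SZCEr_cont c0 α P hL) continuous_const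
    (by positivity) (fun t => by simp) (hd T ((le_max_left _ _).trans hT))
  simp only [mul_one, one_mul] at h1
  rw [← hJ] at h1
  have h2 : (2 * Real.pi : ℂ)⁻¹ * (∫ t : ℝ, hh c0 α P T (ln (bT T) t)) - MM c0 α P T =
      (2 * Real.pi : ℂ)⁻¹ * ((∫ t : ℝ, hh c0 α P T (ln (bT T) t)) -
        ∫ t : ℝ, Gs T (aT T + t * I) * FF c0 α P T (aT T + t * I) *
          FF c0 α P T (1 - (aT T + t * I))) := by
    unfold MM
    ring
  rw [h2, norm_mul, ← hκ]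
  calc Real.log T * (κ * ‖(∫ t : ℝ, hh c0 α P T (ln (bT T) t)) -
        ∫ t : ℝ, Gs T (aT T + t * I) * FF c0 α P T (aT T + t * I) *
          FF c0 α P T (1 - (aT T + t * I))‖)
      ≤ Real.log T * (κ * (C * Real.log T ^ 4 * T ^ (3 / 4 - ε) * J)) := by
        apply mul_le_mul_of_nonneg_left _ (by linarith)
        exact mul_le_mul_of_nonneg_left h1 hκ0
    _ = κ * C * J * (Real.log T ^ 5 * T ^ (3 / 4 - ε)) := by ring
    _ ≤ κ * C * J * (((5 : ℕ) / ε) ^ 5 * T ^ (3 / 4 : ℝ)) := by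
        apply mul_le_mul_of_nonneg_left (SZCEr_fin 5 (by norm_num) hε hT1.le)
        positivity
    _ = κ * C * J * ((5 : ℕ) / ε) ^ 5 * T ^ (3 / 4 : ℝ) := by ring

theorem er2 (c0 : ℝ) (hε : 0 < ε) (hε2 : ε < 1 / 2) (hα : Adm (1 - ε) α) (hP : Adm (1 / 2 - ε) P) :
    ∃ C T0 : ℝ, 0 ≤ C ∧ ∀ T, T0 ≤ T →
      Integrable (fun t : ℝ => hh c0 α P T (ln (bT T) t) * logDeriv riemannZeta (1 / 2 + ln (bT T) t)) ∧
      ‖(2 * Real.pi : ℂ)⁻¹ * (∫ t : ℝ, hh c0 α P T (ln (bT T) t) * logDeriv riemannZeta (1 / 2 + ln (bT T) t)) -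
        PP c0 α P T‖ ≤ C * T ^ (3 / 4 : ℝ) := by
  obtain ⟨C, T0, hC, hd⟩ := SZCEr_diff c0 hε hε2 hα hP
  obtain ⟨C', T0', hC', hl⟩ := ld_right
  obtain ⟨J, hJ⟩ : ∃ J : ℝ, J = ∫ t : ℝ, Real.exp (-(t ^ 2)) := ⟨_, rfl⟩
  have hJ0 : 0 ≤ J := by
    rw [hJ]
    exact integral_nonneg fun t => (Real.exp_pos _).le
  obtain ⟨κ, hκ⟩ : ∃ κ : ℝ, κ = ‖(2 * Real.pi : ℂ)⁻¹‖ := ⟨_, rfl⟩
  have hκ0 : 0 ≤ κ := by rw [hκ]; exact norm_nonneg _
  refine ⟨κ * C' * C * J * ((6 : ℕ) / ε) ^ 6, max (max T0 T0') (Real.exp 2), by positivity,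
    fun T hT => ?_⟩
  have hTe : Real.exp 2 ≤ T := (le_max_right _ _).trans hT
  have hTp : 0 < T := (Real.exp_pos 2).trans_le hTe
  have hL : 2 ≤ Real.log T := (Real.le_log_iff_exp_le hTp).2 hTe
  have hT1 : 1 < T := by
    have := Real.add_one_le_exp 2
    linarith
  have hT0 : T0 ≤ T := ((le_max_left _ _).trans (le_max_left _ _)).trans hT
  have hT0' : T0' ≤ T := ((le_max_right _ _).trans (le_max_left _ _)).trans hT
  obtain ⟨hi, hc⟩ := SZCEr_hh c0 α P hL hT1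
  have hr : 0 ≤ T ^ (3 / 4 - ε) := Real.rpow_nonneg hTp.le _
  simp only [half_add_ln]
  obtain ⟨h0, h1⟩ := SZCEr_core (m := fun t : ℝ => logDeriv riemannZeta (aT T + t * I))
    (M := C' * Real.log T ^ 2)
    (K := C * Real.log T ^ 4 * T ^ (3 / 4 - ε)) hi hc (SZCEr_cont c0 α P hL) (SZCEr_ld hL)
    (by positivity) (hl T hT0') (hd T hT0)
  refine ⟨h0, ?_⟩
  rw [← hJ] at h1
  have h2 : (2 * Real.pi : ℂ)⁻¹ * (∫ t : ℝ, hh c0 α P T (ln (bT T) t) *
        logDeriv riemannZeta (aT T + t * I)) - PP c0 α P T =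
      (2 * Real.pi : ℂ)⁻¹ * ((∫ t : ℝ, hh c0 α P T (ln (bT T) t) *
        logDeriv riemannZeta (aT T + t * I)) -
        ∫ t : ℝ, logDeriv riemannZeta (aT T + t * I) *
          (Gs T (aT T + t * I) * FF c0 α P T (aT T + t * I) *
          FF c0 α P T (1 - (aT T + t * I)))) := by
    unfold PP
    ring
  rw [h2, norm_mul, ← hκ]
  calc κ * ‖(∫ t : ℝ, hh c0 α P T (ln (bT T) t) * logDeriv riemannZeta (aT T + t * I)) -
        ∫ t : ℝ, logDeriv riemannZeta (aT T + t * I) *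
          (Gs T (aT T + t * I) * FF c0 α P T (aT T + t * I) *
          FF c0 α P T (1 - (aT T + t * I)))‖
      ≤ κ * (C' * Real.log T ^ 2 * (C * Real.log T ^ 4 * T ^ (3 / 4 - ε)) * J) :=
        mul_le_mul_of_nonneg_left h1 hκ0
    _ = κ * C' * C * J * (Real.log T ^ 6 * T ^ (3 / 4 - ε)) := by ring
    _ ≤ κ * C' * C * J * (((6 : ℕ) / ε) ^ 6 * T ^ (3 / 4 : ℝ)) := by
        apply mul_le_mul_of_nonneg_left (SZCEr_fin 6 (by norm_num) hε hT1.le)
        positivity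
    _ = κ * C' * C * J * ((6 : ℕ) / ε) ^ 6 * T ^ (3 / 4 : ℝ) := by ring

end Pool.Agent.H53.SZC
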