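import Mathlib
import Pool.Agent.H53.SZC.Vs

/-!
# MP_103a5c_SZ, block C, row Rs (about 180 lines): the residue at one zero

## Proof of `res1`
Fix `b > c` (say `b = c + 1`) and `κ(w) = b² / (b² - (w - iγ)²)`.  On `|Re w| ≤ c`, `u = w - iγ`: `Re (b² - u²) = b² - (Re u)² + (Im u)² ≥ b² - c² > 0`, and
`|b² - u²| ≥ b² - c² + (Im u)²`.  So `κ` is differentiable there, `κ(iγ) = 1`, `|κ(w)| ≤ C / (1 + t²)` (`t = Im w`).
1. `g w := dslope (fun w => H w - H (iγ) * κ w) (iγ) w`.  For `w ≠ iγ`: `g w = (H w - H (iγ) κ w) / (w - iγ)` (`dslope_of_ne`, `slope_def_field`, the value at `iγ` is `0`),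
   so `g` is differentiable at `w ≠ iγ` in the closed strip (`DifferentiableAt.congr_of_eventuallyEq`), and at `iγ` by
   `Complex.differentiableOn_dslope` on the open strip `-c < Re w < c` (a neighbourhood of `iγ`; `H` and `κ` are differentiable there).
   Decay `|g(w)| ≤ K' / (1 + t²)`: for `|w - iγ| ≥ c` it is clear (`|H| ≤ K/(1+t²)`, `|κ| ≤ C/(1+t²)`); on the compact disc `|w - iγ| ≤ c` the continuous `g` is bounded, and `1 + t²` is
   bounded (the disc lies in the closed strip).  So `SD 1 (-c) c K' g` and `SD.shift` gives `∫ g(ln (-c) t) = ∫ g(ln c t)`.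
2. Hence (everything is integrable) `∫ H(ln c t)/(ln c t - iγ) - ∫ H(ln (-c) t)/(ln (-c) t - iγ) = H(iγ) (∫ κ(ln c t)/(ln c t - iγ) - ∫ κ(ln (-c) t)/(ln (-c) t - iγ))`.
3. `κ/u = b²/(u(b-u)(b+u)) = 1/u - (1/2)(1/(u - b) + 1/(u + b))`, odd in `u`.  Substituting `t → γ + t` (`integral_add_right_eq_self`) in both integrals, and `t → -t`
   (`integral_neg_eq_self`) in the second one, the difference is `∫ [q(c + it) + q(c - it)] dt`, `q(u) = κ/u`, and
   `q(c+it) + q(c-it) = 2 Re q(c + it) = 2 c/(c²+t²) - ( (c-b)/((c-b)²+t²) + (c+b)/((c+b)²+t²) )`.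
   `∫ x/(x²+t²) dt = π` for `x > 0` (from `integral_univ_inv_one_add_sq` by scaling `t = x v`, `Measure.integral_comp_mul_left` or `integral_comp_div`), `= -π` for `x < 0`.
   Total: `2π - (-π + π) = 2π`.
-/

set_option autoImplicit false

open Complex MeasureTheory Filter Topology Set

namespace Pool.Agent.H53.SZC

variable {n : ℕ} {c K : ℝ} {H : ℂ → ℂ}

theorem integral_poisson {x : ℝ} (hx : 0 < x) : Integrable (fun t : ℝ => x / (x ^ 2 + t ^ 2)) ∧
    ∫ t : ℝ, x / (x ^ 2 + t ^ 2) = Real.pi := by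
  have hf : (fun t : ℝ => x / (x ^ 2 + t ^ 2)) = fun t : ℝ => x⁻¹ * (1 + (t / x) ^ 2)⁻¹ := by
    funext t
    have h1 : 0 < x ^ 2 + t ^ 2 := by positivity
    field_simp
  rw [hf]
  constructor
  · exact (integrable_inv_one_add_sq.comp_div hx.ne').const_mul _
  · rw [integral_const_mul,
      Measure.integral_comp_div (fun t : ℝ => (1 + t ^ 2)⁻¹) x, integral_univ_inv_one_add_sq,
      abs_of_pos hx, smul_eq_mul]
    field_simp

private noncomputable def SZCRs_k (c γ : ℝ) (w : ℂ) : ℂ :=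
  ((c + 1 : ℝ) : ℂ) ^ 2 / (((c + 1 : ℝ) : ℂ) ^ 2 - (w - γ * I) ^ 2)

private lemma SZCRs_re (c γ : ℝ) (w : ℂ) :
    (((c + 1 : ℝ) : ℂ) ^ 2 - (w - γ * I) ^ 2).re = (c + 1) ^ 2 - w.re ^ 2 + (w.im - γ) ^ 2 := by
  simp [pow_two]
  ring

private lemma SZCRs_sd (hc : 0 < c) (γ : ℝ) :
    SD 1 (-c) c ((c + 1) ^ 2 * (2 + 2 * γ ^ 2)) (SZCRs_k c γ) := by
  have key : ∀ w : ℂ, -c ≤ w.re → w.re ≤ c →
      1 + (w.im - γ) ^ 2 ≤ ‖((c + 1 : ℝ) : ℂ) ^ 2 - (w - γ * I) ^ 2‖ := by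
    intro w h1 h2
    have h3 : w.re ^ 2 ≤ c ^ 2 := by
      rw [sq_le_sq, abs_of_pos hc]
      exact abs_le.2 ⟨h1, h2⟩
    refine le_trans ?_ (Complex.re_le_norm _)
    rw [SZCRs_re]
    nlinarith
  refine ⟨fun w h1 h2 => ?_, fun w h1 h2 => ?_⟩
  · have h3 := key w h1 h2
    have h4 : ((c + 1 : ℝ) : ℂ) ^ 2 - (w - γ * I) ^ 2 ≠ 0 := by
      intro h
      rw [h, norm_zero] at h3
      nlinarith [sq_nonneg (w.im - γ)]
    unfold SZCRs_k
    exact (differentiableAt_const _).div (by fun_prop) h4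
  · have h3 := key w h1 h2
    have h5 : 0 < 1 + (w.im - γ) ^ 2 := by positivity
    unfold SZCRs_k
    rw [norm_div, norm_pow, Complex.norm_real, pow_one, Real.norm_eq_abs, sq_abs]
    rw [div_le_div_iff₀ (lt_of_lt_of_le h5 h3) (by positivity)]
    have h6 : 1 + w.im ^ 2 ≤ (2 + 2 * γ ^ 2) * (1 + (w.im - γ) ^ 2) := by
      nlinarith [sq_nonneg (w.im - 2 * γ), sq_nonneg (γ * (w.im - γ))]
    calc (c + 1) ^ 2 * (1 + w.im ^ 2) ≤ (c + 1) ^ 2 * ((2 + 2 * γ ^ 2) * (1 + (w.im - γ) ^ 2)) :=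
          mul_le_mul_of_nonneg_left h6 (sq_nonneg _)
      _ = (c + 1) ^ 2 * (2 + 2 * γ ^ 2) * (1 + (w.im - γ) ^ 2) := by ring
      _ ≤ _ := mul_le_mul_of_nonneg_left h3 (by positivity)

private lemma SZCRs_alg (c y : ℂ) (n1 : c + y ≠ 0) (n2 : c - y ≠ 0) (n5 : 1 - y ≠ 0)
    (n6 : 2 * c + 1 + y ≠ 0) (n7 : 1 + y ≠ 0) (n8 : 2 * c + 1 - y ≠ 0) :
    (c + 1) ^ 2 / ((1 - y) * (2 * c + 1 + y)) / (c + y) +
      (c + 1) ^ 2 / ((1 + y) * (2 * c + 1 - y)) / (c - y) =
    2 * (c / ((c + y) * (c - y))) + 1 / ((1 - y) * (1 + y)) -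
      (2 * c + 1) / ((2 * c + 1 + y) * (2 * c + 1 - y)) := by
  rw [div_div, div_div, ← mul_div_assoc,
    div_add_div _ _ (mul_ne_zero (mul_ne_zero n5 n6) n1) (mul_ne_zero (mul_ne_zero n7 n8) n2),
    div_add_div _ _ (mul_ne_zero n1 n2) (mul_ne_zero n5 n7),
    div_sub_div _ _ (mul_ne_zero (mul_ne_zero n1 n2) (mul_ne_zero n5 n7)) (mul_ne_zero n6 n8),
    div_eq_div_iff
      (mul_ne_zero (mul_ne_zero (mul_ne_zero n5 n6) n1) (mul_ne_zero (mul_ne_zero n7 n8) n2))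
      (mul_ne_zero (mul_ne_zero (mul_ne_zero n1 n2) (mul_ne_zero n5 n7)) (mul_ne_zero n6 n8))]
  ring

private lemma SZCRs_ne (hc : 0 < c) {x : ℝ} (hx : x = c ∨ x = -c) (γ t : ℝ) :
    c ≤ ‖ln x t - γ * I‖ := by
  have h1 : (ln x t - γ * I).re = x := by simp
  have h2 := Complex.abs_re_le_norm (ln x t - γ * I)
  rw [h1] at h2
  rcases hx with rfl | rfl
  · rwa [abs_of_pos hc] at h2
  · rwa [abs_neg, abs_of_pos hc] at h2

private lemma SZCRs_int (hc : 0 < c) (h : SD 1 (-c) c K H) {x : ℝ} (hx : x = c ∨ x = -c) (γ : ℝ) :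
    Integrable fun t : ℝ => H (ln x t) / (ln x t - γ * I) := by
  have hxc : -c ≤ x ∧ x ≤ c := by rcases hx with rfl | rfl <;> constructor <;> linarith
  have h1 := h.integrable le_rfl hxc.1 hxc.2
  have hcont : Continuous fun t : ℝ => (ln x t - γ * I)⁻¹ := by
    refine ((continuous_ln x).sub continuous_const).inv₀ fun t h0 => ?_
    have h2 := SZCRs_ne hc hx γ t
    have h0' : ln x t - γ * I = 0 := h0
    rw [h0', norm_zero] at h2
    linarith
  refine h1.mul_bdd (c := c⁻¹) hcont.aestronglyMeasurable (Eventually.of_forall fun t => ?_)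
  rw [norm_inv]
  exact inv_anti₀ hc (SZCRs_ne hc hx γ t)

/-- the residue theorem for one simple pole on the imaginary axis -/
theorem res1 (hc : 0 < c) (h : SD n (-c) c K H) (hn : 1 ≤ n) (γ : ℝ) :
    (∫ t : ℝ, H (ln c t) / (ln c t - γ * I)) - (∫ t : ℝ, H (ln (-c) t) / (ln (-c) t - γ * I)) =
      2 * Real.pi * H (γ * I) := by
  obtain ⟨K0, hK0⟩ : ∃ K0 : ℝ, K0 = (c + 1) ^ 2 * (2 + 2 * γ ^ 2) := ⟨_, rfl⟩
  have hκ : SD 1 (-c) c K0 (SZCRs_k c γ) := by rw [hK0]; exact SZCRs_sd hc γ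
  have hH : SD 1 (-c) c K H := h.mono hn
  have hKn : 0 ≤ K := h.nonneg (by linarith)
  have hK0n : 0 ≤ K0 := hκ.nonneg (by linarith)
  obtain ⟨a, ha⟩ : ∃ a : ℂ, a = γ * I := ⟨_, rfl⟩
  have hare : a.re = 0 := by rw [ha]; simp
  have haim : a.im = γ := by rw [ha]; simp
  have hκa : SZCRs_k c γ a = 1 := by
    unfold SZCRs_k
    rw [ha, sub_self, zero_pow two_ne_zero, sub_zero]
    refine div_self (pow_ne_zero _ ?_)
    exact_mod_cast (by linarith : (c + 1 : ℝ) ≠ 0)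
  obtain ⟨F, hF⟩ : ∃ F : ℂ → ℂ, F = fun w => H w - H a * SZCRs_k c γ w := ⟨_, rfl⟩
  have hFa : F a = 0 := by rw [hF]; simp [hκa]
  have hFd : ∀ w : ℂ, -c ≤ w.re → w.re ≤ c → DifferentiableAt ℂ F w := by
    intro w h1 h2
    rw [hF]
    exact (hH.diff w h1 h2).sub ((hκ.diff w h1 h2).const_mul _)
  have hFb : ∀ w : ℂ, -c ≤ w.re → w.re ≤ c → ‖F w‖ ≤ (K + ‖H a‖ * K0) / (1 + w.im ^ 2) := by
    intro w h1 h2
    rw [hF]
    have h3 := hH.bd w h1 h2
    have h4 := hκ.bd w h1 h2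
    rw [pow_one] at h3 h4
    calc ‖H w - H a * SZCRs_k c γ w‖ ≤ ‖H w‖ + ‖H a * SZCRs_k c γ w‖ := norm_sub_le _ _
      _ ≤ K / (1 + w.im ^ 2) + ‖H a‖ * (K0 / (1 + w.im ^ 2)) := by
          rw [norm_mul]
          exact add_le_add h3 (mul_le_mul_of_nonneg_left h4 (norm_nonneg _))
      _ = _ := by ring
  obtain ⟨g, hg⟩ : ∃ g : ℂ → ℂ, g = dslope F a := ⟨_, rfl⟩
  have hgne : ∀ w, w ≠ a → g w = F w / (w - a) := by
    intro w hw
    rw [hg, dslope_of_ne _ hw, slope_def_field, hFa, sub_zero]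
  have hgd : ∀ w : ℂ, -c ≤ w.re → w.re ≤ c → DifferentiableAt ℂ g w := by
    intro w h1 h2
    rw [hg]
    by_cases hw : w = a
    · subst hw
      have hopen : IsOpen {z : ℂ | -c < z.re ∧ z.re < c} :=
        (isOpen_lt continuous_const Complex.continuous_re).inter
          (isOpen_lt Complex.continuous_re continuous_const)
      have hmem : {z : ℂ | -c < z.re ∧ z.re < c} ∈ 𝓝 w :=
        hopen.mem_nhds ⟨by rw [hare]; linarith, by rw [hare]; exact hc⟩
      have h3 : DifferentiableOn ℂ (dslope F w) {z : ℂ | -c < z.re ∧ z.re < c} :=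
        (Complex.differentiableOn_dslope hmem).2 fun z hz =>
          (hFd z hz.1.le hz.2.le).differentiableWithinAt
      exact h3.differentiableAt hmem
    · exact (differentiableAt_dslope_of_ne hw).2 (hFd w h1 h2)
  obtain ⟨M, hM⟩ : ∃ M : ℝ, ∀ w ∈ Metric.closedBall a c, ‖g w‖ ≤ M := by
    refine (isCompact_closedBall a c).exists_bound_of_continuousOn fun w hw => ?_
    have h1 : |w.re| ≤ c := by
      have h2 := Complex.abs_re_le_norm (w - a)
      rw [Complex.sub_re, hare, sub_zero] at h2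
      rw [Metric.mem_closedBall, dist_eq_norm] at hw
      exact h2.trans hw
    exact (hgd w (abs_le.1 h1).1 (abs_le.1 h1).2).continuousAt.continuousWithinAt
  have hM0 : 0 ≤ M := (norm_nonneg _).trans (hM a (Metric.mem_closedBall_self hc.le))
  have hgS : SD 1 (-c) c ((K + ‖H a‖ * K0) / c + M * (1 + (|γ| + c) ^ 2)) g := by
    refine ⟨hgd, fun w h1 h2 => ?_⟩
    rw [pow_one]
    have hpos : 0 < 1 + w.im ^ 2 := by positivity
    have hQ : 0 ≤ (K + ‖H a‖ * K0) / c := by positivity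
    by_cases hw : ‖w - a‖ ≤ c
    · have h3 := hM w (by rw [Metric.mem_closedBall, dist_eq_norm]; exact hw)
      rw [le_div_iff₀ hpos]
      have h4 : |w.im| ≤ |γ| + c := by
        have h5 := Complex.abs_im_le_norm (w - a)
        rw [Complex.sub_im, haim] at h5
        calc |w.im| = |γ + (w.im - γ)| := by ring_nf
          _ ≤ |γ| + |w.im - γ| := abs_add_le _ _
          _ ≤ |γ| + c := by linarith
      have h6 : w.im ^ 2 ≤ (|γ| + c) ^ 2 := by
        rw [← sq_abs w.im]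
        exact pow_le_pow_left₀ (abs_nonneg _) h4 2
      calc ‖g w‖ * (1 + w.im ^ 2) ≤ M * (1 + (|γ| + c) ^ 2) :=
            mul_le_mul h3 (by linarith) hpos.le hM0
        _ ≤ _ := by linarith
    · push Not at hw
      have hwa : w ≠ a := by
        rintro rfl
        rw [sub_self, norm_zero] at hw
        linarith
      rw [hgne w hwa, norm_div, le_div_iff₀ hpos]
      have h3 := hFb w h1 h2
      rw [le_div_iff₀ hpos] at h3
      have h5 : ‖F w‖ / ‖w - a‖ ≤ ‖F w‖ / c :=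
        div_le_div_of_nonneg_left (norm_nonneg _) hc hw.le
      calc ‖F w‖ / ‖w - a‖ * (1 + w.im ^ 2) ≤ ‖F w‖ / c * (1 + w.im ^ 2) :=
            mul_le_mul_of_nonneg_right h5 hpos.le
        _ = ‖F w‖ * (1 + w.im ^ 2) / c := by ring
        _ ≤ (K + ‖H a‖ * K0) / c := div_le_div_of_nonneg_right h3 hc.le
        _ ≤ _ := by
          have : 0 ≤ M * (1 + (|γ| + c) ^ 2) := by positivity
          linarith
  have hshift := hgS.shift le_rfl (by linarith)
  have hline : ∀ x : ℝ, (x = c ∨ x = -c) → ∫ t : ℝ, g (ln x t) =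
      (∫ t : ℝ, H (ln x t) / (ln x t - γ * I)) -
        H a * ∫ t : ℝ, SZCRs_k c γ (ln x t) / (ln x t - γ * I) := by
    intro x hx
    rw [← integral_const_mul, ← integral_sub (SZCRs_int hc hH hx γ)
      ((SZCRs_int hc hκ hx γ).const_mul _)]
    refine integral_congr_ae (Eventually.of_forall fun t => ?_)
    have h1 := SZCRs_ne hc hx γ t
    have h2 : ln x t ≠ a := by
      intro h0
      rw [h0, ha, sub_self, norm_zero] at h1
      linarith
    show g (ln x t) = _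
    rw [hgne _ h2, hF, ha]
    ring
  obtain ⟨A, hA⟩ : ∃ A : ℂ, A = ∫ t : ℝ, SZCRs_k c γ (ln c t) / (ln c t - γ * I) := ⟨_, rfl⟩
  obtain ⟨B, hB⟩ : ∃ B : ℂ, B = ∫ t : ℝ, SZCRs_k c γ (ln (-c) t) / (ln (-c) t - γ * I) :=
    ⟨_, rfl⟩
  have hBA : B = -A := by
    rw [hA, hB, ← integral_neg, ← integral_sub_left_eq_self
      (fun t : ℝ => SZCRs_k c γ (ln (-c) t) / (ln (-c) t - γ * I)) volume (2 * γ)]
    refine integral_congr_ae (Eventually.of_forall fun t => ?_)
    show SZCRs_k c γ (ln (-c) (2 * γ - t)) / (ln (-c) (2 * γ - t) - γ * I) =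
      -(SZCRs_k c γ (ln c t) / (ln c t - γ * I))
    have h1 : ln (-c) (2 * γ - t) - γ * I = -(ln c t - γ * I) := by
      unfold ln
      push_cast
      ring
    unfold SZCRs_k
    rw [h1, neg_sq, div_neg]
  have h2A : A + A = 2 * Real.pi := by
    have hI := SZCRs_int hc hκ (Or.inl rfl) γ
    have hA2 : A = ∫ t : ℝ, SZCRs_k c γ (ln c (2 * γ - t)) / (ln c (2 * γ - t) - γ * I) := by
      rw [hA]
      exact (integral_sub_left_eq_self
        (fun t : ℝ => SZCRs_k c γ (ln c t) / (ln c t - γ * I)) volume (2 * γ)).symm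
    have hI2 : Integrable fun t : ℝ =>
        SZCRs_k c γ (ln c (2 * γ - t)) / (ln c (2 * γ - t) - γ * I) :=
      hI.comp_sub_left (2 * γ)
    obtain ⟨p1, q1⟩ := integral_poisson hc
    obtain ⟨p2, q2⟩ := integral_poisson (x := 1) one_pos
    obtain ⟨p3, q3⟩ := integral_poisson (x := 2 * c + 1) (by linarith)
    obtain ⟨r, hr⟩ : ∃ r : ℝ → ℝ, r = fun t => 2 * (c / (c ^ 2 + t ^ 2)) +
      1 / ((1 : ℝ) ^ 2 + t ^ 2) - (2 * c + 1) / ((2 * c + 1) ^ 2 + t ^ 2) := ⟨_, rfl⟩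
    have hri : ∫ t, r t = 2 * Real.pi := by
      have i1 : Integrable fun t : ℝ => 2 * (c / (c ^ 2 + t ^ 2)) := p1.const_mul 2
      have i2 : Integrable fun t : ℝ => 2 * (c / (c ^ 2 + t ^ 2)) + 1 / ((1 : ℝ) ^ 2 + t ^ 2) :=
        i1.add p2
      rw [hr]
      show ∫ t : ℝ, (2 * (c / (c ^ 2 + t ^ 2)) + 1 / ((1 : ℝ) ^ 2 + t ^ 2) -
        (2 * c + 1) / ((2 * c + 1) ^ 2 + t ^ 2)) = _
      rw [integral_sub i2 p3, integral_add i1 p2, integral_const_mul, q1, q2, q3]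
      ring
    have hsum : A + A = ∫ t : ℝ, ((r (t - γ) : ℝ) : ℂ) := by
      nth_rewrite 2 [hA2]
      rw [hA, ← integral_add hI hI2]
      refine integral_congr_ae (Eventually.of_forall fun t => ?_)
      show SZCRs_k c γ (ln c t) / (ln c t - γ * I) +
        SZCRs_k c γ (ln c (2 * γ - t)) / (ln c (2 * γ - t) - γ * I) = ((r (t - γ) : ℝ) : ℂ)
      obtain ⟨s, hs⟩ : ∃ s : ℝ, s = t - γ := ⟨_, rfl⟩
      have e1 : ln c t - γ * I = (c : ℂ) + s * I := by
        rw [hs]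
        unfold ln
        push_cast
        ring
      have e2 : ln c (2 * γ - t) - γ * I = (c : ℂ) - s * I := by
        rw [hs]
        unfold ln
        push_cast
        ring
      unfold SZCRs_k
      rw [e1, e2, ← hs, hr]
      push_cast
      have hI2' : I ^ 2 = -1 := Complex.I_sq
      have hcR : (0 : ℝ) < c := hc
      have n1 : (c : ℂ) + s * I ≠ 0 := by
        intro h0
        have := congrArg Complex.re h0
        simp at this
        linarith
      have n2 : (c : ℂ) - s * I ≠ 0 := by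
        intro h0
        have := congrArg Complex.re h0
        simp at this
        linarith
      have n3 : ((c : ℂ) + 1) ^ 2 - ((c : ℂ) + s * I) ^ 2 ≠ 0 := by
        intro h0
        have h1 := congrArg Complex.re h0
        simp [pow_two] at h1
        nlinarith [sq_nonneg s]
      have n4 : ((c : ℂ) + 1) ^ 2 - ((c : ℂ) - s * I) ^ 2 ≠ 0 := by
        intro h0
        have h1 := congrArg Complex.re h0
        simp [pow_two] at h1
        nlinarith [sq_nonneg s]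
      have m1 : (c : ℂ) ^ 2 + (s : ℂ) ^ 2 ≠ 0 := by
        have : (0 : ℝ) < c ^ 2 + s ^ 2 := by positivity
        exact_mod_cast this.ne'
      have m2 : (1 : ℂ) ^ 2 + (s : ℂ) ^ 2 ≠ 0 := by
        have : (0 : ℝ) < 1 ^ 2 + s ^ 2 := by positivity
        exact_mod_cast this.ne'
      have m3 : (2 * (c : ℂ) + 1) ^ 2 + (s : ℂ) ^ 2 ≠ 0 := by
        have : (0 : ℝ) < (2 * c + 1) ^ 2 + s ^ 2 := by positivity
        exact_mod_cast this.ne'
      have f1 : (c : ℂ) ^ 2 + (s : ℂ) ^ 2 = ((c : ℂ) + s * I) * ((c : ℂ) - s * I) := by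
        linear_combination (s : ℂ) ^ 2 * hI2'
      have f2 : ((c : ℂ) + 1) ^ 2 - ((c : ℂ) + s * I) ^ 2 = (1 - s * I) * (2 * c + 1 + s * I) := by
        ring
      have f3 : ((c : ℂ) + 1) ^ 2 - ((c : ℂ) - s * I) ^ 2 = (1 + s * I) * (2 * c + 1 - s * I) := by
        ring
      have f4 : (1 : ℂ) ^ 2 + (s : ℂ) ^ 2 = (1 - s * I) * (1 + s * I) := by
        linear_combination (s : ℂ) ^ 2 * hI2'
      have f5 : (2 * (c : ℂ) + 1) ^ 2 + (s : ℂ) ^ 2 =
          (2 * c + 1 + s * I) * (2 * c + 1 - s * I) := by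
        linear_combination (s : ℂ) ^ 2 * hI2'
      rw [f2] at n3 ⊢
      rw [f3] at n4 ⊢
      rw [f1, f4, f5]
      have n5 := left_ne_zero_of_mul n3
      have n6 := right_ne_zero_of_mul n3
      have n7 := left_ne_zero_of_mul n4
      have n8 := right_ne_zero_of_mul n4
      exact SZCRs_alg c (s * I) n1 n2 n5 n6 n7 n8
    rw [hsum, integral_complex_ofReal, integral_sub_right_eq_self (fun t => r t) γ, hri]
    push_cast
    ring
  rw [hline c (Or.inl rfl), hline (-c) (Or.inr rfl), ← hA, ← hB, hBA, ha] at hshift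
  linear_combination (H (γ * I)) * h2A - hshift

end Pool.Agent.H53.SZC
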