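import Mathlib
import Pool.Agent.H53.SZC.Rs
import Pool.Agent.H5.ModuleA

/-!
# MP_103a5c_SZ, block C, row Ex (about 220 lines): the exact explicit formula (under RH)

Tools: `H5.xi0_evenHad hRH : ∃ A, EvenHad xi0 A`; `EvenHad.hasSum : Re w ≠ 0 → HasSum (fun γ : zerosIm xi0 => (mult xi0 γ : ℂ) * (w / (w² + γ²))) (logDeriv xi0 w)`;
`EvenHad.summable : Summable fun γ : zerosIm xi0 => (mult xi0 γ : ℝ) * (1 / (1 + γ²))`; `H5.mult_eq`, `H5.zerosIm_eq : zerosIm xi0 = PC.Z`, `mult_neg`, `neg_mem_zerosIm`, `negZ hf` (the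
equivalence `γ ↦ -γ` of `zerosIm xi0`), `H5.Z_countable`.

## Proofs
* `low`: `1 + γ² ≤ ((1 + 2t²)/c² + 2) |w² + γ²|` for `w = ln (±c) t` (see the proof of `norm_sq_add_lower` in `Pool/Agent/H5/PartialFrac.lean`, where the constant is exactly this one).
* `expl`: let `c > 0`, `SD 3 (-c) c K H`.  For `γ ∈ zerosIm xi0` put `f_γ(w) = m_γ H(w) w/(w²+γ²)`.  On `w = ln (±c) t`: `|f_γ| ≤ m_γ K (1+t²)^(-3) (c + |t|) ((1+2t²)/c² + 2)/(1+γ²) ≤ C m_γ (1+γ²)⁻¹ (1+t²)⁻¹`, so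
  `∑_γ ∫ |f_γ| < ∞` and `hasSum_integral_of_summable_integral_norm` (countable index set) gives `HasSum (∫ f_γ(ln (±c) t) dt) (∫ ∑' f_γ) = ∫ H(ln (±c) t) logDeriv xi0 (ln (±c) t) dt` (`EvenHad.hasSum`, `tsum_mul_left`).
  For each `γ`: `w/(w²+γ²) = (1/2)(1/(w - iγ) + 1/(w + iγ))` and `res1` for `γ` and `-γ`:
  `∫ f_γ(ln c t) - ∫ f_γ(ln (-c) t) = m_γ (1/2)(2π H(iγ) + 2π H(-iγ)) = π m_γ (H(iγ) + H(-iγ))`.
  So `HasSum (fun γ => (1/2) m_γ (H(iγ) + H(-iγ))) ((2π)⁻¹ (...))`.  Both `m_γ H(iγ)` and `m_γ H(-iγ)` are summable (`|H(iγ)| ≤ K/(1+γ²)`, `EvenHad.summable`) and have the same sum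
  (`negZ`, `mult_neg`), hence the claim.  Transfer from `zerosIm xi0` to `PC.Z` by `zerosIm_eq` (e.g. first prove it for `zerosIm xi0`, then `rw` the set in a general statement
  `∀ S : Set ℝ, S = zerosIm xi0 → HasSum (fun γ : S => ..) ..`, by `subst`), `mult_eq`.
* `logDeriv_symm`: from `EvenHad.hasSum` for `w` and `-conj w`: the terms are `-conj` of each other (`(-conj w)² + γ² = conj (w² + γ²)`), `HasSum.map` / `Complex.hasSum_conj'`, uniqueness.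
* `expl_symm`: if `H(-conj w) = conj (H w)` for all `w`, then with `w = ln c t`, `-conj w = ln (-c) t`: `H(ln (-c) t) logDeriv xi0 (ln (-c) t) = -conj (H(ln c t) logDeriv xi0 (ln c t))`, `integral_conj`, so
  `(2π)⁻¹ (J + conj J) = π⁻¹ Re J`; and `H(iγ)` is real (`-conj (iγ) = iγ`): take real parts (`Complex.hasSum_re`).
-/

set_option autoImplicit false

open Complex MeasureTheory Filter Topology Set

namespace Pool.Agent.H53.SZC

open Pool.Agent.H5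

variable {c K : ℝ} {H : ℂ → ℂ}

theorem low {x t : ℝ} (hx : x ≠ 0) (γ : ℝ) :
    1 + γ ^ 2 ≤ ((1 + 2 * t ^ 2) / x ^ 2 + 2) * ‖ln x t ^ 2 + (γ : ℂ) ^ 2‖ := by
  have ha2 : 0 < x ^ 2 := by positivity
  obtain ⟨K, hK⟩ : ∃ K : ℝ, K = (1 + 2 * t ^ 2) / x ^ 2 + 2 := ⟨_, rfl⟩
  rw [← hK]
  have hKpos : 0 < K := by rw [hK]; positivity
  have key : ∀ γ : ℝ, 1 + γ ^ 2 ≤ K * (x ^ 2 + (t - γ) ^ 2) := by
    intro γ
    have h1 : K * (x ^ 2 + (t - γ) ^ 2) = (1 + 2 * t ^ 2) + 2 * x ^ 2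
        + (1 + 2 * t ^ 2) / x ^ 2 * (t - γ) ^ 2 + 2 * (t - γ) ^ 2 := by
      rw [hK]; field_simp; ring
    rw [h1]
    have h2 : 0 ≤ (1 + 2 * t ^ 2) / x ^ 2 * (t - γ) ^ 2 := by positivity
    nlinarith [sq_nonneg (γ - 2 * t), sq_nonneg x]
  have key2 : ∀ γ : ℝ, 1 + γ ^ 2 ≤ K * (x ^ 2 + (t + γ) ^ 2) := by
    intro γ
    have := key (-γ)
    simpa using this
  have h1 : ln x t ^ 2 + (γ:ℂ) ^ 2 = (ln x t - γ * I) * (ln x t + γ * I) := by
    ring_nf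
    rw [I_sq]; ring
  have hn1 : ‖ln x t - γ * I‖ ^ 2 = x ^ 2 + (t - γ) ^ 2 := by
    rw [← normSq_eq_norm_sq, normSq_apply]
    simp
    ring
  have hn2 : ‖ln x t + γ * I‖ ^ 2 = x ^ 2 + (t + γ) ^ 2 := by
    rw [← normSq_eq_norm_sq, normSq_apply]
    simp
    ring
  have h3 : (1 + γ ^ 2) ^ 2 ≤ (K * ‖ln x t ^ 2 + (γ:ℂ) ^ 2‖) ^ 2 := by
    rw [h1, norm_mul, mul_pow, mul_pow, hn1, hn2, sq (1 + γ ^ 2)]
    calc (1 + γ ^ 2) * (1 + γ ^ 2) ≤ (K * (x ^ 2 + (t - γ) ^ 2)) * (K * (x ^ 2 + (t + γ) ^ 2)) :=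
          mul_le_mul (key γ) (key2 γ) (by positivity) (by positivity)
      _ = _ := by ring
  exact (pow_le_pow_iff_left₀ (by positivity) (by positivity) two_ne_zero).1 h3

private lemma SZCEx_ne {x t : ℝ} (hx : x ≠ 0) (γ : ℝ) : 0 < ‖ln x t ^ 2 + (γ : ℂ) ^ 2‖ := by
  have h1 := low (x := x) (t := t) hx γ
  by_contra h
  have h0 : ‖ln x t ^ 2 + (γ : ℂ) ^ 2‖ = 0 := le_antisymm (not_lt.1 h) (norm_nonneg _)
  rw [h0, mul_zero] at h1
  nlinarith [sq_nonneg γ]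

/-- one term -/
private lemma SZCEx_term {x t : ℝ} (hx : x ≠ 0) (γ : ℝ) (m : ℕ) :
    ‖(m : ℂ) * (ln x t / (ln x t ^ 2 + (γ : ℂ) ^ 2))‖
      ≤ ‖ln x t‖ * ((1 + 2 * t ^ 2) / x ^ 2 + 2) * ((m : ℝ) * (1 / (1 + γ ^ 2))) := by
  have h1 := low (x := x) (t := t) hx γ
  have h2 : 0 < 1 + γ ^ 2 := by positivity
  have h3 := SZCEx_ne (t := t) hx γ
  rw [norm_mul, norm_div, Complex.norm_natCast]
  have h4 : ‖ln x t‖ / ‖ln x t ^ 2 + (γ : ℂ) ^ 2‖
      ≤ ‖ln x t‖ * ((1 + 2 * t ^ 2) / x ^ 2 + 2) * (1 / (1 + γ ^ 2)) := by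
    rw [mul_one_div, div_le_div_iff₀ h3 h2]
    nlinarith [norm_nonneg (ln x t)]
  calc (m : ℝ) * (‖ln x t‖ / ‖ln x t ^ 2 + (γ : ℂ) ^ 2‖)
      ≤ (m : ℝ) * (‖ln x t‖ * ((1 + 2 * t ^ 2) / x ^ 2 + 2) * (1 / (1 + γ ^ 2))) := by gcongr
    _ = _ := by ring

/-- the constant -/
private noncomputable def SZCEx_C (c K : ℝ) : ℝ := K * ((c + 1) * (2 / c ^ 2 + 2))

private lemma SZCEx_bnd (hc : 0 < c) (h : SD 3 (-c) c K H) {x : ℝ} (hx : x = c ∨ x = -c) (t : ℝ) :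
    ‖H (ln x t)‖ * (‖ln x t‖ * ((1 + 2 * t ^ 2) / x ^ 2 + 2)) ≤ SZCEx_C c K * (1 + t ^ 2)⁻¹ := by
  have hK : 0 ≤ K := h.nonneg (by linarith)
  have hx1 : -c ≤ x := by rcases hx with h | h <;> rw [h] <;> linarith
  have hx2 : x ≤ c := by rcases hx with h | h <;> rw [h] <;> linarith
  have hxs : x ^ 2 = c ^ 2 := by rcases hx with h | h <;> rw [h] <;> ring
  have hxa : |x| = c := by
    rcases hx with h | h
    · rw [h, abs_of_pos hc]
    · rw [h, abs_neg, abs_of_pos hc]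
  have h1 := h.bd (ln x t) (by rw [ln_re]; exact hx1) (by rw [ln_re]; exact hx2)
  rw [ln_im] at h1
  have ht0 : 0 ≤ t ^ 2 := sq_nonneg t
  have h2 : ‖ln x t‖ ≤ (c + 1) * (1 + t ^ 2) := by
    have h3 : ‖ln x t‖ ≤ |x| + |t| := by
      unfold ln
      refine (norm_add_le _ _).trans ?_
      rw [norm_mul, norm_I, mul_one, Complex.norm_real, Complex.norm_real, Real.norm_eq_abs,
        Real.norm_eq_abs]
    have h4 : |t| ≤ 1 + t ^ 2 := by
      have := sq_nonneg (|t| - 1)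
      have h5 := sq_abs t
      nlinarith [abs_nonneg t]
    rw [hxa] at h3
    nlinarith
  have h6 : (1 + 2 * t ^ 2) / x ^ 2 + 2 ≤ (2 / c ^ 2 + 2) * (1 + t ^ 2) := by
    rw [hxs]
    have hc2 : 0 < c ^ 2 := by positivity
    have : (1 + 2 * t ^ 2) / c ^ 2 ≤ 2 / c ^ 2 * (1 + t ^ 2) := by
      rw [div_mul_eq_mul_div]
      exact div_le_div_of_nonneg_right (by linarith) hc2.le
    linarith
  have h7 : 0 ≤ (1 + 2 * t ^ 2) / x ^ 2 + 2 := by positivity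
  have h8 : 0 < 1 + t ^ 2 := by positivity
  calc ‖H (ln x t)‖ * (‖ln x t‖ * ((1 + 2 * t ^ 2) / x ^ 2 + 2))
      ≤ K / (1 + t ^ 2) ^ 3 * (((c + 1) * (1 + t ^ 2)) * ((2 / c ^ 2 + 2) * (1 + t ^ 2))) := by
        apply mul_le_mul h1 (mul_le_mul h2 h6 h7 (by positivity)) (by positivity) (by positivity)
    _ = _ := by
        unfold SZCEx_C
        field_simp

private lemma SZCEx_Cint (c K : ℝ) : Integrable fun t : ℝ => SZCEx_C c K * (1 + t ^ 2)⁻¹ :=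
  integrable_inv_one_add_sq.const_mul _

private lemma SZCEx_meas (h : SD 3 (-c) c K H) {x : ℝ} (hx1 : -c ≤ x) (hx2 : x ≤ c) (γ : ℝ) (m : ℕ) :
    AEStronglyMeasurable (fun t : ℝ => (m : ℂ) * (H (ln x t) * (ln x t / (ln x t ^ 2 + (γ : ℂ) ^ 2)))) volume := by
  have h1 : Measurable (fun t : ℝ => H (ln x t)) := (h.continuous hx1 hx2).measurable
  have h2 : Measurable (fun t : ℝ => ln x t) := (continuous_ln x).measurable
  exact (measurable_const.mul (h1.mul (h2.div ((h2.pow_const 2).add measurable_const)))).aestronglyMeasurable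

/-- the sum over the zeros on one line -/
private lemma SZCEx_line (hRH : RiemannHypothesis) (hc : 0 < c) (h : SD 3 (-c) c K H) {x : ℝ}
    (hx : x = c ∨ x = -c) :
    (∀ γ : zerosIm xi0, Integrable fun t : ℝ =>
      (mult xi0 γ : ℂ) * (H (ln x t) * (ln x t / (ln x t ^ 2 + ((γ : ℝ) : ℂ) ^ 2)))) ∧
    HasSum (fun γ : zerosIm xi0 => ∫ t : ℝ,
      (mult xi0 γ : ℂ) * (H (ln x t) * (ln x t / (ln x t ^ 2 + ((γ : ℝ) : ℂ) ^ 2))))
      (∫ t : ℝ, H (ln x t) * logDeriv xi0 (ln x t)) ∧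
    Integrable (fun t : ℝ => H (ln x t) * logDeriv xi0 (ln x t)) := by
  obtain ⟨A, hA⟩ := xi0_evenHad hRH
  have hx0 : x ≠ 0 := by rcases hx with h | h <;> rw [h] <;> [exact hc.ne'; exact (neg_neg_of_pos hc).ne]
  have hx1 : -c ≤ x := by rcases hx with h | h <;> rw [h] <;> linarith
  have hx2 : x ≤ c := by rcases hx with h | h <;> rw [h] <;> linarith
  have hcount : Countable (zerosIm xi0) := by
    rw [zerosIm_eq]
    exact Z_countable.to_subtype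
  have hbd : ∀ (γ : zerosIm xi0) (t : ℝ),
      ‖(mult xi0 γ : ℂ) * (H (ln x t) * (ln x t / (ln x t ^ 2 + ((γ : ℝ) : ℂ) ^ 2)))‖
        ≤ ((mult xi0 γ : ℝ) * (1 / (1 + (γ : ℝ) ^ 2))) * (SZCEx_C c K * (1 + t ^ 2)⁻¹) := by
    intro γ t
    have h1 := SZCEx_term (t := t) hx0 (γ : ℝ) (mult xi0 γ)
    have h2 := SZCEx_bnd hc h hx t
    have e1 : (mult xi0 γ : ℂ) * (H (ln x t) * (ln x t / (ln x t ^ 2 + ((γ : ℝ) : ℂ) ^ 2)))
        = H (ln x t) * ((mult xi0 γ : ℂ) * (ln x t / (ln x t ^ 2 + ((γ : ℝ) : ℂ) ^ 2))) := by ring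
    rw [e1, norm_mul]
    calc ‖H (ln x t)‖ * ‖(mult xi0 γ : ℂ) * (ln x t / (ln x t ^ 2 + ((γ : ℝ) : ℂ) ^ 2))‖
        ≤ ‖H (ln x t)‖ * (‖ln x t‖ * ((1 + 2 * t ^ 2) / x ^ 2 + 2)
          * ((mult xi0 γ : ℝ) * (1 / (1 + (γ : ℝ) ^ 2)))) :=
          mul_le_mul_of_nonneg_left h1 (norm_nonneg _)
      _ = ((mult xi0 γ : ℝ) * (1 / (1 + (γ : ℝ) ^ 2)))
          * (‖H (ln x t)‖ * (‖ln x t‖ * ((1 + 2 * t ^ 2) / x ^ 2 + 2))) := by ring
      _ ≤ _ := mul_le_mul_of_nonneg_left h2 (by positivity)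
  have hint : ∀ γ : zerosIm xi0, Integrable fun t : ℝ =>
      (mult xi0 γ : ℂ) * (H (ln x t) * (ln x t / (ln x t ^ 2 + ((γ : ℝ) : ℂ) ^ 2))) := by
    intro γ
    exact ((SZCEx_Cint c K).const_mul _).mono' (SZCEx_meas h hx1 hx2 γ _)
      (Filter.Eventually.of_forall (hbd γ))
  have hsumm : Summable fun γ : zerosIm xi0 => ∫ t : ℝ,
      ‖(mult xi0 γ : ℂ) * (H (ln x t) * (ln x t / (ln x t ^ 2 + ((γ : ℝ) : ℂ) ^ 2)))‖ := by
    refine Summable.of_nonneg_of_le (fun γ => integral_nonneg fun t => norm_nonneg _) (fun γ => ?_)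
      (hA.summable.mul_right (∫ t : ℝ, SZCEx_C c K * (1 + t ^ 2)⁻¹))
    rw [← integral_const_mul]
    exact integral_mono (hint γ).norm ((SZCEx_Cint c K).const_mul _) (hbd γ)
  have hts : ∀ t : ℝ, HasSum (fun γ : zerosIm xi0 =>
      (mult xi0 γ : ℂ) * (H (ln x t) * (ln x t / (ln x t ^ 2 + ((γ : ℝ) : ℂ) ^ 2))))
      (H (ln x t) * logDeriv xi0 (ln x t)) := by
    intro t
    have hw : (ln x t).re ≠ 0 := by rw [ln_re]; exact hx0
    refine ((hA.hasSum hw).mul_left (H (ln x t))).congr_fun fun γ => ?_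
    ring
  refine ⟨hint, ?_, ?_⟩
  · have h3 := hasSum_integral_of_summable_integral_norm hint hsumm
    have e : (fun t : ℝ => ∑' γ : zerosIm xi0,
        (mult xi0 γ : ℂ) * (H (ln x t) * (ln x t / (ln x t ^ 2 + ((γ : ℝ) : ℂ) ^ 2))))
        = fun t : ℝ => H (ln x t) * logDeriv xi0 (ln x t) := by
      funext t
      exact (hts t).tsum_eq
    rw [e] at h3
    exact h3
  · have hm : AEStronglyMeasurable (fun t : ℝ => H (ln x t) * logDeriv xi0 (ln x t)) volume := by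
      have h1 : Measurable (fun t : ℝ => H (ln x t)) := (h.continuous hx1 hx2).measurable
      have h2 : Measurable (fun w : ℂ => logDeriv xi0 w) := by
        have e : (fun w : ℂ => logDeriv xi0 w) = fun w => deriv xi0 w / xi0 w := by
          funext w; rfl
        rw [e]
        exact (measurable_deriv xi0).div xi0_differentiable.continuous.measurable
      exact (h1.mul (h2.comp (continuous_ln x).measurable)).aestronglyMeasurable
    refine ((SZCEx_Cint c K).const_mul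
      (∑' γ : zerosIm xi0, (mult xi0 γ : ℝ) * (1 / (1 + (γ:ℝ) ^ 2)))).mono' hm
      (Filter.Eventually.of_forall fun t => ?_)
    have h5 : HasSum (fun γ : zerosIm xi0 =>
        ((mult xi0 γ : ℝ) * (1 / (1 + (γ : ℝ) ^ 2))) * (SZCEx_C c K * (1 + t ^ 2)⁻¹))
        ((∑' γ : zerosIm xi0, (mult xi0 γ : ℝ) * (1 / (1 + (γ:ℝ) ^ 2))) * (SZCEx_C c K * (1 + t ^ 2)⁻¹)) :=
      hA.summable.hasSum.mul_right _
    exact (hts t).norm_le_of_bounded h5 (fun γ => hbd γ t)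

private lemma SZCEx_div (h : SD 3 (-c) c K H) {x : ℝ} (hx0 : x ≠ 0) (hx1 : -c ≤ x) (hx2 : x ≤ c)
    (γ : ℝ) : Integrable fun t : ℝ => H (ln x t) / (ln x t - γ * I) := by
  have h1 : Measurable (fun t : ℝ => H (ln x t)) := (h.continuous hx1 hx2).measurable
  have h2 : Measurable (fun t : ℝ => ln x t) := (continuous_ln x).measurable
  refine ((h.integrable (by norm_num) hx1 hx2).norm.mul_const (|x|⁻¹)).mono'
    (h1.div (h2.sub measurable_const)).aestronglyMeasurable (Filter.Eventually.of_forall fun t => ?_)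
  rw [norm_div, div_eq_mul_inv]
  apply mul_le_mul_of_nonneg_left _ (norm_nonneg _)
  have h3 : |x| ≤ ‖ln x t - γ * I‖ := by
    have := Complex.abs_re_le_norm (ln x t - γ * I)
    simpa using this
  exact inv_anti₀ (abs_pos.mpr hx0) h3

private lemma SZCEx_pf (h : SD 3 (-c) c K H) {x : ℝ} (hx0 : x ≠ 0) (hx1 : -c ≤ x) (hx2 : x ≤ c)
    (γ : ℝ) (m : ℕ) :
    ∫ t : ℝ, (m : ℂ) * (H (ln x t) * (ln x t / (ln x t ^ 2 + (γ : ℂ) ^ 2)))
      = (m : ℂ) * (1 / 2 * ((∫ t : ℝ, H (ln x t) / (ln x t - γ * I))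
        + ∫ t : ℝ, H (ln x t) / (ln x t - ((-γ : ℝ) : ℂ) * I))) := by
  rw [← integral_add (SZCEx_div h hx0 hx1 hx2 γ) (SZCEx_div h hx0 hx1 hx2 (-γ)), ← integral_const_mul,
    ← integral_const_mul]
  congr 1
  funext t
  have hn : ∀ δ : ℝ, ln x t - δ * I ≠ 0 := by
    intro δ h0
    apply hx0
    have := congrArg Complex.re h0
    simpa using this
  have h1 := hn γ
  have e2 : ln x t - ((-γ : ℝ) : ℂ) * I = ln x t + γ * I := by
    push_cast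
    ring
  have h2 : ln x t + γ * I ≠ 0 := by
    rw [← e2]
    exact hn (-γ)
  have e : ln x t ^ 2 + (γ : ℂ) ^ 2 = (ln x t - γ * I) * (ln x t + γ * I) := by
    ring_nf
    rw [I_sq]; ring
  rw [e, e2]
  field_simp
  ring

/-- the exact explicit formula -/
theorem expl (hRH : RiemannHypothesis) (hc : 0 < c) (h : SD 3 (-c) c K H) :
    HasSum (fun γ : PC.Z => (PC.m γ : ℂ) * H ((γ : ℝ) * I))
      ((2 * Real.pi : ℂ)⁻¹ * ((∫ t : ℝ, H (ln c t) * logDeriv xi0 (ln c t)) -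
        ∫ t : ℝ, H (ln (-c) t) * logDeriv xi0 (ln (-c) t))) := by
  obtain ⟨A, hA⟩ := xi0_evenHad hRH
  obtain ⟨-, h1, -⟩ := SZCEx_line hRH hc h (Or.inl rfl)
  obtain ⟨-, h2, -⟩ := SZCEx_line hRH hc h (Or.inr rfl)
  have hK : 0 ≤ K := h.nonneg (by linarith)
  have h3 := h1.sub h2
  have hpt : ∀ γ : zerosIm xi0,
      (∫ t : ℝ, (mult xi0 γ : ℂ) * (H (ln c t) * (ln c t / (ln c t ^ 2 + ((γ : ℝ) : ℂ) ^ 2))))
      - (∫ t : ℝ, (mult xi0 γ : ℂ) * (H (ln (-c) t) * (ln (-c) t / (ln (-c) t ^ 2 + ((γ : ℝ) : ℂ) ^ 2))))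
      = Real.pi * ((mult xi0 γ : ℂ) * H ((γ : ℝ) * I) + (mult xi0 γ : ℂ) * H (((-γ : ℝ) : ℂ) * I)) := by
    intro γ
    rw [SZCEx_pf h hc.ne' (by linarith) le_rfl, SZCEx_pf h (neg_neg_of_pos hc).ne le_rfl (by linarith)]
    have r1 := res1 hc h (by norm_num) (γ : ℝ)
    have r2 := res1 hc h (by norm_num) (-(γ : ℝ))
    linear_combination (mult xi0 γ : ℂ) * (1 / 2) * r1 + (mult xi0 γ : ℂ) * (1 / 2) * r2
  have hsum : Summable (fun γ : zerosIm xi0 => (mult xi0 γ : ℂ) * H ((γ : ℝ) * I)) := by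
    refine Summable.of_norm_bounded (hA.summable.mul_left K) fun γ => ?_
    have hb := h.bd ((γ : ℝ) * I) (by simp; linarith) (by simp; linarith)
    have him : (((γ : ℝ) : ℂ) * I).im = γ := by simp
    rw [him] at hb
    rw [norm_mul, Complex.norm_natCast]
    have h5 : K / (1 + (γ : ℝ) ^ 2) ^ 3 ≤ K * (1 / (1 + (γ : ℝ) ^ 2)) := by
      rw [mul_one_div]
      apply div_le_div_of_nonneg_left hK (by positivity)
      have : (1 : ℝ) ≤ 1 + (γ : ℝ) ^ 2 := by nlinarith [sq_nonneg (γ : ℝ)]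
      calc 1 + (γ : ℝ) ^ 2 = (1 + (γ : ℝ) ^ 2) ^ 1 := (pow_one _).symm
        _ ≤ _ := pow_le_pow_right₀ this (by norm_num)
    calc (mult xi0 γ : ℝ) * ‖H ((γ : ℝ) * I)‖ ≤ (mult xi0 γ : ℝ) * (K * (1 / (1 + (γ : ℝ) ^ 2))) :=
          mul_le_mul_of_nonneg_left (hb.trans h5) (by positivity)
      _ = _ := by ring
  obtain ⟨S, hS⟩ : ∃ S, S = ∑' γ : zerosIm xi0, (mult xi0 γ : ℂ) * H ((γ : ℝ) * I) := ⟨_, rfl⟩
  have ha : HasSum (fun γ : zerosIm xi0 => (mult xi0 γ : ℂ) * H ((γ : ℝ) * I)) S := by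
    rw [hS]; exact hsum.hasSum
  have hb : HasSum (fun γ : zerosIm xi0 => (mult xi0 γ : ℂ) * H (((-γ : ℝ) : ℂ) * I)) S := by
    have h6 := (negZ hA).hasSum_iff.2 ha
    refine h6.congr_fun ?_
    intro γ
    simp only [Function.comp_apply, negZ, Equiv.coe_fn_mk]
    rw [mult_neg hA]
  have h7 := (ha.add hb).mul_left (Real.pi : ℂ)
  have h8 : (∫ t : ℝ, H (ln c t) * logDeriv xi0 (ln c t)) -
      (∫ t : ℝ, H (ln (-c) t) * logDeriv xi0 (ln (-c) t)) = Real.pi * (S + S) := by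
    have h9 := h3.congr_fun (g := fun γ : zerosIm xi0 =>
      Real.pi * ((mult xi0 γ : ℂ) * H ((γ : ℝ) * I) + (mult xi0 γ : ℂ) * H (((-γ : ℝ) : ℂ) * I)))
      (fun γ => (hpt γ).symm)
    exact h9.unique h7
  have hpi : (Real.pi : ℂ) ≠ 0 := by exact_mod_cast Real.pi_ne_zero
  have h10 : (2 * Real.pi : ℂ)⁻¹ * ((∫ t : ℝ, H (ln c t) * logDeriv xi0 (ln c t)) -
      (∫ t : ℝ, H (ln (-c) t) * logDeriv xi0 (ln (-c) t))) = S := by
    rw [h8]
    field_simp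
    ring
  rw [h10]
  have h11 : HasSum (fun γ : zerosIm xi0 => (PC.m γ : ℂ) * H ((γ : ℝ) * I)) S := by
    refine ha.congr_fun fun γ => ?_
    rw [mult_eq]
  rw [zerosIm_eq] at h11
  exact h11

theorem logDeriv_symm (hRH : RiemannHypothesis) {w : ℂ} (hw : w.re ≠ 0) :
    logDeriv xi0 (-(starRingEnd ℂ) w) = -(starRingEnd ℂ) (logDeriv xi0 w) := by
  obtain ⟨A, hA⟩ := xi0_evenHad hRH
  have hw' : (-(starRingEnd ℂ) w).re ≠ 0 := by
    rw [neg_re, conj_re]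
    exact neg_ne_zero.mpr hw
  have h1 := hA.hasSum hw'
  have h2 := ((hA.hasSum hw).map (starRingEnd ℂ) Complex.continuous_conj).neg
  refine h1.unique (h2.congr_fun fun γ => ?_)
  simp only [Function.comp_apply, map_mul, map_div₀, map_add, map_pow, Complex.conj_ofReal, map_natCast]
  rw [neg_sq]
  ring

/-- the integrand of `expl` is integrable -/
theorem integrable_mul_logDeriv (hRH : RiemannHypothesis) (hc : 0 < c) (h : SD 3 (-c) c K H) :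
    Integrable (fun t : ℝ => H (ln c t) * logDeriv xi0 (ln c t)) :=
  (SZCEx_line hRH hc h (Or.inl rfl)).2.2

/-- the symmetric form -/
theorem expl_symm (hRH : RiemannHypothesis) (hc : 0 < c) (h : SD 3 (-c) c K H)
    (hs : ∀ w, H (-(starRingEnd ℂ) w) = (starRingEnd ℂ) (H w)) :
    HasSum (fun γ : PC.Z => (PC.m γ : ℝ) * (H ((γ : ℝ) * I)).re)
      (Real.pi⁻¹ * (∫ t : ℝ, H (ln c t) * logDeriv xi0 (ln c t)).re) := by
  have h1 := expl hRH hc h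
  have e1 : ∀ t : ℝ, ln (-c) t = -(starRingEnd ℂ) (ln c t) := by
    intro t
    unfold ln
    simp only [map_add, map_mul, Complex.conj_ofReal, Complex.conj_I]
    push_cast
    ring
  have e2 : (∫ t : ℝ, H (ln (-c) t) * logDeriv xi0 (ln (-c) t))
      = -(starRingEnd ℂ) (∫ t : ℝ, H (ln c t) * logDeriv xi0 (ln c t)) := by
    rw [← integral_conj, ← integral_neg]
    congr 1
    funext t
    rw [e1, hs, logDeriv_symm hRH (by rw [ln_re]; exact hc.ne'), map_mul]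
    ring
  rw [e2, sub_neg_eq_add, Complex.add_conj] at h1
  have h2 := Complex.hasSum_re h1
  have hpi : (Real.pi : ℂ) ≠ 0 := by exact_mod_cast Real.pi_ne_zero
  have e3 : ((2 * Real.pi : ℂ)⁻¹ * (2 * ((∫ t : ℝ, H (ln c t) * logDeriv xi0 (ln c t)).re : ℝ) : ℂ)).re
      = Real.pi⁻¹ * (∫ t : ℝ, H (ln c t) * logDeriv xi0 (ln c t)).re := by
    have e4 : ((2 * Real.pi : ℂ)⁻¹ * (2 * ((∫ t : ℝ, H (ln c t) * logDeriv xi0 (ln c t)).re : ℝ) : ℂ))
        = ((Real.pi⁻¹ * (∫ t : ℝ, H (ln c t) * logDeriv xi0 (ln c t)).re : ℝ) : ℂ) := by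
      push_cast
      field_simp
    rw [e4, Complex.ofReal_re]
  have h3 : HasSum (fun γ : PC.Z => (PC.m γ : ℝ) * (H ((γ : ℝ) * I)).re)
      (((2 * Real.pi : ℂ)⁻¹ * (2 * ((∫ t : ℝ, H (ln c t) * logDeriv xi0 (ln c t)).re : ℝ) : ℂ)).re) := by
    have h2' := h2
    refine (by simpa using h2' : HasSum _ _).congr_fun fun γ => ?_
    simp
  rw [e3] at h3
  exact h3

end Pool.Agent.H53.SZC
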