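import Mathlib
import Pool.Agent.H53.SZC.Df
import Pool.Agent.H5.ModuleA
import Pool.Agent.H4.Arch

/-!
# MP_103a5c_SZ, block C, row Ar (about 220 lines): the archimedean part

`Ar w = 1/(1/2 + w) + 1/((1/2 + w) - 1) + logDeriv Gammaℝ (1/2 + w)`.

## Proofs
* `Ar_add`: `H5.logDeriv_xi0` (`Pool/Agent/H5/ZetaForm.lean`), `logDeriv_apply`.
* `Ar_gamma_diff`: `Gammaℝ s ≠ 0` for `Re s > 0` (`Complex.Gammaℝ_ne_zero_of_re_pos`), `Gammaℝ` is differentiable there (see the proof of `logDeriv_xi0` : from `differentiable_Gammaℝ_inv`), on the open set `Re s > 0`, hence its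
  derivative is differentiable (`DifferentiableOn.deriv` on the open set `{s | 0 < s.re}`), `logDeriv = deriv / id`.
* `Ar_gamma_bd`: `H4.logDeriv_Gammaℝ : logDeriv Gammaℝ s = -(log π)/2 + digamma (s/2)/2`, `H4.norm_digamma_sub_log_le : ‖digamma s - log s‖ ≤ 1/‖s‖² + 2/‖s‖`; for `s = 1/2 + w`, `0 ≤ Re w ≤ 1`: `‖s/2‖ ≥ 1/4`,
  `‖log z‖ ≤ |log ‖z‖| + π`, `1/4 ≤ ‖s/2‖ ≤ 1 + |t|`: `|log ‖z‖| ≤ log 4 + |t| + 1`.
* `Ar_re`: `w = i t`: `1/(1/2 + it) + 1/(it - 1/2)` has real part `0` (indeed it is `-2it/(t² + 1/4)`); `Re (logDeriv Gammaℝ (1/2 + it)) = -(log π)/2 + (1/2) Re digamma(1/4 + it/2)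
  ≤ (1/2)(log ‖1/4 + it/2‖ + 1/‖.‖² + 2/‖.‖) ≤ (1/2)(log (1 + |t|) + 16 + 8)`.
* `Ar_shift`: let `g w = H w * (1/(1/2 + w) + logDeriv Gammaℝ (1/2 + w)) + dslope H (1/2) w`.  As `H (1/2) = 0`, `dslope H (1/2) w = H w / (w - 1/2)` for `w ≠ 1/2`, so `g w = H w * Ar w` there; on the lines `Re w = 0` and
  `Re w = b > 1/2` one has `w ≠ 1/2`.  `g` is differentiable at every `w` with `0 ≤ Re w ≤ b` (at `w ≠ 1/2`: `H w/(w - 1/2)`; at `1/2`: `Complex.differentiableOn_dslope` on a small ball / on the open strip `0 < Re w < 1`, which is a neighbourhood of `1/2`).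
  Decay: for `‖w - 1/2‖ ≥ 1/4`: `‖g‖ ≤ K (1 + t²)^(-3) (2 + C (1 + |t|) + 4) ≤ K' / (1 + t²)`; on the compact ball `‖w - 1/2‖ ≤ 1/4` (inside `0 < Re w < 1`) `g` is continuous, hence bounded.  So `SD 1 0 b K' g` and
  `SD.shift`, `SD.integrable`.
-/

set_option autoImplicit false

open Complex MeasureTheory Filter Topology Set

namespace Pool.Agent.H53.SZC

private theorem SZCAr_Gdiff {s : ℂ} (hs : 0 < s.re) : DifferentiableAt ℂ Gammaℝ s := by
  have hG0 : Gammaℝ s ≠ 0 := Complex.Gammaℝ_ne_zero_of_re_pos hs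
  have h1 := (Complex.differentiable_Gammaℝ_inv s).inv (inv_ne_zero hG0)
  have h2 : (fun s => ((Gammaℝ s)⁻¹))⁻¹ = Gammaℝ := by
    funext z; simp
  rw [h2] at h1
  exact h1

private theorem SZCAr_half_re (w : ℂ) : (1 / 2 + w).re = 1 / 2 + w.re := by
  simp

private theorem SZCAr_half_im (w : ℂ) : (1 / 2 + w).im = w.im := by
  simp

private theorem SZCAr_z_re (w : ℂ) : ((1 / 2 + w) / 2).re = 1 / 4 + w.re / 2 := by
  have h : (1 / 2 + w) / 2 = ((1 / 2 : ℝ) : ℂ) * (1 / 2 + w) := by push_cast; ring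
  rw [h, Complex.re_ofReal_mul, SZCAr_half_re]
  ring

private theorem SZCAr_z_im (w : ℂ) : ((1 / 2 + w) / 2).im = w.im / 2 := by
  have h : (1 / 2 + w) / 2 = ((1 / 2 : ℝ) : ℂ) * (1 / 2 + w) := by push_cast; ring
  rw [h, Complex.im_ofReal_mul, SZCAr_half_im]
  ring

private theorem SZCAr_z_ge {w : ℂ} (h0 : 0 ≤ w.re) : 1 / 4 ≤ ‖(1 / 2 + w) / 2‖ := by
  have h1 := Complex.abs_re_le_norm ((1 / 2 + w) / 2)
  rw [SZCAr_z_re] at h1
  have h2 := le_abs_self (1 / 4 + w.re / 2)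
  linarith

private theorem SZCAr_z_le {w : ℂ} (h0 : 0 ≤ w.re) (h1 : w.re ≤ 1) : ‖(1 / 2 + w) / 2‖ ≤ 1 + |w.im| := by
  have h2 := Complex.norm_le_abs_re_add_abs_im ((1 / 2 + w) / 2)
  rw [SZCAr_z_re, SZCAr_z_im] at h2
  have h3 : |1 / 4 + w.re / 2| ≤ 3 / 4 := by
    rw [abs_le]
    constructor <;> linarith
  have h4 : |w.im / 2| = |w.im| / 2 := by
    rw [abs_div, abs_two]
  have h5 := abs_nonneg w.im
  rw [h4] at h2
  linarith

private theorem SZCAr_err {w : ℂ} (h0 : 0 ≤ w.re) :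
    ‖Complex.digamma ((1 / 2 + w) / 2) - Complex.log ((1 / 2 + w) / 2)‖ ≤ 24 := by
  have hre : 0 < ((1 / 2 + w) / 2).re := by
    rw [SZCAr_z_re]
    linarith
  refine (Pool.Agent.H4.norm_digamma_sub_log_le hre).trans ?_
  have h1 := SZCAr_z_ge h0
  have hp : 0 < ‖(1 / 2 + w) / 2‖ := by linarith
  have h2 : 1 / ‖(1 / 2 + w) / 2‖ ^ 2 ≤ 16 := by
    rw [div_le_iff₀ (by positivity)]
    nlinarith
  have h3 : 2 / ‖(1 / 2 + w) / 2‖ ≤ 8 := by
    rw [div_le_iff₀ hp]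
    linarith
  linarith

private theorem SZCAr_log {w : ℂ} (h0 : 0 ≤ w.re) (h1 : w.re ≤ 1) :
    ‖Complex.log ((1 / 2 + w) / 2)‖ ≤ |w.im| + 7 := by
  have a1 := SZCAr_z_ge h0
  have a2 := SZCAr_z_le h0 h1
  have hp : 0 < ‖(1 / 2 + w) / 2‖ := by linarith
  have h2 := Complex.norm_le_abs_re_add_abs_im (Complex.log ((1 / 2 + w) / 2))
  rw [Complex.log_re, Complex.log_im] at h2
  have h3 : |Complex.arg ((1 / 2 + w) / 2)| ≤ 4 := (Complex.abs_arg_le_pi _).trans Real.pi_le_four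
  have h4 : |Real.log ‖(1 / 2 + w) / 2‖| ≤ |w.im| + 3 := by
    rw [abs_le]
    constructor
    · have h5 : Real.log (1 / 4) ≤ Real.log ‖(1 / 2 + w) / 2‖ := Real.log_le_log (by norm_num) a1
      have h6 : Real.log (1 / 4) = -Real.log 4 := by
        rw [one_div, Real.log_inv]
      have h7 : Real.log 4 ≤ 4 - 1 := Real.log_le_sub_one_of_pos (by norm_num)
      have h8 := abs_nonneg w.im
      linarith
    · have h5 : Real.log ‖(1 / 2 + w) / 2‖ ≤ ‖(1 / 2 + w) / 2‖ - 1 := Real.log_le_sub_one_of_pos hp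
      linarith
  linarith

private theorem SZCAr_bd17 (w : ℂ) (h0 : 0 ≤ w.re) (h1 : w.re ≤ 1) :
    ‖logDeriv Gammaℝ (1 / 2 + w)‖ ≤ 20 * (1 + |w.im|) := by
  have hs : 0 < (1 / 2 + w).re := by
    rw [SZCAr_half_re]
    linarith
  rw [Pool.Agent.H4.logDeriv_Gammaℝ hs]
  have e1 : -(Real.log Real.pi : ℂ) / 2 + Complex.digamma ((1 / 2 + w) / 2) / 2 =
      ((-(Real.log Real.pi) / 2 : ℝ) : ℂ) + (((Complex.digamma ((1 / 2 + w) / 2) - Complex.log ((1 / 2 + w) / 2))) +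
        Complex.log ((1 / 2 + w) / 2)) / 2 := by
    push_cast
    ring
  rw [e1]
  have a1 := SZCAr_err h0
  have a2 := SZCAr_log h0 h1
  have hpi1 : 0 ≤ Real.log Real.pi := Real.log_nonneg (by linarith [Real.pi_gt_three])
  have hpi2 : Real.log Real.pi ≤ Real.pi - 1 := Real.log_le_sub_one_of_pos Real.pi_pos
  have hpi3 := Real.pi_le_four
  have a3 : ‖((-(Real.log Real.pi) / 2 : ℝ) : ℂ)‖ ≤ 3 / 2 := by
    rw [Complex.norm_real, Real.norm_eq_abs, abs_le]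
    constructor <;> linarith
  have a4 : ‖(((Complex.digamma ((1 / 2 + w) / 2) - Complex.log ((1 / 2 + w) / 2))) +
        Complex.log ((1 / 2 + w) / 2)) / 2‖ ≤ (24 + (|w.im| + 7)) / 2 := by
    rw [norm_div, Complex.norm_ofNat]
    have := norm_add_le (Complex.digamma ((1 / 2 + w) / 2) - Complex.log ((1 / 2 + w) / 2)) (Complex.log ((1 / 2 + w) / 2))
    linarith
  have h5 := abs_nonneg w.im
  refine (norm_add_le _ _).trans ?_
  linarith

private theorem SZCAr_inv1 {w : ℂ} (h0 : 0 ≤ w.re) : ‖1 / (1 / 2 + w)‖ ≤ 2 := by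
  have h1 := Complex.abs_re_le_norm (1 / 2 + w)
  rw [SZCAr_half_re] at h1
  have h2 := le_abs_self (1 / 2 + w.re)
  have hp : 0 < ‖1 / 2 + w‖ := by linarith
  rw [norm_div, norm_one, div_le_iff₀ hp]
  linarith

private theorem SZCAr_inv2 (t : ℝ) : ‖1 / ((1 / 2 + ln 0 t) - 1)‖ ≤ 2 := by
  have h1 := Complex.abs_re_le_norm ((1 / 2 + ln 0 t) - 1)
  have h2 : ((1 / 2 + ln 0 t) - 1).re = -(1 / 2) := by
    rw [Complex.sub_re, SZCAr_half_re, ln_re, Complex.one_re]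
    norm_num
  rw [h2, abs_neg, abs_of_pos (by norm_num : (0 : ℝ) < 1 / 2)] at h1
  have hp : 0 < ‖(1 / 2 + ln 0 t) - 1‖ := by linarith
  rw [norm_div, norm_one, div_le_iff₀ hp]
  linarith

theorem Ar_add {w : ℂ} (hw : 1 / 2 < w.re) :
    logDeriv Pool.Agent.H5.xi0 w = Ar w + logDeriv riemannZeta (1 / 2 + w) := by
  unfold Ar
  rw [Pool.Agent.H5.logDeriv_xi0 hw, logDeriv_apply riemannZeta]

theorem Ar_gamma_diff {w : ℂ} (hw : 0 ≤ w.re) :
    DifferentiableAt ℂ (fun w : ℂ => logDeriv Gammaℝ (1 / 2 + w)) w := by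
  have hs : 0 < (1 / 2 + w).re := by
    rw [SZCAr_half_re]
    linarith
  have hopen : IsOpen {s : ℂ | 0 < s.re} := isOpen_lt continuous_const Complex.continuous_re
  have hon : DifferentiableOn ℂ Gammaℝ {s : ℂ | 0 < s.re} := fun s h => (SZCAr_Gdiff h).differentiableWithinAt
  have hd : DifferentiableAt ℂ (deriv Gammaℝ) (1 / 2 + w) :=
    (hon.deriv hopen).differentiableAt (hopen.mem_nhds hs)
  have h1 : DifferentiableAt ℂ (fun s => deriv Gammaℝ s / Gammaℝ s) (1 / 2 + w) :=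
    hd.div (SZCAr_Gdiff hs) (Complex.Gammaℝ_ne_zero_of_re_pos hs)
  have h2 : DifferentiableAt ℂ (fun w : ℂ => 1 / 2 + w) w := by fun_prop
  have h3 := DifferentiableAt.comp (g := fun s => deriv Gammaℝ s / Gammaℝ s) (f := fun w : ℂ => 1 / 2 + w) w h1 h2
  exact h3

theorem Ar_gamma_bd : ∃ C : ℝ, 0 ≤ C ∧ ∀ w : ℂ, 0 ≤ w.re → w.re ≤ 1 →
    ‖logDeriv Gammaℝ (1 / 2 + w)‖ ≤ C * (1 + |w.im|) :=
  ⟨20, by norm_num, SZCAr_bd17⟩

theorem Ar_re : ∃ C : ℝ, 0 ≤ C ∧ ∀ t : ℝ, (Ar (ln 0 t)).re ≤ (Real.log (1 + |t|) + C) / 2 := by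
  refine ⟨24, by norm_num, fun t => ?_⟩
  have h0 : (0 : ℝ) ≤ (ln 0 t).re := by rw [ln_re]
  have h1 : (ln 0 t).re ≤ 1 := by
    rw [ln_re]
    norm_num
  have hs : 0 < (1 / 2 + ln 0 t).re := by
    rw [SZCAr_half_re, ln_re]
    norm_num
  unfold Ar
  rw [Pool.Agent.H4.logDeriv_Gammaℝ hs]
  have a0 : (1 / (1 / 2 + ln 0 t) + 1 / ((1 / 2 + ln 0 t) - 1)).re = 0 := by
    have c1 : (1 / 2 + ln 0 t) - 1 = -(starRingEnd ℂ) (1 / 2 + ln 0 t) := by
      apply Complex.ext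
      · rw [Complex.neg_re, Complex.conj_re, Complex.sub_re, SZCAr_half_re, ln_re, Complex.one_re]
        norm_num
      · rw [Complex.neg_im, Complex.conj_im, Complex.sub_im, SZCAr_half_im, ln_im, Complex.one_im]
        ring
    rw [c1]
    generalize 1 / 2 + ln 0 t = s
    rw [one_div, one_div, inv_neg, ← map_inv₀, Complex.add_re, Complex.neg_re, Complex.conj_re]
    ring
  have a1 : (-(Real.log Real.pi : ℂ) / 2 + Complex.digamma ((1 / 2 + ln 0 t) / 2) / 2) =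
      ((-(Real.log Real.pi) / 2 : ℝ) : ℂ) + ((1 / 2 : ℝ) : ℂ) * Complex.digamma ((1 / 2 + ln 0 t) / 2) := by
    push_cast
    ring
  rw [Complex.add_re, a0, a1, Complex.add_re, Complex.ofReal_re, Complex.re_ofReal_mul]
  have a2 := SZCAr_err h0
  have a3 := (Complex.abs_re_le_norm _).trans a2
  rw [Complex.sub_re, Complex.log_re] at a3
  have a4 := (abs_le.1 a3).2
  have b1 := SZCAr_z_ge h0
  have b2 := SZCAr_z_le h0 h1
  rw [ln_im] at b2
  have hp : 0 < ‖(1 / 2 + ln 0 t) / 2‖ := by linarith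
  have b3 : Real.log ‖(1 / 2 + ln 0 t) / 2‖ ≤ Real.log (1 + |t|) := Real.log_le_log hp b2
  have hpi1 : 0 ≤ Real.log Real.pi := Real.log_nonneg (by linarith [Real.pi_gt_three])
  linarith

theorem Ar_line_bd : ∃ C : ℝ, 0 ≤ C ∧ ∀ t : ℝ, ‖Ar (ln 0 t)‖ ≤ C * (1 + |t|) := by
  refine ⟨24, by norm_num, fun t => ?_⟩
  have h0 : (0 : ℝ) ≤ (ln 0 t).re := by rw [ln_re]
  have h1 : (ln 0 t).re ≤ 1 := by
    rw [ln_re]
    norm_num
  have a1 := SZCAr_bd17 (ln 0 t) h0 h1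
  rw [ln_im] at a1
  have a2 := SZCAr_inv1 h0
  have a3 := SZCAr_inv2 t
  have a4 := abs_nonneg t
  unfold Ar
  refine (norm_add_le _ _).trans ?_
  have a5 := norm_add_le (1 / (1 / 2 + ln 0 t)) (1 / ((1 / 2 + ln 0 t) - 1))
  linarith

theorem Ar_shift {H : ℂ → ℂ} {K b : ℝ} (h : SD 3 (-1) 1 K H) (h0 : H (1 / 2) = 0) (hb : 1 / 2 < b) (hb1 : b ≤ 1) :
    Integrable (fun t : ℝ => H (ln b t) * Ar (ln b t)) ∧ Integrable (fun t : ℝ => H (ln 0 t) * Ar (ln 0 t)) ∧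
    ∫ t : ℝ, H (ln b t) * Ar (ln b t) = ∫ t : ℝ, H (ln 0 t) * Ar (ln 0 t) := by
  obtain ⟨g, hg⟩ : ∃ g : ℂ → ℂ, ∀ w, g w = H w * (1 / (1 / 2 + w) + logDeriv Gammaℝ (1 / 2 + w)) + dslope H (1 / 2) w :=
    ⟨_, fun w => rfl⟩
  have hgf : g = fun w => H w * (1 / (1 / 2 + w) + logDeriv Gammaℝ (1 / 2 + w)) + dslope H (1 / 2) w := funext hg
  have hds : ∀ w : ℂ, w ≠ 1 / 2 → dslope H (1 / 2) w = (w - 1 / 2)⁻¹ * H w := by
    intro w hw
    rw [dslope_of_ne H hw, slope_def_module, h0, sub_zero, smul_eq_mul]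
  have hne : ∀ w : ℂ, w ≠ 1 / 2 → g w = H w * Ar w := by
    intro w hw
    rw [hg, hds w hw]
    unfold Ar
    have e1 : (1 / 2 + w) - 1 = w - 1 / 2 := by ring
    rw [e1, one_div (w - 1 / 2)]
    ring
  have hdiff : ∀ w : ℂ, 0 ≤ w.re → w.re ≤ 1 → DifferentiableAt ℂ g w := by
    intro w h1 h2
    have d1 : DifferentiableAt ℂ H w := h.diff w (by linarith) h2
    have d2 : DifferentiableAt ℂ (fun w : ℂ => 1 / (1 / 2 + w)) w := by
      have hne0 : 1 / 2 + w ≠ 0 := by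
        intro h3
        have h4 := congrArg Complex.re h3
        rw [SZCAr_half_re, Complex.zero_re] at h4
        linarith
      have d3 : DifferentiableAt ℂ (fun w : ℂ => 1 / 2 + w) w := by fun_prop
      exact (differentiableAt_const 1).div d3 hne0
    have d4 : DifferentiableAt ℂ (dslope H (1 / 2)) w := by
      by_cases hw : w = 1 / 2
      · have hopen : IsOpen {s : ℂ | 0 < s.re ∧ s.re < 1} :=
          (isOpen_lt continuous_const Complex.continuous_re).inter (isOpen_lt Complex.continuous_re continuous_const)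
        have hhalf : ((1 / 2 : ℂ)).re = 1 / 2 := by
          have e : (1 / 2 : ℂ) = ((1 / 2 : ℝ) : ℂ) := by push_cast; rfl
          rw [e, Complex.ofReal_re]
        have hmem : (1 / 2 : ℂ) ∈ {s : ℂ | 0 < s.re ∧ s.re < 1} := by
          constructor
          · rw [hhalf]
            norm_num
          · rw [hhalf]
            norm_num
        have hn := hopen.mem_nhds hmem
        have hon : DifferentiableOn ℂ H {s : ℂ | 0 < s.re ∧ s.re < 1} := fun s hs =>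
          (h.diff s (by linarith [hs.1]) hs.2.le).differentiableWithinAt
        have h5 := (Complex.differentiableOn_dslope hn).2 hon
        rw [hw]
        exact h5.differentiableAt hn
      · exact (differentiableAt_dslope_of_ne hw).2 d1
    rw [hgf]
    exact (d1.mul (d2.add (Ar_gamma_diff h1))).add d4
  have hcont : ContinuousOn g (Metric.closedBall (1 / 2) (1 / 4)) := by
    intro w hw
    have h1 : ‖w - 1 / 2‖ ≤ 1 / 4 := by
      rw [← dist_eq_norm]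
      exact hw
    have h2 := (Complex.abs_re_le_norm (w - 1 / 2)).trans h1
    have h3 : (w - 1 / 2).re = w.re - 1 / 2 := by simp
    rw [h3, abs_le] at h2
    exact (hdiff w (by linarith [h2.1]) (by linarith [h2.2])).continuousAt.continuousWithinAt
  obtain ⟨M, hM⟩ := (isCompact_closedBall (1 / 2 : ℂ) (1 / 4)).exists_bound_of_continuousOn hcont
  have hM0 : 0 ≤ M := (norm_nonneg _).trans (hM (1 / 2) (Metric.mem_closedBall_self (by norm_num)))
  have hK : 0 ≤ K := h.nonneg (by norm_num)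
  have hSD : SD 1 0 b (K * 46 + 2 * M) g := by
    refine ⟨fun w h1 h2 => hdiff w h1 (h2.trans hb1), fun w h1 h2 => ?_⟩
    have ht : (1 : ℝ) ≤ 1 + w.im ^ 2 := by nlinarith [sq_nonneg w.im]
    have htp : (0 : ℝ) < 1 + w.im ^ 2 := by linarith
    rw [pow_one, le_div_iff₀ htp]
    by_cases hw : ‖w - 1 / 2‖ ≤ 1 / 4
    · have h3 : ‖g w‖ ≤ M := hM w (by rw [Metric.mem_closedBall, dist_eq_norm]; exact hw)
      have h4 := (Complex.abs_im_le_norm (w - 1 / 2)).trans hw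
      have h5 : (w - 1 / 2).im = w.im := by simp
      rw [h5, abs_le] at h4
      have h6 : 1 + w.im ^ 2 ≤ 2 := by nlinarith [h4.1, h4.2]
      calc ‖g w‖ * (1 + w.im ^ 2) ≤ M * 2 := mul_le_mul h3 h6 htp.le hM0
        _ ≤ K * 46 + 2 * M := by nlinarith
    · have hw' : 1 / 4 < ‖w - 1 / 2‖ := not_le.1 hw
      have hwne : w ≠ 1 / 2 := by
        intro h3
        rw [h3, sub_self, norm_zero] at hw'
        linarith
      have b1 := h.bd w (by linarith) (h2.trans hb1)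
      have b2 := SZCAr_inv1 h1
      have b3 := SZCAr_bd17 w h1 (h2.trans hb1)
      have b4 : ‖(w - 1 / 2)⁻¹‖ ≤ 4 := by
        rw [norm_inv]
        have h5 : ‖w - 1 / 2‖⁻¹ ≤ (1 / 4 : ℝ)⁻¹ := inv_anti₀ (by norm_num) hw'.le
        have h6 : (1 / 4 : ℝ)⁻¹ = 4 := by norm_num
        linarith
      have habs : |w.im| ≤ 1 + w.im ^ 2 := by
        have h7 : |w.im| ^ 2 = w.im ^ 2 := sq_abs _
        nlinarith [sq_nonneg (|w.im| - 1), abs_nonneg w.im]
      have b5 : ‖g w‖ ≤ ‖H w‖ * (46 * (1 + w.im ^ 2)) := by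
        have e1 : g w = H w * ((1 / (1 / 2 + w) + logDeriv Gammaℝ (1 / 2 + w)) + (w - 1 / 2)⁻¹) := by
          rw [hg, hds w hwne]
          ring
        rw [e1, norm_mul]
        refine mul_le_mul_of_nonneg_left ?_ (norm_nonneg _)
        have c1 := norm_add_le (1 / (1 / 2 + w) + logDeriv Gammaℝ (1 / 2 + w)) ((w - 1 / 2)⁻¹)
        have c2 := norm_add_le (1 / (1 / 2 + w)) (logDeriv Gammaℝ (1 / 2 + w))
        nlinarith
      have b6 : ‖H w‖ * (1 + w.im ^ 2) ^ 3 ≤ K := by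
        rwa [le_div_iff₀ (by positivity)] at b1
      have b7 : ‖H w‖ * (1 + w.im ^ 2) ^ 2 ≤ ‖H w‖ * (1 + w.im ^ 2) ^ 3 :=
        mul_le_mul_of_nonneg_left (pow_le_pow_right₀ ht (by norm_num)) (norm_nonneg _)
      calc ‖g w‖ * (1 + w.im ^ 2) ≤ ‖H w‖ * (46 * (1 + w.im ^ 2)) * (1 + w.im ^ 2) :=
            mul_le_mul_of_nonneg_right b5 htp.le
        _ = 46 * (‖H w‖ * (1 + w.im ^ 2) ^ 2) := by ring
        _ ≤ K * 46 + 2 * M := by nlinarith
  have eb : (fun t : ℝ => H (ln b t) * Ar (ln b t)) = fun t : ℝ => g (ln b t) := by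
    funext t
    refine (hne _ ?_).symm
    intro h3
    have h4 := congrArg Complex.re h3
    have e : (1 / 2 : ℂ) = ((1 / 2 : ℝ) : ℂ) := by push_cast; rfl
    rw [ln_re, e, Complex.ofReal_re] at h4
    linarith
  have e0 : (fun t : ℝ => H (ln 0 t) * Ar (ln 0 t)) = fun t : ℝ => g (ln 0 t) := by
    funext t
    refine (hne _ ?_).symm
    intro h3
    have h4 := congrArg Complex.re h3
    have e : (1 / 2 : ℂ) = ((1 / 2 : ℝ) : ℂ) := by push_cast; rfl
    rw [ln_re, e, Complex.ofReal_re] at h4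
    norm_num at h4
  have hb0 : 0 ≤ b := by linarith
  rw [eb, e0]
  exact ⟨hSD.integrable le_rfl hb0 le_rfl, hSD.integrable le_rfl le_rfl hb0, (hSD.shift le_rfl hb0).symm⟩

end Pool.Agent.H53.SZC
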