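import Mathlib
import Pool.Agent.H53.SZC.Sd
import Pool.Agent.H53.SZC.Rt
import Pool.Agent.H53.SZC.Ar

/-!
# MP_103a5c_SZ, block C, row Tl (about 170 lines): the archimedean integral on the line `Re w = 0`

`L = log T`; `r t = (hh (ln 0 t)).re = Gw T t * (1 - exp (-(t² + 1/4)⁴)) * ‖F(1/2 + it)‖² ≥ 0` and `hh (ln 0 t) = (r t : ℂ)` (`hh_line`; `ln 0 t = t * I`).

## Proofs
* `gauss_far`: for `T ≥ T0` (`T0 ≥ 3`) and `|t| ≥ 10 T`: `Gw T t = exp (-(t - T)² L/T²)`, `|t - T| ≥ 9|t|/10`, so with `v = |t|/T ≥ 10`: `(t - T)² L/T² ≥ 0.81 v² L ≥ 40 L + 0.41 v²`  (`0.4 v² ≥ 40`, `L ≥ 1`), so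
  `Gw T t ≤ T^(-40) exp (-0.41 v²)`; `exp (-0.41 v²) ≤ C v^(-20)` (as `x^10 ≤ 10! exp x`, `x = 0.41 v²`: `v^20 ≤ 10!/0.41^10 exp (0.41 v²)`), so `Gw T t ≤ C T^(-40) (|t|/T)^(-20) = C T^(-20) |t|^(-20)`; and `1 + |t| ≤ 2|t|`.
  So `Gw T t * (1 + |t|)^20 ≤ C T^(-20)`, in particular `T^2 Gw T t (1 + |t|)^20 ≤ C`.
* `tail`: for `|t| ≥ 10 T`: `r t * (log (1 + |t|) + C1) ≤ Gw T t * (C T (1 + |t|)³)² * (1 + |t|) (1 + C1) ≤ C' (1 + |t|)^(-13) ≤ C' / (1 + t²)` (`FF_half`, `log (1 + |t|) ≤ |t|`).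
  For `|t| ≤ 10 T`: `log (1 + |t|) ≤ log (11 T) = L + log 11`.  So for all `t`: `r t (log (1 + |t|) + C1) ≤ (L + log 11 + C1) r t + C'/(1 + t²)`.
* `arch_up`: `Re (hh (ln 0 t) * Ar (ln 0 t)) = r t * Re Ar (ln 0 t) ≤ r t (log (1 + |t|) + C1)/2` (`Ar_re`, `r t ≥ 0`); `Re ∫ = ∫ Re` (`Ar_shift` gives integrability of `hh Ar` on `Re w = 0`, with `hh_SD`, `hh_half` and any `b`, e.g. `b = 1`;
  `hh_SD` + `SD.integrable` give that of `hh`); integrate with `integral_mono`, `integrable_inv_one_add_sq`.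
* `int_nonneg`: the integral of `r t ≥ 0`.
-/

set_option autoImplicit false

open Complex MeasureTheory Filter Topology Set

namespace Pool.Agent.H53.SZC

open H82SZ Pool.Agent.H17.ZB

variable {ε : ℝ} {α P : ℝ → ℝ}

theorem SZCTl_log {T : ℝ} (hT : 3 ≤ T) : 1 ≤ Real.log T := by
  have hT0 : 0 < T := by linarith
  rw [Real.le_log_iff_exp_le hT0]
  have := Real.exp_one_lt_d9
  linarith

theorem gauss_far : ∃ C T0 : ℝ, 0 ≤ C ∧ ∀ T, T0 ≤ T → ∀ t : ℝ, 10 * T ≤ |t| →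
    T ^ 2 * Pool.Agent.H26.SZ.Gw T t * (1 + |t|) ^ 20 ≤ C := by
  refine ⟨2 ^ 20 * (4 ^ 10 * (Nat.factorial 10 : ℝ)), 3, by positivity, fun T hT t ht => ?_⟩
  have hT0 : 0 < T := by linarith
  have hL := SZCTl_log hT
  obtain ⟨v, hv⟩ : ∃ v, v = |t| / T := ⟨_, rfl⟩
  have hv10 : 10 ≤ v := by rw [hv, le_div_iff₀ hT0]; exact ht
  have ht' : |t| = v * T := by rw [hv, div_mul_cancel₀ _ hT0.ne']
  have h1 : 1 + |t| ≤ 2 * (v * T) := by rw [ht']; nlinarith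
  have h2 : 81 / 100 * v ^ 2 ≤ (t - T) ^ 2 / T ^ 2 := by
    rw [le_div_iff₀ (by positivity)]
    have h3 : 9 / 10 * |t| ≤ |t - T| := by
      have h4 := abs_sub_abs_le_abs_sub t T
      rw [abs_of_pos hT0] at h4
      linarith
    have h4 : (9 / 10 * |t|) ^ 2 ≤ |t - T| ^ 2 := pow_le_pow_left₀ (by positivity) h3 2
    rw [sq_abs, ht'] at h4
    nlinarith
  have h5 : v ^ 20 ≤ 4 ^ 10 * (Nat.factorial 10 : ℝ) * Real.exp (v ^ 2 / 4) := by
    have h6 := Real.pow_div_factorial_le_exp (v ^ 2 / 4) (by positivity) 10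
    rw [div_le_iff₀ (by positivity)] at h6
    have h8 : v ^ 20 = 4 ^ 10 * (v ^ 2 / 4) ^ 10 := by ring
    rw [h8]
    calc (4 : ℝ) ^ 10 * (v ^ 2 / 4) ^ 10 ≤ 4 ^ 10 * (Real.exp (v ^ 2 / 4) * (Nat.factorial 10 : ℝ)) :=
          mul_le_mul_of_nonneg_left h6 (by positivity)
      _ = _ := by ring
  have h7 : T ^ 2 * T ^ 20 = Real.exp (22 * Real.log T) := by
    rw [← pow_add, show (22 : ℝ) = ((2 + 20 : ℕ) : ℝ) by norm_num, Real.exp_nat_mul, Real.exp_log hT0]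
  have h9 : Pool.Agent.H26.SZ.Gw T t ≤ Real.exp (-(81 / 100 * v ^ 2 * Real.log T)) := by
    unfold Pool.Agent.H26.SZ.Gw
    rw [Real.exp_le_exp, neg_le_neg_iff]
    have h10 : (t - T) ^ 2 * Real.log T / T ^ 2 = (t - T) ^ 2 / T ^ 2 * Real.log T := by ring
    rw [h10]
    exact mul_le_mul_of_nonneg_right h2 (by linarith)
  have hG := (Pool.Agent.H26.SZ.Gw_pos T t).le
  have hv0 : 0 ≤ v := by linarith
  calc T ^ 2 * Pool.Agent.H26.SZ.Gw T t * (1 + |t|) ^ 20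
      ≤ T ^ 2 * Pool.Agent.H26.SZ.Gw T t * (2 * (v * T)) ^ 20 := by
        refine mul_le_mul_of_nonneg_left (pow_le_pow_left₀ (by positivity) h1 20) (by positivity)
    _ = 2 ^ 20 * (T ^ 2 * T ^ 20) * (v ^ 20 * Pool.Agent.H26.SZ.Gw T t) := by ring
    _ ≤ 2 ^ 20 * (T ^ 2 * T ^ 20) * ((4 ^ 10 * (Nat.factorial 10 : ℝ) * Real.exp (v ^ 2 / 4)) *
          Real.exp (-(81 / 100 * v ^ 2 * Real.log T))) := by
        refine mul_le_mul_of_nonneg_left (mul_le_mul h5 h9 hG (by positivity)) (by positivity)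
    _ = 2 ^ 20 * (4 ^ 10 * (Nat.factorial 10 : ℝ)) *
          Real.exp (22 * Real.log T + v ^ 2 / 4 + -(81 / 100 * v ^ 2 * Real.log T)) := by
        rw [h7, Real.exp_add, Real.exp_add]
        ring
    _ ≤ 2 ^ 20 * (4 ^ 10 * (Nat.factorial 10 : ℝ)) * 1 := by
        refine mul_le_mul_of_nonneg_left ?_ (by positivity)
        rw [Real.exp_le_one_iff]
        have h11 : 100 ≤ v ^ 2 := by nlinarith
        have h12 : v ^ 2 ≤ v ^ 2 * Real.log T := by nlinarith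
        nlinarith
    _ = _ := mul_one _

theorem SZCTl_ln (t : ℝ) : ln 0 t = t * I := by
  unfold ln
  rw [Complex.ofReal_zero, zero_add]

theorem hh_re_nonneg (c0 : ℝ) (α P : ℝ → ℝ) (T t : ℝ) :
    0 ≤ (hh c0 α P T (ln 0 t)).re ∧ hh c0 α P T (ln 0 t) = ((hh c0 α P T (ln 0 t)).re : ℂ) := by
  rw [SZCTl_ln, hh_line]
  rw [Complex.ofReal_re]
  refine ⟨?_, rfl⟩
  have h1 : Real.exp (-((t ^ 2 + 1 / 4) ^ 4)) ≤ 1 := by
    rw [Real.exp_le_one_iff]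
    have : 0 ≤ (t ^ 2 + 1 / 4) ^ 4 := by positivity
    linarith
  have h2 := (Pool.Agent.H26.SZ.Gw_pos T t).le
  exact mul_nonneg (mul_nonneg h2 (by linarith)) (by positivity)

theorem SZCTl_le (c0 : ℝ) (α P : ℝ → ℝ) (T t : ℝ) : (hh c0 α P T (ln 0 t)).re ≤
    Pool.Agent.H26.SZ.Gw T t * ‖FF c0 α P T (1 / 2 + t * I)‖ ^ 2 := by
  rw [SZCTl_ln, hh_line, Complex.ofReal_re]
  have h1 : 0 < Real.exp (-((t ^ 2 + 1 / 4) ^ 4)) := Real.exp_pos _
  have h2 := (Pool.Agent.H26.SZ.Gw_pos T t).le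
  refine mul_le_mul_of_nonneg_right ?_ (by positivity)
  calc Pool.Agent.H26.SZ.Gw T t * (1 - Real.exp (-((t ^ 2 + 1 / 4) ^ 4)))
      ≤ Pool.Agent.H26.SZ.Gw T t * 1 := mul_le_mul_of_nonneg_left (by linarith) h2
    _ = _ := mul_one _

theorem tail (c0 : ℝ) (hε : 0 < ε) (hε2 : ε < 1 / 2) (hα : Adm (1 - ε) α) (hP : Adm (1 / 2 - ε) P)
    {C1 : ℝ} (hC1 : 0 ≤ C1) :
    ∃ C T0 : ℝ, 0 ≤ C ∧ ∀ T, T0 ≤ T → ∀ t : ℝ, (hh c0 α P T (ln 0 t)).re * (Real.log (1 + |t|) + C1) ≤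
      (Real.log T + C) * (hh c0 α P T (ln 0 t)).re + C / (1 + t ^ 2) := by
  obtain ⟨C2, T2, hC2, hF⟩ := FF_half c0 hε hε2 hα hP
  obtain ⟨C3, T3, hC3, hG⟩ := gauss_far
  have hl11 : 0 ≤ Real.log 11 := Real.log_nonneg (by norm_num)
  have hD : 0 ≤ C2 ^ 2 * (1 + C1) * C3 := by positivity
  refine ⟨Real.log 11 + C1 + C2 ^ 2 * (1 + C1) * C3, max (max T2 T3) 3, by positivity,
    fun T hT t => ?_⟩
  have hTa : T2 ≤ T := ((le_max_left _ _).trans (le_max_left _ _)).trans hT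
  have hTb : T3 ≤ T := ((le_max_right _ _).trans (le_max_left _ _)).trans hT
  have hTc : 3 ≤ T := (le_max_right _ _).trans hT
  have hT0 : 0 < T := by linarith
  have hL := SZCTl_log hTc
  have hr := (hh_re_nonneg c0 α P T t).1
  have hr2 := SZCTl_le c0 α P T t
  obtain ⟨r, hrd⟩ : ∃ r, r = (hh c0 α P T (ln 0 t)).re := ⟨_, rfl⟩
  rw [← hrd] at hr hr2 ⊢
  have ha : 0 ≤ |t| := abs_nonneg t
  have h1t : 0 < 1 + t ^ 2 := by positivity
  rcases le_total (10 * T) |t| with ht | ht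
  · have h1 := hF T hTa t
    have h2 := hG T hTb t ht
    have h3 : Real.log (1 + |t|) + C1 ≤ (1 + |t|) * (1 + C1) := by
      have h4 := Real.log_le_sub_one_of_pos (show 0 < 1 + |t| by linarith)
      nlinarith
    have h5 : 0 ≤ Real.log (1 + |t|) := Real.log_nonneg (by linarith)
    have hGp := (Pool.Agent.H26.SZ.Gw_pos T t).le
    have h6 : r * (Real.log (1 + |t|) + C1) ≤
        (Pool.Agent.H26.SZ.Gw T t * (C2 * T * (1 + |t|) ^ 3) ^ 2) * ((1 + |t|) * (1 + C1)) := by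
      refine mul_le_mul (hr2.trans ?_) h3 (by linarith) (by positivity)
      exact mul_le_mul_of_nonneg_left (pow_le_pow_left₀ (norm_nonneg _) h1 2) hGp
    have h7 : (Pool.Agent.H26.SZ.Gw T t * (C2 * T * (1 + |t|) ^ 3) ^ 2) * ((1 + |t|) * (1 + C1)) *
        (1 + t ^ 2) ≤ C2 ^ 2 * (1 + C1) * C3 := by
      have h8 : 1 + t ^ 2 ≤ (1 + |t|) ^ 13 := by
        have h9 : 1 + t ^ 2 ≤ (1 + |t|) ^ 2 := by
          have := sq_abs t
          nlinarith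
        exact h9.trans (pow_le_pow_right₀ (by linarith) (by norm_num))
      calc (Pool.Agent.H26.SZ.Gw T t * (C2 * T * (1 + |t|) ^ 3) ^ 2) * ((1 + |t|) * (1 + C1)) *
            (1 + t ^ 2)
          ≤ (Pool.Agent.H26.SZ.Gw T t * (C2 * T * (1 + |t|) ^ 3) ^ 2) * ((1 + |t|) * (1 + C1)) *
            (1 + |t|) ^ 13 := mul_le_mul_of_nonneg_left h8 (by positivity)
        _ = C2 ^ 2 * (1 + C1) * (T ^ 2 * Pool.Agent.H26.SZ.Gw T t * (1 + |t|) ^ 20) := by ring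
        _ ≤ C2 ^ 2 * (1 + C1) * C3 := mul_le_mul_of_nonneg_left h2 (by positivity)
    have h10 : r * (Real.log (1 + |t|) + C1) ≤ C2 ^ 2 * (1 + C1) * C3 / (1 + t ^ 2) :=
      h6.trans ((le_div_iff₀ h1t).2 h7)
    have h11 : C2 ^ 2 * (1 + C1) * C3 / (1 + t ^ 2) ≤
        (Real.log 11 + C1 + C2 ^ 2 * (1 + C1) * C3) / (1 + t ^ 2) :=
      div_le_div_of_nonneg_right (by linarith) h1t.le
    have h12 : 0 ≤ (Real.log T + (Real.log 11 + C1 + C2 ^ 2 * (1 + C1) * C3)) * r := by positivity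
    linarith
  · have h1 : Real.log (1 + |t|) ≤ Real.log T + Real.log 11 := by
      rw [← Real.log_mul hT0.ne' (by norm_num)]
      exact Real.log_le_log (by linarith) (by linarith)
    have h2 : 0 ≤ (Real.log 11 + C1 + C2 ^ 2 * (1 + C1) * C3) / (1 + t ^ 2) := by positivity
    have h3 : r * (Real.log (1 + |t|) + C1) ≤
        r * (Real.log T + (Real.log 11 + C1 + C2 ^ 2 * (1 + C1) * C3)) :=
      mul_le_mul_of_nonneg_left (by linarith) hr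
    linarith

theorem arch_up (c0 : ℝ) (hε : 0 < ε) (hε2 : ε < 1 / 2) (hα : Adm (1 - ε) α) (hP : Adm (1 / 2 - ε) P) :
    ∃ C T0 : ℝ, 0 ≤ C ∧ ∀ T, T0 ≤ T →
      0 ≤ (∫ t : ℝ, hh c0 α P T (ln 0 t)).re ∧
      (∫ t : ℝ, hh c0 α P T (ln 0 t) * Ar (ln 0 t)).re ≤
        (Real.log T + C) / 2 * (∫ t : ℝ, hh c0 α P T (ln 0 t)).re + C := by
  obtain ⟨C1, hC1, hA⟩ := Ar_re
  obtain ⟨C, T0, hC, hT⟩ := tail c0 hε hε2 hα hP hC1
  refine ⟨2 * C, max T0 3, by positivity, fun T hTT => ?_⟩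
  have hTa : T0 ≤ T := (le_max_left _ _).trans hTT
  have hTb : 3 ≤ T := (le_max_right _ _).trans hTT
  obtain ⟨K, hK⟩ := hh_SD (c0 := c0) (α := α) (P := P) (T := T) (by linarith)
  have hi1 : Integrable (fun t : ℝ => hh c0 α P T (ln 0 t)) :=
    hK.integrable (by norm_num) (by norm_num) (by norm_num)
  have hi2 : Integrable (fun t : ℝ => hh c0 α P T (ln 0 t) * Ar (ln 0 t)) :=
    (Ar_shift (b := 1) hK hh_half (by norm_num) le_rfl).2.1
  have e1 : (∫ t : ℝ, hh c0 α P T (ln 0 t)).re = ∫ t : ℝ, (hh c0 α P T (ln 0 t)).re :=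
    (Complex.reCLM.integral_comp_comm hi1).symm
  have e2 : (∫ t : ℝ, hh c0 α P T (ln 0 t) * Ar (ln 0 t)).re =
      ∫ t : ℝ, (hh c0 α P T (ln 0 t) * Ar (ln 0 t)).re :=
    (Complex.reCLM.integral_comp_comm hi2).symm
  have hi1r : Integrable (fun t : ℝ => (hh c0 α P T (ln 0 t)).re) := hi1.re
  have hi2r : Integrable (fun t : ℝ => (hh c0 α P T (ln 0 t) * Ar (ln 0 t)).re) := hi2.re
  have h0 : 0 ≤ ∫ t : ℝ, (hh c0 α P T (ln 0 t)).re :=
    integral_nonneg fun t => (hh_re_nonneg c0 α P T t).1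
  rw [e1, e2]
  refine ⟨h0, ?_⟩
  have hb : ∀ t : ℝ, (hh c0 α P T (ln 0 t) * Ar (ln 0 t)).re ≤
      (Real.log T + C) / 2 * (hh c0 α P T (ln 0 t)).re + C / 2 * (1 + t ^ 2)⁻¹ := by
    intro t
    have h1 := hh_re_nonneg c0 α P T t
    have h2 := hT T hTa t
    have h3 : (hh c0 α P T (ln 0 t) * Ar (ln 0 t)).re =
        (hh c0 α P T (ln 0 t)).re * (Ar (ln 0 t)).re := by
      have h4 := h1.2
      calc (hh c0 α P T (ln 0 t) * Ar (ln 0 t)).re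
          = ((((hh c0 α P T (ln 0 t)).re : ℝ) : ℂ) * Ar (ln 0 t)).re := by rw [← h4]
        _ = _ := Complex.re_ofReal_mul _ _
    have h5 := mul_le_mul_of_nonneg_left (hA t) h1.1
    rw [h3]
    rw [div_eq_mul_inv] at h2
    linarith
  calc ∫ t : ℝ, (hh c0 α P T (ln 0 t) * Ar (ln 0 t)).re
      ≤ ∫ t : ℝ, ((Real.log T + C) / 2 * (hh c0 α P T (ln 0 t)).re + C / 2 * (1 + t ^ 2)⁻¹) :=
        integral_mono hi2r ((hi1r.const_mul _).add (integrable_inv_one_add_sq.const_mul _)) hb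
    _ = (Real.log T + C) / 2 * (∫ t : ℝ, (hh c0 α P T (ln 0 t)).re) + C / 2 * Real.pi := by
        rw [integral_add (hi1r.const_mul _) (integrable_inv_one_add_sq.const_mul _),
          integral_const_mul, integral_const_mul, integral_univ_inv_one_add_sq]
    _ ≤ (Real.log T + 2 * C) / 2 * (∫ t : ℝ, (hh c0 α P T (ln 0 t)).re) + 2 * C := by
        have h1 := Real.pi_le_four
        have h2 : (Real.log T + C) / 2 * (∫ t : ℝ, (hh c0 α P T (ln 0 t)).re) ≤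
            (Real.log T + 2 * C) / 2 * (∫ t : ℝ, (hh c0 α P T (ln 0 t)).re) :=
          mul_le_mul_of_nonneg_right (by linarith) h0
        nlinarith

end Pool.Agent.H53.SZC
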