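import Mathlib
import Pool.Agent.H53.SZC.Ex
import Pool.Agent.H53.SZC.Er
import Pool.Agent.H53.SZC.Tl

/-!
# MP_103a5c_SZ, block C: assembly
-/

set_option autoImplicit false

open Complex MeasureTheory Filter Topology Set

namespace Pool.Agent.H53.SZC

open H82SZ Pool.Agent.H17.ZB

variable {ε c0 : ℝ} {α P : ℝ → ℝ} {T : ℝ}

theorem hh_I_eq (g : ℝ) : (hh c0 α P T (g * I)).re =
    Pool.Agent.H26.SZ.Gw T g * (1 - Real.exp (-((g ^ 2 + 1 / 4) ^ 4))) * ‖FF c0 α P T (1 / 2 + g * I)‖ ^ 2 := by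
  rw [hh_line, Complex.ofReal_re]

theorem hh_I_nonneg (g : ℝ) : 0 ≤ (hh c0 α P T (g * I)).re := by
  rw [hh_I_eq]
  have h1 : 0 < Pool.Agent.H26.SZ.Gw T g := Pool.Agent.H26.SZ.Gw_pos _ _
  have h2 : Real.exp (-((g ^ 2 + 1 / 4) ^ 4)) ≤ 1 := by
    rw [Real.exp_le_one_iff]
    have : 0 ≤ (g ^ 2 + 1 / 4) ^ 4 := by positivity
    linarith
  have h3 : 0 ≤ 1 - Real.exp (-((g ^ 2 + 1 / 4) ^ 4)) := by linarith
  positivity

/-- the zeros are dominated by the two integrals -/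
theorem main_hh (hRH : RiemannHypothesis) (hT1 : 1 < T) (hT : 2 ≤ Real.log T)
    (hint : Integrable (fun t : ℝ => hh c0 α P T (ln (bT T) t) * logDeriv riemannZeta (1 / 2 + ln (bT T) t)))
    (S : Finset ℝ) (hS : ∀ g ∈ S, g ∈ Pool.Agent.PC.Z) :
    ∑ g ∈ S, (Pool.Agent.PC.m g : ℝ) * (hh c0 α P T (g * I)).re ≤
      Real.pi⁻¹ * ((∫ t : ℝ, hh c0 α P T (ln (bT T) t) * logDeriv riemannZeta (1 / 2 + ln (bT T) t)).re +
        (∫ t : ℝ, hh c0 α P T (ln 0 t) * Ar (ln 0 t)).re) := by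
  classical
  obtain ⟨hb1, hb2⟩ := bT_bounds hT
  obtain ⟨K, hK⟩ := hh_SD (c0 := c0) (α := α) (P := P) hT1
  have hb0 : 0 < bT T := by linarith
  have hsub : SD 3 (-(bT T)) (bT T) K (hh c0 α P T) := hK.sub (by linarith) hb2
  have hs := expl_symm hRH hb0 hsub hh_symm
  have h1 : ∑ g ∈ S, (Pool.Agent.PC.m g : ℝ) * (hh c0 α P T (g * I)).re =
      ∑ g ∈ S.subtype (· ∈ Pool.Agent.PC.Z), (Pool.Agent.PC.m g : ℝ) * (hh c0 α P T ((g : ℝ) * I)).re := by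
    rw [Finset.sum_subtype_of_mem (fun g : ℝ => (Pool.Agent.PC.m g : ℝ) * (hh c0 α P T (g * I)).re) hS]
  rw [h1]
  refine (sum_le_hasSum _ (fun g _ => mul_nonneg (Nat.cast_nonneg _) (hh_I_nonneg _)) hs).trans (le_of_eq ?_)
  congr 1
  obtain ⟨i1, i2, e⟩ := Ar_shift hK hh_half hb1 hb2
  have h2 : ∫ t : ℝ, hh c0 α P T (ln (bT T) t) * logDeriv Pool.Agent.H5.xi0 (ln (bT T) t) =
      (∫ t : ℝ, hh c0 α P T (ln (bT T) t) * logDeriv riemannZeta (1 / 2 + ln (bT T) t)) +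
        ∫ t : ℝ, hh c0 α P T (ln 0 t) * Ar (ln 0 t) := by
    rw [← e, ← integral_add hint i1]
    refine integral_congr_ae (Eventually.of_forall fun t => ?_)
    simp only
    rw [Ar_add (w := ln (bT T) t) (by rw [ln_re]; exact hb1)]
    ring
  rw [h2, Complex.add_re]

theorem kill_inv {g : ℝ} (hT : 4 ≤ T) (hg : T / 4 ≤ g) :
    1 ≤ (1 + 16 / T) * (1 - Real.exp (-((g ^ 2 + 1 / 4) ^ 4))) := by
  set x : ℝ := (g ^ 2 + 1 / 4) ^ 4 with hx
  have hg1 : 1 ≤ g := by linarith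
  have h1 : 1 ≤ g ^ 2 + 1 / 4 := by nlinarith
  have h2 : T / 16 ≤ x := by
    have h3 : g ^ 2 + 1 / 4 ≤ x := by
      rw [hx]
      exact le_self_pow₀ h1 (by norm_num)
    have h4 : T / 16 ≤ g ^ 2 := by nlinarith
    linarith
  have hx0 : 0 < x := by positivity
  have hT0 : 0 < T := by linarith
  have h5 : Real.exp (-x) ≤ 1 / (1 + x) := by
    rw [Real.exp_neg, one_div]
    apply inv_anti₀ (by positivity)
    linarith [Real.add_one_le_exp x]
  have h6 : 1 - 1 / (1 + x) = x / (1 + x) := by field_simp; ring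
  have h7 : x / (1 + x) ≤ 1 - Real.exp (-x) := by rw [← h6]; linarith
  have h8 : 0 ≤ 1 + 16 / T := by positivity
  refine le_trans ?_ (mul_le_mul_of_nonneg_left h7 h8)
  rw [← mul_div_assoc, le_div_iff₀ (by positivity)]
  have h9 : 1 ≤ 16 / T * x := by
    rw [div_mul_eq_mul_div, le_div_iff₀ hT0]
    linarith
  nlinarith

theorem to_Gw {S : Finset ℝ} (hT : 4 ≤ T) (hS : ∀ g ∈ S, g ∈ Pool.Agent.PC.Z ∧ T / 4 ≤ g ∧ g ≤ 4 * T) :
    ∑ g ∈ S, (Pool.Agent.PC.m g : ℝ) * Pool.Agent.H26.SZ.Gw T g * ‖FF c0 α P T (1 / 2 + g * I)‖ ^ 2 ≤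
      (1 + 16 / T) * ∑ g ∈ S, (Pool.Agent.PC.m g : ℝ) * (hh c0 α P T (g * I)).re := by
  rw [Finset.mul_sum]
  refine Finset.sum_le_sum fun g hg => ?_
  obtain ⟨_, h1, _⟩ := hS g hg
  have h2 := kill_inv hT h1
  rw [hh_I_eq]
  have h3 : 0 < Pool.Agent.H26.SZ.Gw T g := Pool.Agent.H26.SZ.Gw_pos _ _
  have h4 : (0 : ℝ) ≤ Pool.Agent.PC.m g := Nat.cast_nonneg _
  have h5 : 0 ≤ (Pool.Agent.PC.m g : ℝ) * Pool.Agent.H26.SZ.Gw T g * ‖FF c0 α P T (1 / 2 + g * I)‖ ^ 2 := by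
    positivity
  have h6 := mul_le_mul_of_nonneg_left h2 h5
  calc _ = (Pool.Agent.PC.m g : ℝ) * Pool.Agent.H26.SZ.Gw T g * ‖FF c0 α P T (1 / 2 + g * I)‖ ^ 2 * 1 := by ring
    _ ≤ _ := h6
    _ = _ := by ring

/-- **Block C** -/
theorem cf (hRH : RiemannHypothesis) : CFstat := by
  intro c0 ε α P hε hε2 hα hP
  obtain ⟨C1, T1, hC1, h1⟩ := er1 c0 hε hε2 hα hP
  obtain ⟨C2, T2, hC2, h2⟩ := er2 c0 hε hε2 hα hP
  obtain ⟨C3, T3, hC3, h3⟩ := arch_up c0 hε hε2 hα hP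
  set R0 : ℝ := 2 * C2 + 2 * C1 + C3 with hR0
  set C : ℝ := 16 + C3 + 2 * R0 with hC
  have hR0' : 0 ≤ R0 := by positivity
  have hC16 : 16 ≤ C := by linarith
  refine ⟨C, max (max T1 (max T2 T3)) (Real.exp C), fun T hT S hS => ?_⟩
  have hTT1 : T1 ≤ T := (le_max_left _ _).trans ((le_max_left _ _).trans hT)
  have hTT2 : T2 ≤ T := (le_max_left _ _).trans ((le_max_right _ _).trans ((le_max_left _ _).trans hT))
  have hTT3 : T3 ≤ T := (le_max_right _ _).trans ((le_max_right _ _).trans ((le_max_left _ _).trans hT))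
  have hTe : Real.exp C ≤ T := (le_max_right _ _).trans hT
  have hT0 : 0 < T := (Real.exp_pos _).trans_le hTe
  have hCT : C + 1 ≤ T := (Real.add_one_le_exp C).trans hTe
  have hL : C ≤ Real.log T := by
    rw [Real.le_log_iff_exp_le hT0]; exact hTe
  have hTone : 1 < T := by linarith
  have e1 := h1 T hTT1
  obtain ⟨i2, e2⟩ := h2 T hTT2
  obtain ⟨p3, e3⟩ := h3 T hTT3
  have hmain := main_hh (c0 := c0) (α := α) (P := P) hRH hTone (by linarith) i2 S fun g hg => (hS g hg).1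
  have hGw := to_Gw (c0 := c0) (α := α) (P := P) (by linarith : 4 ≤ T) hS
  set L := Real.log T with hLdef
  -- the three integrals
  obtain ⟨K, hK⟩ := hh_SD (c0 := c0) (α := α) (P := P) hTone
  obtain ⟨hb1, hb2⟩ := bT_bounds (T := T) (by linarith)
  have hshift : ∫ t : ℝ, hh c0 α P T (ln 0 t) = ∫ t : ℝ, hh c0 α P T (ln (bT T) t) :=
    (hK.sub (by norm_num) hb2).shift (by norm_num) (by linarith)
  set Jh : ℂ := ∫ t : ℝ, hh c0 α P T (ln (bT T) t) with hJh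
  set Jz : ℂ := ∫ t : ℝ, hh c0 α P T (ln (bT T) t) * logDeriv riemannZeta (1 / 2 + ln (bT T) t) with hJz
  set Ja : ℂ := ∫ t : ℝ, hh c0 α P T (ln 0 t) * Ar (ln 0 t) with hJa
  rw [hshift] at p3 e3
  have hpi := Real.pi_pos
  have hpi3 := Real.pi_gt_three
  have q1 : |(2 * Real.pi)⁻¹ * Jh.re - (MM c0 α P T).re| ≤ ‖(2 * Real.pi : ℂ)⁻¹ * Jh - MM c0 α P T‖ := by
    have := Complex.abs_re_le_norm ((2 * Real.pi : ℂ)⁻¹ * Jh - MM c0 α P T)
    rw [Complex.sub_re, show (2 * Real.pi : ℂ)⁻¹ = (((2 * Real.pi)⁻¹ : ℝ) : ℂ) by push_cast; rfl,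
      Complex.re_ofReal_mul] at this
    simpa using this
  have q2 : |(2 * Real.pi)⁻¹ * Jz.re - (PP c0 α P T).re| ≤ ‖(2 * Real.pi : ℂ)⁻¹ * Jz - PP c0 α P T‖ := by
    have := Complex.abs_re_le_norm ((2 * Real.pi : ℂ)⁻¹ * Jz - PP c0 α P T)
    rw [Complex.sub_re, show (2 * Real.pi : ℂ)⁻¹ = (((2 * Real.pi)⁻¹ : ℝ) : ℂ) by push_cast; rfl,
      Complex.re_ofReal_mul] at this
    simpa using this
  set E1 := ‖(2 * Real.pi : ℂ)⁻¹ * Jh - MM c0 α P T‖ with hE1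
  set E2 := ‖(2 * Real.pi : ℂ)⁻¹ * Jz - PP c0 α P T‖ with hE2
  have hE10 : 0 ≤ E1 := norm_nonneg _
  have hE20 : 0 ≤ E2 := norm_nonneg _
  set A := (PP c0 α P T).re with hA
  set B := (MM c0 α P T).re with hB
  set Ih := (2 * Real.pi)⁻¹ * Jh.re with hIh
  set Iz := (2 * Real.pi)⁻¹ * Jz.re with hIz
  have hIh0 : 0 ≤ Ih := by positivity
  set X : ℝ := T ^ (3 / 4 : ℝ) with hX
  have hX1 : 1 ≤ X := Real.one_le_rpow hTone.le (by norm_num)
  have hX2 : X ≤ T ^ (1 - ε / 2) := Real.rpow_le_rpow_of_exponent_le hTone.le (by linarith)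
  set Sh := ∑ g ∈ S, (Pool.Agent.PC.m g : ℝ) * (hh c0 α P T (g * I)).re with hSh
  have hSh0 : 0 ≤ Sh := Finset.sum_nonneg fun g _ => mul_nonneg (Nat.cast_nonneg _) (hh_I_nonneg _)
  -- the main inequality
  have m1 : Sh ≤ 2 * Iz + (L + C3) * Ih + C3 := by
    have a1 : Real.pi⁻¹ * (Jz.re + Ja.re) ≤ Real.pi⁻¹ * (Jz.re + ((L + C3) / 2 * Jh.re + C3)) := by
      gcongr
    have a2 : Real.pi⁻¹ * (Jz.re + ((L + C3) / 2 * Jh.re + C3)) = 2 * Iz + (L + C3) * Ih + Real.pi⁻¹ * C3 := by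
      rw [hIz, hIh]; field_simp; ring
    have a3 : Real.pi⁻¹ * C3 ≤ C3 := by
      have : Real.pi⁻¹ ≤ 1 := inv_le_one_of_one_le₀ (by linarith)
      nlinarith
    linarith
  have d1 := abs_le.1 q1
  have d2 := abs_le.1 q2
  -- error terms
  have hLC : L + C ≤ 2 * L := by linarith
  have m2 : Sh ≤ (2 * A + (L + C) * B) + R0 * X := by
    have b1 : Ih ≤ B + E1 := by linarith [d1.2]
    have b2 : Iz ≤ A + E2 := by linarith [d2.2]
    have b3 : -E1 ≤ B := by linarith [d1.2]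
    have b4 : 0 ≤ (C - C3) * (B + E1) := mul_nonneg (by linarith) (by linarith)
    have b5 : (L + C3) * Ih ≤ (L + C3) * (B + E1) := by
      have : 0 ≤ L + C3 := by linarith
      gcongr
    have b6 : (L + C) * E1 ≤ 2 * C1 * X := by
      calc (L + C) * E1 ≤ (2 * L) * E1 := by gcongr
        _ = 2 * (L * E1) := by ring
        _ ≤ 2 * (C1 * X) := by gcongr
        _ = _ := by ring
    have b7 : C3 ≤ C3 * X := le_mul_of_one_le_right hC3 hX1
    have b8 : (L + C) * (B + E1) = (L + C) * B + (L + C) * E1 := by ring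
    have b9 : (L + C3) * (B + E1) ≤ (L + C) * (B + E1) := by nlinarith
    calc Sh ≤ 2 * Iz + (L + C3) * Ih + C3 := m1
      _ ≤ 2 * (A + E2) + (L + C) * (B + E1) + C3 := by linarith
      _ = (2 * A + (L + C) * B) + (2 * E2 + (L + C) * E1 + C3) := by rw [b8]; ring
      _ ≤ (2 * A + (L + C) * B) + (2 * (C2 * X) + 2 * C1 * X + C3 * X) := by linarith
      _ = _ := by rw [hR0]; ring
  set Q := 2 * A + (L + C) * B with hQ
  have hQR : 0 ≤ Q + R0 * X := hSh0.trans m2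
  have hCT1 : C / T ≤ 1 := by rw [div_le_one hT0]; linarith
  have h16 : 1 + 16 / T ≤ 1 + C / T := by gcongr
  have hRX : 0 ≤ R0 * X := by positivity
  calc ∑ g ∈ S, (Pool.Agent.PC.m g : ℝ) * Pool.Agent.H26.SZ.Gw T g * ‖FF c0 α P T (1 / 2 + g * I)‖ ^ 2
      ≤ (1 + 16 / T) * Sh := hGw
    _ ≤ (1 + 16 / T) * (Q + R0 * X) := by gcongr
    _ ≤ (1 + C / T) * (Q + R0 * X) := by gcongr
    _ = (1 + C / T) * Q + (1 + C / T) * (R0 * X) := by ring
    _ ≤ (1 + C / T) * Q + 2 * (R0 * X) := by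
        have : (1 + C / T) * (R0 * X) ≤ 2 * (R0 * X) := by
          apply mul_le_mul_of_nonneg_right _ hRX
          linarith
        linarith
    _ ≤ (1 + C / T) * Q + C * T ^ (1 - ε / 2) := by
        have : 2 * (R0 * X) ≤ C * T ^ (1 - ε / 2) := by
          calc 2 * (R0 * X) = (2 * R0) * X := by ring
            _ ≤ C * T ^ (1 - ε / 2) := by
                apply mul_le_mul _ hX2 (by positivity) (by linarith)
                linarith
        linarith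

end Pool.Agent.H53.SZC
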